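import Mathlib

/-!
Two-cocycles with rational values: transfer, and orbits of odd length.
-/

namespace Pool.Agent.Lib.MP_02f36d_nt

variable {G : Type*} [Group G]

/-- `c` is a coboundary on the subgroup `H`. -/
def Cob (H : Subgroup G) (c : G → G → ℚ) : Prop :=
  ∃ l : G → ℚ, (∀ g ∈ H, l g ≠ 0) ∧ ∀ g ∈ H, ∀ h ∈ H, c g h * l (g * h) = l g * l h

lemma cob_of_pow {c : G → G → ℚ} (h0 : ∀ g h, c g h ≠ 0) (h2 : Cob ⊤ fun g h => c g h ^ 2) {n : ℕ}
    (hn : Odd n) (h : Cob ⊤ fun g h => c g h ^ n) : Cob ⊤ c := by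
  obtain ⟨m, rfl⟩ := hn
  obtain ⟨l, l0, hl⟩ := h2
  obtain ⟨l', l0', hl'⟩ := h
  refine ⟨fun g => l' g / l g ^ m, fun g hg => div_ne_zero (l0' g hg) (pow_ne_zero _ (l0 g hg)),
    fun g _ h _ => ?_⟩
  have e1 := congrArg (· ^ m) (hl g trivial h trivial)
  have e2 := hl' g trivial h trivial
  simp only [mul_pow] at e1 e2
  have n1 := pow_ne_zero m (l0 g trivial)
  have n2 := pow_ne_zero m (l0 h trivial)
  have n3 := pow_ne_zero m (l0 (g * h) trivial)
  have n4 := pow_ne_zero m (pow_ne_zero 2 (h0 g h))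
  rw [div_mul_div_comm, ← e1, ← e2, pow_succ, pow_mul]
  field_simp

lemma cob_transfer [Finite G] {c : G → G → ℚ} (h0 : ∀ g h, c g h ≠ 0)
    (hc : ∀ g h k, c g h * c (g * h) k = c h k * c g (h * k)) {H : Subgroup G} (h : Cob H c) :
    Cob ⊤ fun g h => c g h ^ H.index := by
  classical
  have := Fintype.ofFinite (G ⧸ H)
  obtain ⟨l, l0, hl⟩ := h
  set η : G → G ⧸ H → G := fun g x => (g • x).out⁻¹ * (g * x.out) with hη
  have mem : ∀ g x, η g x ∈ H := fun g x => by
    rw [hη, ← QuotientGroup.eq, QuotientGroup.out_eq', ← smul_eq_mul, MulAction.Quotient.coe_smul_out]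
  set lam : G → G ⧸ H → ℚ := fun g x => c g x.out * l (η g x) / c (g • x).out (η g x) with hlam
  have key : ∀ g g' x, c g g' * lam (g * g') x = lam g (g' • x) * lam g' x := fun g g' x => by
    have e0 : η (g * g') x = η g (g' • x) * η g' x := by simp only [hη, mul_smul]; group
    have e1 := hc g g' x.out
    have e2 := hc (g • g' • x).out (η g (g' • x)) (η g' x)
    have e3 := hc g (g' • x).out (η g' x)
    have e4 := hl _ (mem g (g' • x)) _ (mem g' x)
    rw [show (g • g' • x).out * η g (g' • x) = g * (g' • x).out by simp only [hη]; group] at e2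
    rw [show (g' • x).out * η g' x = g' * x.out by simp only [hη]; group] at e3
    simp only [hlam, e0, mul_smul]
    rw [mul_div_assoc', div_mul_div_comm, div_eq_div_iff (h0 _ _) (mul_ne_zero (h0 _ _) (h0 _ _))]
    linear_combination (l (η g (g' • x) * η g' x) * c (g • g' • x).out (η g (g' • x)) *
      c (g' • x).out (η g' x)) * e1 - (l (η g (g' • x) * η g' x) * c g' x.out *
      c (g • g' • x).out (η g (g' • x))) * e3 + (l (η g (g' • x) * η g' x) * c g' x.out *
      c g (g' • x).out) * e2 + (c g (g' • x).out * c g' x.out *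
      c (g • g' • x).out (η g (g' • x) * η g' x)) * e4
  refine ⟨fun g => ∏ x, lam g x, fun g _ => Finset.prod_ne_zero_iff.2 fun x _ =>
    div_ne_zero (mul_ne_zero (h0 _ _) (l0 _ (mem g x))) (h0 _ _), fun g _ g' _ => ?_⟩
  beta_reduce
  rw [← Equiv.prod_comp (MulAction.toPerm g') (lam g), ← Finset.prod_mul_distrib,
    Subgroup.index, Nat.card_eq_fintype_card, ← Finset.card_univ, ← Finset.prod_const,
    ← Finset.prod_mul_distrib]
  exact Finset.prod_congr rfl fun x _ => key g g' x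

lemma exists_odd_index [Finite G] {Y : Type*} [MulAction G Y] {X : Set Y}
    (hX : ∀ g : G, ∀ x ∈ X, g • x ∈ X) (h : Odd X.ncard) :
    ∃ x ∈ X, Odd (MulAction.stabilizer G x).index := by
  have : Fact (Nat.Prime 2) := ⟨Nat.prime_two⟩
  obtain ⟨P⟩ := (Sylow.nonempty : Nonempty (Sylow 2 G))
  let S : SubMulAction G Y := ⟨X, fun g x hx => hX g x hx⟩
  obtain ⟨⟨x, hx⟩, hfix⟩ := P.2.nonempty_fixed_point_of_prime_not_dvd_card S (by
    rw [← even_iff_two_dvd, Nat.not_even_iff_odd]
    exact h)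
  refine ⟨x, hx, Odd.of_dvd_nat ?_ (Subgroup.index_dvd_of_le (H := P) fun g hg => ?_)⟩
  · rw [← Nat.not_even_iff_odd, even_iff_two_dvd]
    exact P.not_dvd_index
  · exact congrArg Subtype.val (hfix ⟨g, hg⟩)

end Pool.Agent.Lib.MP_02f36d_nt
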