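import Mathlib

/-!
Isogenies over a field `K`, as additive maps on geometric points given by rational functions.
-/

namespace Pool.Agent.Lib.MP_02f36d_nt

open Polynomial WeierstrassCurve

/-- Six polynomials, read as the rational map
`(x, y) ↦ ((a(x) + b(x) y) / c(x), (d(x) + e(x) y) / f(x))`. -/
structure RatMap (K : Type*) [Field K] where
  a : K[X]
  b : K[X]
  c : K[X]
  d : K[X]
  e : K[X]
  f : K[X]

/-- Apply a field homomorphism to all coefficients of a rational map. -/
noncomputable def RatMap.map {K L : Type*} [Field K] [Field L] (R : RatMap K) (j : K →+* L) :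
    RatMap L :=
  ⟨R.a.map j, R.b.map j, R.c.map j, R.d.map j, R.e.map j, R.f.map j⟩

/-- The group homomorphism `φ` from the geometric points of `W₁` to those of `W₂` is given,
outside a finite set of points, by the rational map `R` with coefficients in `K`;
that is, `φ` is the isogeny over `K` with formulas `R`. -/
def RatMap.Gives {K : Type*} [Field K] [DecidableEq (AlgebraicClosure K)] (R : RatMap K)
    (W₁ W₂ : WeierstrassCurve K)
    (φ : (W₁.baseChange (AlgebraicClosure K)).toAffine.Point →+
      (W₂.baseChange (AlgebraicClosure K)).toAffine.Point) : Prop :=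
  R.c ≠ 0 ∧ R.f ≠ 0 ∧ ∃ T : Set (AlgebraicClosure K), T.Finite ∧
    ∀ (x y : AlgebraicClosure K)
      (h : (W₁.baseChange (AlgebraicClosure K)).toAffine.Nonsingular x y), x ∉ T →
      ∃ h', φ (.some x y h) = .some ((aeval x R.a + aeval x R.b * y) / aeval x R.c)
        ((aeval x R.d + aeval x R.e * y) / aeval x R.f) h'

end Pool.Agent.Lib.MP_02f36d_nt
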