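import Pool.Agent.Lib.MP_02f36d_nt.Rat

/-!
The degree of an algebraic additive map between groups of points: it is multiplicative and
satisfies the parallelogram law.
-/

namespace Pool.Agent.Lib.MP_02f36d_nt

open Polynomial WeierstrassCurve Filter

variable {F : Type*} [Field F]

section Forms

variable [DecidableEq F] {V : Affine F}

lemma xc_add_mul {P Q : V.Point} (hP : P ≠ 0) (hQ : Q ≠ 0) (h : xc P ≠ xc Q) :
    P + Q ≠ 0 ∧ xc (P + Q) * (xc P - xc Q) ^ 2 = (yc P - yc Q) ^ 2 +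
      V.a₁ * (yc P - yc Q) * (xc P - xc Q) - (V.a₂ + xc P + xc Q) * (xc P - xc Q) ^ 2 := by
  obtain ⟨h1, h2, -⟩ := add_coords hP hQ fun e => h e.1
  refine ⟨h1, ?_⟩
  have h3 := sub_ne_zero.2 h
  rw [h2, Affine.slope_of_X_ne h, Affine.addX]
  field_simp
  ring

lemma sum_prod {P Q : V.Point} (hP : P ≠ 0) (hQ : Q ≠ 0) (h : xc P ≠ xc Q) :
    P + Q ≠ 0 ∧ P - Q ≠ 0 ∧
    xc (P + Q) * xc (P - Q) * (xc P - xc Q) ^ 2 = (xc P * xc Q) ^ 2 - V.b₄ * (xc P * xc Q) -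
      V.b₆ * (xc P + xc Q) - V.b₈ ∧
    (xc (P + Q) + xc (P - Q)) * (xc P - xc Q) ^ 2 = 2 * (xc P + xc Q) * (xc P * xc Q) +
      V.b₂ * (xc P * xc Q) + V.b₄ * (xc P + xc Q) + V.b₆ := by
  obtain ⟨h1, h2⟩ := xc_add_mul hP hQ h
  obtain ⟨h3, h4⟩ := xc_add_mul hP (neg_ne_zero.2 hQ) (by rwa [xc_neg])
  rw [← sub_eq_add_neg] at h3 h4
  rw [xc_neg, yc_neg hQ] at h4
  have e1 := eqn hP
  have e2 := eqn hQ
  have hD := sub_ne_zero.2 h
  refine ⟨h1, h3, ?_, ?_⟩
  · refine mul_right_cancel₀ (pow_ne_zero 2 hD) ?_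
    have : xc (P + Q) * xc (P - Q) * (xc P - xc Q) ^ 2 * (xc P - xc Q) ^ 2 =
      (xc (P + Q) * (xc P - xc Q) ^ 2) * (xc (P - Q) * (xc P - xc Q) ^ 2) := by ring
    rw [this, h2, h4]
    simp only [b₄, b₆, b₈]
    generalize xc P = x1 at *
    generalize xc Q = x2 at *
    generalize yc P = y1 at *
    generalize yc Q = y2 at *
    linear_combination (y1 ^ 2 + y1 * x1 * V.a₁ + y1 * V.a₃ - 2 * y2 ^ 2 - 2 * y2 * x2 * V.a₁ -
      2 * y2 * V.a₃ - x1 ^ 3 + 2 * x1 ^ 2 * x2 - x1 ^ 2 * V.a₂ + 2 * x1 * x2 ^ 2 +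
      x1 * x2 * V.a₁ ^ 2 + 4 * x1 * x2 * V.a₂ + x1 * V.a₁ * V.a₃ + x1 * V.a₄ - 2 * x2 ^ 3 -
      x2 ^ 2 * V.a₁ ^ 2 - 2 * x2 ^ 2 * V.a₂ - x2 * V.a₁ * V.a₃ + V.a₆) * e1 +
      (y2 ^ 2 + y2 * x2 * V.a₁ + y2 * V.a₃ - 4 * x1 ^ 3 + 2 * x1 ^ 2 * x2 - x1 ^ 2 * V.a₁ ^ 2 -
      4 * x1 ^ 2 * V.a₂ + 2 * x1 * x2 ^ 2 + x1 * x2 * V.a₁ ^ 2 + 4 * x1 * x2 * V.a₂ -
      x1 * V.a₁ * V.a₃ - 2 * x1 * V.a₄ - x2 ^ 3 - x2 ^ 2 * V.a₂ + x2 * V.a₁ * V.a₃ +
      x2 * V.a₄ - V.a₆) * e2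
  · rw [add_mul, h2, h4]
    simp only [b₂, b₄, b₆]
    linear_combination 2 * e1 + 2 * e2

lemma xc_two {P : V.Point} (hP : P ≠ 0) (h : 2 * yc P + V.a₁ * xc P + V.a₃ ≠ 0) :
    P + P ≠ 0 ∧ xc (P + P) * (4 * xc P ^ 3 + V.b₂ * xc P ^ 2 + 2 * V.b₄ * xc P + V.b₆) =
      xc P ^ 4 - V.b₄ * xc P ^ 2 - 2 * V.b₆ * xc P - V.b₈ := by
  have hy : yc P ≠ V.negY (xc P) (yc P) := fun e => h (by
    rw [Affine.negY] at e; linear_combination e)
  obtain ⟨h1, h2, -⟩ := add_coords hP hP fun e => hy e.2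
  refine ⟨h1, ?_⟩
  have e1 := eqn hP
  have e2 : 4 * xc P ^ 3 + V.b₂ * xc P ^ 2 + 2 * V.b₄ * xc P + V.b₆ =
      (2 * yc P + V.a₁ * xc P + V.a₃) ^ 2 := by
    simp only [b₂, b₄, b₆]
    linear_combination (-4) * e1
  have e3 : yc P - V.negY (xc P) (yc P) = 2 * yc P + V.a₁ * xc P + V.a₃ := by
    rw [Affine.negY]; ring
  have key : ∀ N Y c : F, Y ≠ 0 → ((N / Y) ^ 2 + V.a₁ * (N / Y) - V.a₂ - c - c) * Y ^ 2 =
      N ^ 2 + V.a₁ * N * Y - (V.a₂ + 2 * c) * Y ^ 2 := fun N Y c hY => by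
    field_simp
    ring
  rw [h2, Affine.slope_of_Y_ne rfl hy, Affine.addX, e2, e3, key _ _ _ h]
  simp only [b₄, b₆, b₈]
  linear_combination (-V.a₁ ^ 2 - 4 * (V.a₂ + 2 * xc P)) * e1

end Forms

/-- Degree bound together with the top coefficient. -/
def Top (p : F[X]) (n : ℕ) (c : F) : Prop := p.natDegree ≤ n ∧ p.coeff n = c

lemma Top.mul {p q : F[X]} {n m : ℕ} {c d : F} (h : Top p n c) (h' : Top q m d) :
    Top (p * q) (n + m) (c * d) :=
  ⟨natDegree_mul_le_of_le h.1 h'.1, by rw [coeff_mul_add_eq_of_natDegree_le h.1 h'.1, h.2, h'.2]⟩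

lemma Top.add {p q : F[X]} {n : ℕ} {c d : F} (h : Top p n c) (h' : Top q n d) :
    Top (p + q) n (c + d) :=
  ⟨natDegree_add_le_of_degree_le h.1 h'.1, by rw [coeff_add, h.2, h'.2]⟩

lemma Top.sub {p q : F[X]} {n : ℕ} {c d : F} (h : Top p n c) (h' : Top q n d) :
    Top (p - q) n (c - d) :=
  ⟨(natDegree_sub_le _ _).trans (max_le h.1 h'.1), by rw [coeff_sub, h.2, h'.2]⟩

lemma Top.C_mul {p : F[X]} {n : ℕ} {c : F} (h : Top p n c) (a : F) : Top (C a * p) n (a * c) :=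
  ⟨(natDegree_C_mul_le _ _).trans h.1, by rw [coeff_C_mul, h.2]⟩

lemma Top.pow {p : F[X]} {n : ℕ} {c : F} (h : Top p n c) (k : ℕ) : Top (p ^ k) (k * n) (c ^ k) :=
  ⟨natDegree_pow_le_of_le k h.1, by rw [coeff_pow_of_natDegree_le h.1, h.2]⟩

/-- A vector of polynomials without common zero (also at infinity, in degree `n`). -/
structure Prim {ι : Type*} (v : ι → F[X]) (n : ℕ) : Prop where
  fin : ∀ x, ∃ i, (v i).eval x ≠ 0
  le : ∀ i, (v i).natDegree ≤ n
  top : ∃ i, (v i).coeff n ≠ 0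

lemma Prim.bezout [IsAlgClosed F] {ι : Type*} [Fintype ι] {v : ι → F[X]} {n : ℕ} (h : Prim v n) :
    ∃ c : ι → F[X], ∑ i, c i * v i = 1 := by
  obtain ⟨g, hg⟩ := (IsPrincipalIdealRing.principal (Ideal.span (Set.range v))).principal
  have hd : ∀ i, g ∣ v i := fun i => by
    rw [← Ideal.mem_span_singleton]
    change v i ∈ Submodule.span _ {g}
    rw [← hg]
    exact Ideal.subset_span ⟨i, rfl⟩
  have hu : IsUnit g := by
    by_contra hu
    have h0 : g ≠ 0 := by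
      rintro rfl
      obtain ⟨i, hi⟩ := h.fin 0
      exact hi (by rw [zero_dvd_iff.1 (hd i), eval_zero])
    obtain ⟨x, hx⟩ := IsAlgClosed.exists_root g (fun e => hu (isUnit_iff_degree_eq_zero.2 e))
    obtain ⟨i, hi⟩ := h.fin x
    exact hi (hx.dvd (hd i))
  have h1 : (1 : F[X]) ∈ Ideal.span (Set.range v) := by
    rw [hg]
    change (1 : F[X]) ∈ Ideal.span {g}
    rw [Ideal.span_singleton_eq_top.2 hu]
    trivial
  exact Ideal.mem_span_range_iff_exists_fun.1 h1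

lemma Prim.le_of_prop [IsAlgClosed F] {ι : Type*} [Fintype ι] {v w : ι → F[X]} {n m : ℕ}
    (h : Prim v n) (h' : Prim w m) (j : ι) (hj : w j ≠ 0) (e : ∀ i, v i * w j = w i * v j) :
    n ≤ m := by
  obtain ⟨c, hc⟩ := h.bezout
  have e1 : w j = (∑ i, c i * w i) * v j := by
    calc w j = (∑ i, c i * v i) * w j := by rw [hc, one_mul]
      _ = _ := by simp only [Finset.sum_mul, mul_assoc, e]
  set k := ∑ i, c i * w i
  have hk : k ≠ 0 := fun e0 => hj (by rw [e1, e0, zero_mul])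
  have hv : v j ≠ 0 := fun e0 => hj (by rw [e1, e0, mul_zero])
  obtain ⟨i, hi⟩ := h.top
  have e2 : w i = k * v i := mul_right_cancel₀ hv (by rw [← e i, e1]; ring)
  have hvi : v i ≠ 0 := fun e0 => hi (by rw [e0, coeff_zero])
  calc n ≤ (v i).natDegree := le_natDegree_of_ne_zero hi
    _ ≤ (w i).natDegree := by rw [e2, natDegree_mul hk hvi]; omega
    _ ≤ m := h'.le i

lemma Prim.eq_of_prop [IsAlgClosed F] {ι : Type*} [Fintype ι] {v w : ι → F[X]} {n m : ℕ}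
    (h : Prim v n) (h' : Prim w m) (j : ι) (hv : v j ≠ 0) (hw : w j ≠ 0)
    (e : ∀ i, v i * w j = w i * v j) : n = m :=
  le_antisymm (h.le_of_prop h' j hw e) (h'.le_of_prop h j hv fun i => (e i).symm)

lemma prim_two {p q : F[X]} {n : ℕ} (h1 : ∀ x, p.eval x ≠ 0 ∨ q.eval x ≠ 0)
    (h2 : p.natDegree ≤ n) (h3 : q.natDegree ≤ n) (h4 : p.coeff n ≠ 0 ∨ q.coeff n ≠ 0) :
    Prim ![p, q] n :=
  ⟨fun x => (h1 x).elim (fun h => ⟨0, h⟩) fun h => ⟨1, h⟩, by
    intro i; fin_cases i; exacts [h2, h3], h4.elim (fun h => ⟨0, h⟩) fun h => ⟨1, h⟩⟩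

lemma Prim.fin2 {p q : F[X]} {n : ℕ} (h : Prim ![p, q] n) (x : F) :
    p.eval x ≠ 0 ∨ q.eval x ≠ 0 := by
  obtain ⟨i, hi⟩ := h.fin x
  fin_cases i
  exacts [Or.inl hi, Or.inr hi]

lemma Prim.top2 {p q : F[X]} {n : ℕ} (h : Prim ![p, q] n) : p.coeff n ≠ 0 ∨ q.coeff n ≠ 0 := by
  obtain ⟨i, hi⟩ := h.top
  fin_cases i
  exacts [Or.inl hi, Or.inr hi]

lemma exists_prim (p : F[X]) {q : F[X]} (hq : q ≠ 0) :
    ∃ p' q' n, Prim ![p', q'] n ∧ q' ≠ 0 ∧ p * q' = p' * q := by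
  classical
  obtain ⟨p', hp'⟩ := EuclideanDomain.gcd_dvd_left p q
  obtain ⟨q', hq'⟩ := EuclideanDomain.gcd_dvd_right p q
  have hb := EuclideanDomain.gcd_eq_gcd_ab p q
  set g := EuclideanDomain.gcd p q
  have hg : g ≠ 0 := fun e => hq (by rw [hq', e, zero_mul])
  have hq0 : q' ≠ 0 := fun e => hq (by rw [hq', e, mul_zero])
  have hb' : 1 = p' * EuclideanDomain.gcdA p q + q' * EuclideanDomain.gcdB p q :=
    mul_left_cancel₀ hg (by
      linear_combination hb + EuclideanDomain.gcdA p q * hp' + EuclideanDomain.gcdB p q * hq')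
  refine ⟨p', q', max p'.natDegree q'.natDegree, prim_two (fun x => ?_) (le_max_left _ _)
    (le_max_right _ _) ?_, hq0, by linear_combination q' * hp' - p' * hq'⟩
  · by_contra h
    push Not at h
    have := congrArg (eval x) hb'
    simp [h.1, h.2] at this
  · rcases le_total p'.natDegree q'.natDegree with h | h
    · rw [max_eq_right h]
      exact Or.inr (leadingCoeff_ne_zero.2 hq0)
    · rw [max_eq_left h]
      by_cases hp0 : p' = 0
      · rw [hp0, natDegree_zero, Nat.le_zero] at h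
        rw [hp0, natDegree_zero, ← h]
        exact Or.inr (leadingCoeff_ne_zero.2 hq0)
      · exact Or.inl (leadingCoeff_ne_zero.2 hp0)

/-- Homogenisation evaluated at elements. -/
def hv (A : F[X]) (n : ℕ) (s t : F) : F := ∑ i ∈ Finset.range (n + 1), A.coeff i * s ^ i * t ^ (n - i)

/-- Homogenisation evaluated at polynomials. -/
noncomputable def hg (A : F[X]) (n : ℕ) (p q : F[X]) : F[X] :=
  ∑ i ∈ Finset.range (n + 1), C (A.coeff i) * p ^ i * q ^ (n - i)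

lemma eval_hg (A : F[X]) (n : ℕ) (p q : F[X]) (x : F) :
    (hg A n p q).eval x = hv A n (p.eval x) (q.eval x) := by
  simp [hg, hv, eval_finsetSum]

lemma hv_of_ne {A : F[X]} {n : ℕ} (h : A.natDegree ≤ n) (s : F) {t : F} (ht : t ≠ 0) :
    hv A n s t = A.eval (s / t) * t ^ n := by
  rw [eval_eq_sum_range' (Nat.lt_succ_of_le h), hv, Finset.sum_mul]
  refine Finset.sum_congr rfl fun i hi => ?_
  have hi' : i ≤ n := Nat.lt_succ_iff.1 (Finset.mem_range.1 hi)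
  rw [pow_sub₀ _ ht hi', div_pow]
  field_simp

lemma hv_zero (A : F[X]) (n : ℕ) (s : F) : hv A n s 0 = A.coeff n * s ^ n := by
  rw [hv, Finset.sum_range_succ, Finset.sum_eq_zero fun i hi => ?_]
  · simp
  · rw [zero_pow (by have := Finset.mem_range.1 hi; omega), mul_zero]

lemma Prim.hv_ne {A B : F[X]} {n : ℕ} (h : Prim ![A, B] n) {s t : F} (hst : s ≠ 0 ∨ t ≠ 0) :
    hv A n s t ≠ 0 ∨ hv B n s t ≠ 0 := by
  by_cases ht : t = 0
  · subst ht
    have hs : s ≠ 0 := hst.resolve_right (by simp)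
    rw [hv_zero, hv_zero]
    exact h.top2.imp (fun e => mul_ne_zero e (pow_ne_zero _ hs))
      fun e => mul_ne_zero e (pow_ne_zero _ hs)
  · rw [hv_of_ne (show A.natDegree ≤ n from h.le 0) s ht,
      hv_of_ne (show B.natDegree ≤ n from h.le 1) s ht]
    exact (h.fin2 (s / t)).imp (fun e => mul_ne_zero e (pow_ne_zero _ ht))
      fun e => mul_ne_zero e (pow_ne_zero _ ht)

lemma top_hg (A : F[X]) (n : ℕ) {p q : F[X]} {m : ℕ} (hp : p.natDegree ≤ m)
    (hq : q.natDegree ≤ m) : Top (hg A n p q) (n * m) (hv A n (p.coeff m) (q.coeff m)) := by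
  have key : ∀ i ∈ Finset.range (n + 1), Top (C (A.coeff i) * p ^ i * q ^ (n - i)) (n * m)
      (A.coeff i * p.coeff m ^ i * q.coeff m ^ (n - i)) := fun i hi => by
    have hi' : i ≤ n := Nat.lt_succ_iff.1 (Finset.mem_range.1 hi)
    have := (((show Top p m _ from ⟨hp, rfl⟩).pow i).C_mul (A.coeff i)).mul
      ((show Top q m _ from ⟨hq, rfl⟩).pow (n - i))
    rwa [← add_mul, Nat.add_sub_cancel' hi'] at this
  refine ⟨natDegree_sum_le_of_forall_le _ _ fun i hi => (key i hi).1, ?_⟩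
  rw [hg, finsetSum_coeff, hv]
  exact Finset.sum_congr rfl fun i hi => (key i hi).2

lemma Prim.comp {A B p q : F[X]} {n m : ℕ} (h : Prim ![A, B] n) (h' : Prim ![p, q] m) :
    Prim ![hg A n p q, hg B n p q] (n * m) := by
  have t1 := top_hg A n (h'.le 0) (h'.le 1)
  have t2 := top_hg B n (h'.le 0) (h'.le 1)
  refine prim_two (fun x => ?_) t1.1 t2.1 ?_
  · rw [eval_hg, eval_hg]
    exact h.hv_ne (h'.fin2 x)
  · erw [t1.2, t2.2]
    exact h.hv_ne h'.top2

variable {V V' V'' : Affine F}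

/-- `w` is a rational function of `x` of degree `n`. -/
def EvenDeg (w : V.Point → F) (n : ℕ) : Prop :=
  ∃ p q, Prim ![p, q] n ∧ q ≠ 0 ∧ ∀ᶠ P in cofinite, w P = p.eval (xc P) / q.eval (xc P)

lemma EvenDeg.congr {w w' : V.Point → F} {n : ℕ} (h : EvenDeg w n)
    (e : ∀ᶠ P in cofinite, w P = w' P) : EvenDeg w' n := by
  obtain ⟨p, q, h1, h2, h3⟩ := h
  exact ⟨p, q, h1, h2, by filter_upwards [h3, e] with P e1 e2; rw [← e2, e1]⟩

lemma EvenDeg.unique [IsAlgClosed F] (hV : Sep V) {w : V.Point → F} {n m : ℕ} (h : EvenDeg w n)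
    (h' : EvenDeg w m) : n = m := by
  obtain ⟨p, q, h1, h2, h3⟩ := h
  obtain ⟨p', q', h1', h2', h3'⟩ := h'
  refine h1.eq_of_prop h1' 1 h2 h2' fun i => ?_
  fin_cases i
  · change p * q' = p' * q
    rw [← sub_eq_zero]
    refine poly_eq_zero_of_ev_xc hV ?_
    filter_upwards [h3, h3', ev_eval_xc_ne V h2, ev_eval_xc_ne V h2'] with P e1 e2 e3 e4
    rw [e1, div_eq_div_iff e3 e4] at e2
    simp [e2]
  · exact mul_comm _ _

lemma evenDeg_of_div (p : F[X]) {q : F[X]} (hq : q ≠ 0) {w : V.Point → F}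
    (h : ∀ᶠ P in cofinite, w P = p.eval (xc P) / q.eval (xc P)) : ∃ n, EvenDeg w n := by
  obtain ⟨p', q', n, h1, h2, h3⟩ := exists_prim p hq
  refine ⟨n, p', q', h1, h2, ?_⟩
  filter_upwards [h, ev_eval_xc_ne V hq, ev_eval_xc_ne V h2] with P e1 e2 e3
  rw [e1, div_eq_div_iff e2 e3, ← eval_mul, h3, eval_mul]

lemma Rep3.odd_eq_zero [IsAlgClosed F] (hV : Sep V) {w : V.Point → F} {a b c : F[X]}
    (h : Rep3 w a b c) (he : ∀ᶠ P in cofinite, w (-P) = w P) : b = 0 := by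
  classical
  refine poly_eq_zero_of_ev_xc hV ?_
  filter_upwards [h.2, ev_neg h.2, he, ev_eval_xc_ne V h.1, ev_Y_ne hV, ev_ne_zero V]
    with P e1 e2 e3 e4 e5 e6
  rw [e3, e1, xc_neg, yc_neg e6, div_left_inj' e4] at e2
  exact (mul_eq_zero.1 (by linear_combination e2)).resolve_right e5

lemma IsRat.evenDeg [IsAlgClosed F] (hV : Sep V) {S : Subring F} {w : V.Point → F} (h : IsRat S w)
    (he : ∀ᶠ P in cofinite, w (-P) = w P) : ∃ n, EvenDeg w n := by
  obtain ⟨a, -, b, -, c, -, h⟩ := h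
  have hb := h.odd_eq_zero hV he
  exact evenDeg_of_div a h.1 (h.2.mono fun P e => by simp [e, hb])

lemma EvenDeg.const {w : V.Point → F} (h : EvenDeg w 0) : ∃ c, ∀ᶠ P in cofinite, w P = c := by
  obtain ⟨p, q, h1, -, h3⟩ := h
  have hp := eq_C_of_natDegree_le_zero (h1.le 0)
  have hq := eq_C_of_natDegree_le_zero (h1.le 1)
  change p = C (p.coeff 0) at hp
  change q = C (q.coeff 0) at hq
  exact ⟨p.coeff 0 / q.coeff 0, h3.mono fun P e => by rw [e, hp, hq]; simp⟩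

lemma evenDeg_const (c : F) : EvenDeg (fun _ : V.Point => c) 0 :=
  ⟨C c, 1, prim_two (fun x => Or.inr (by simp)) (by simp) (by simp) (Or.inr (by simp)),
    one_ne_zero, Eventually.of_forall fun P => by simp⟩

lemma evenDeg_xc : EvenDeg (xc : V.Point → F) 1 :=
  ⟨X, 1, prim_two (fun x => Or.inr (by simp)) (by simp) (by simp) (Or.inl (by simp)),
    one_ne_zero, Eventually.of_forall fun P => by simp⟩

/-- Substitution of a rational function of `x` into a rational function of one variable. -/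
lemma EvenDeg.subst [Infinite V.Point] {w : V.Point → F} {m : ℕ} (h : EvenDeg w m) {A B : F[X]}
    {n : ℕ} (hAB : Prim ![A, B] n) (hB : ∀ᶠ P in cofinite, B.eval (w P) ≠ 0) :
    EvenDeg (fun P => A.eval (w P) / B.eval (w P)) (n * m) := by
  obtain ⟨p, q, h1, h2, h3⟩ := h
  refine ⟨_, _, hAB.comp h1, fun e => ?_, ?_⟩
  · obtain ⟨P, e1, e2, e3⟩ := (hB.and (h3.and (ev_eval_xc_ne V h2))).exists
    have := congrArg (eval (xc P)) e
    rw [eval_hg, hv_of_ne (show B.natDegree ≤ n from hAB.le 1) _ e3, ← e2, eval_zero] at this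
    exact mul_ne_zero e1 (pow_ne_zero _ e3) this
  · filter_upwards [h3, ev_eval_xc_ne V h2] with P e2 e3
    rw [eval_hg, eval_hg, hv_of_ne (show A.natDegree ≤ n from hAB.le 0) _ e3,
      hv_of_ne (show B.natDegree ≤ n from hAB.le 1) _ e3, ← e2,
      mul_div_mul_right _ _ (pow_ne_zero _ e3)]

variable [DecidableEq F]

lemma EvenDeg.comp [Infinite V'.Point] {w : V.Point → F} {n m : ℕ} (h : EvenDeg w n)
    {f : V'.Point →+ V.Point} (hf : ∀ᶠ P in cofinite, f P ≠ 0)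
    (hm : EvenDeg (fun P => xc (f P)) m) : EvenDeg (fun P => w (f P)) (n * m) := by
  obtain ⟨A, B, h1, h2, h3⟩ := h
  have ht := tendsto_of_ev_ne f hf
  refine (hm.subst h1 (ht.eventually (ev_eval_xc_ne V h2))).congr ?_
  filter_upwards [ht.eventually h3] with P e
  exact e.symm

open Classical in
/-- The degree of an additive map given by rational functions. -/
noncomputable def deg (f : V'.Point →+ V.Point) : ℕ :=
  if h : ∃ n, EvenDeg (fun P => xc (f P)) n then h.choose else 0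

variable [IsAlgClosed F]

lemma deg_eq (hV : Sep V') {f : V'.Point →+ V.Point} {n : ℕ} (h : EvenDeg (fun P => xc (f P)) n) :
    deg f = n := by
  have h' : ∃ n, EvenDeg (fun P => xc (f P)) n := ⟨n, h⟩
  rw [deg, dif_pos h']
  exact h'.choose_spec.unique hV h

lemma deg_zero (hV : Sep V') : deg (0 : V'.Point →+ V.Point) = 0 :=
  deg_eq hV (evenDeg_const 0)

lemma deg_id (hV : Sep V) : deg (AddMonoidHom.id V.Point) = 1 := deg_eq hV evenDeg_xc

lemma Alg0.evenDeg (hV : Sep V') {f : V'.Point →+ V.Point} (h : Alg0 f) :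
    EvenDeg (fun P => xc (f P)) (deg f) := by
  rcases h with rfl | h
  · rw [deg_zero hV]; exact evenDeg_const 0
  · obtain ⟨n, hn⟩ := h.hx.evenDeg hV (Eventually.of_forall fun P => by rw [map_neg, xc_neg])
    rwa [deg_eq hV hn]

lemma deg_neg (hV : Sep V') {f : V'.Point →+ V.Point} (h : Alg0 f) : deg (-f) = deg f :=
  deg_eq hV ((h.evenDeg hV).congr (Eventually.of_forall fun P => by simp [xc_neg]))

lemma IsAlg.deg_pos (hV : Sep V') {f : V'.Point →+ V.Point} (h : IsAlg ⊤ f) : 0 < deg f := by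
  have := infinite_pt hV
  refine Nat.pos_of_ne_zero fun e => ?_
  have h1 := Alg0.evenDeg hV (Or.inr h)
  rw [e] at h1
  obtain ⟨c, hc⟩ := h1.const
  obtain ⟨P, e1, e2⟩ := (hc.and (((tendsto_xc V).comp h.tendsto).eventually
    (eventually_cofinite_ne c))).exists
  exact e2 e1

lemma deg_comp (hV' : Sep V') (hV'' : Sep V'') {f : V'.Point →+ V.Point}
    {g : V''.Point →+ V'.Point} (hf : Alg0 f) (hg : Alg0 g) : deg (f.comp g) = deg f * deg g := by
  have := infinite_pt hV''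
  rcases hg with rfl | hg
  · rw [AddMonoidHom.comp_zero, deg_zero hV'', deg_zero hV'', mul_zero]
  · exact deg_eq hV'' ((hf.evenDeg hV').comp hg.ne (Alg0.evenDeg hV'' (Or.inr hg)))

omit [DecidableEq F] [IsAlgClosed F] in
lemma addSub_ne (hΔ : V.Δ ≠ 0) {s t u : F} (h : s ≠ 0 ∨ t ≠ 0 ∨ u ≠ 0) :
    s ^ 2 - V.b₄ * (s * u) - V.b₆ * (t * u) - V.b₈ * u ^ 2 ≠ 0 ∨
      2 * (t * s) + V.b₂ * (s * u) + V.b₄ * (t * u) + V.b₆ * u ^ 2 ≠ 0 ∨
        t ^ 2 - 4 * (s * u) ≠ 0 := by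
  have : V.IsElliptic := ⟨isUnit_iff_ne_zero.2 hΔ⟩
  by_contra hc
  push Not at hc
  have h0 : (![s, t, u] : Fin 3 → F) ≠ 0 := fun e => by
    have e0 := congrFun e 0
    have e1 := congrFun e 1
    have e2 := congrFun e 2
    simp at e0 e1 e2
    simp [e0, e1, e2] at h
  refine V.addSubMap_ne_zero h0 ?_
  ext i
  fin_cases i
  · simp [addSubMap]; linear_combination hc.1
  · simp [addSubMap]; linear_combination hc.2.1
  · simp [addSubMap]; linear_combination hc.2.2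

omit [DecidableEq F] [IsAlgClosed F] in
lemma prim_three {p q r : F[X]} {n : ℕ} {a b c : F}
    (h1 : ∀ x, p.eval x ≠ 0 ∨ q.eval x ≠ 0 ∨ r.eval x ≠ 0)
    (h2 : Top p n a) (h3 : Top q n b) (h4 : Top r n c) (h5 : a ≠ 0 ∨ b ≠ 0 ∨ c ≠ 0) :
    Prim ![p, q, r] n := by
  refine ⟨fun x => ?_, fun i => ?_, ?_⟩
  · rcases h1 x with h | h | h
    exacts [⟨0, h⟩, ⟨1, h⟩, ⟨2, h⟩]
  · fin_cases i
    exacts [h2.1, h3.1, h4.1]
  · rw [← h2.2, ← h3.2, ← h4.2] at h5
    rcases h5 with h | h | h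
    exacts [⟨0, h⟩, ⟨1, h⟩, ⟨2, h⟩]

omit [DecidableEq F] [IsAlgClosed F] in
lemma Prim.fin3 {p q r : F[X]} {n : ℕ} (h : Prim ![p, q, r] n) (x : F) :
    p.eval x ≠ 0 ∨ q.eval x ≠ 0 ∨ r.eval x ≠ 0 := by
  obtain ⟨i, hi⟩ := h.fin x
  fin_cases i
  exacts [Or.inl hi, Or.inr (Or.inl hi), Or.inr (Or.inr hi)]

omit [DecidableEq F] [IsAlgClosed F] in
lemma Prim.top3 {p q r : F[X]} {n : ℕ} (h : Prim ![p, q, r] n) :
    p.coeff n ≠ 0 ∨ q.coeff n ≠ 0 ∨ r.coeff n ≠ 0 := by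
  obtain ⟨i, hi⟩ := h.top
  fin_cases i
  exacts [Or.inl hi, Or.inr (Or.inl hi), Or.inr (Or.inr hi)]

omit [DecidableEq F] [IsAlgClosed F] in
lemma sym_ne {s t s' t' : F} (h : s ≠ 0 ∨ t ≠ 0) (h' : s' ≠ 0 ∨ t' ≠ 0) :
    s * s' ≠ 0 ∨ s * t' + t * s' ≠ 0 ∨ t * t' ≠ 0 := by
  by_cases hs : s = 0 <;> by_cases hs' : s' = 0 <;> by_cases ht : t = 0 <;>
    by_cases ht' : t' = 0 <;> simp_all

omit [DecidableEq F] [IsAlgClosed F] in
lemma Prim.sym {p q p' q' : F[X]} {n m : ℕ} (h : Prim ![p, q] n) (h' : Prim ![p', q'] m) :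
    Prim ![p * p', p * q' + q * p', q * q'] (n + m) := by
  have tp : Top p n _ := ⟨h.le 0, rfl⟩
  have tq : Top q n _ := ⟨h.le 1, rfl⟩
  have tp' : Top p' m _ := ⟨h'.le 0, rfl⟩
  have tq' : Top q' m _ := ⟨h'.le 1, rfl⟩
  refine prim_three (fun x => ?_) (tp.mul tp') ((tp.mul tq').add (tq.mul tp')) (tq.mul tq')
    (sym_ne h.top2 h'.top2)
  simpa only [eval_mul, eval_add] using sym_ne (h.fin2 x) (h'.fin2 x)

omit [DecidableEq F] [IsAlgClosed F] in
lemma Prim.addSub (hΔ : V.Δ ≠ 0) {s t u : F[X]} {n : ℕ} (h : Prim ![s, t, u] n) :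
    Prim ![s ^ 2 - C V.b₄ * (s * u) - C V.b₆ * (t * u) - C V.b₈ * u ^ 2,
      C 2 * (t * s) + C V.b₂ * (s * u) + C V.b₄ * (t * u) + C V.b₆ * u ^ 2,
      t ^ 2 - C 4 * (s * u)] (2 * n) := by
  have ts : Top s n _ := ⟨h.le 0, rfl⟩
  have tt : Top t n _ := ⟨h.le 1, rfl⟩
  have tu : Top u n _ := ⟨h.le 2, rfl⟩
  have su := ts.mul tu
  have tu' := tt.mul tu
  have st := tt.mul ts
  rw [← two_mul] at su tu' st
  refine prim_three (fun x => ?_)
    ((((ts.pow 2).sub (su.C_mul _)).sub (tu'.C_mul _)).sub ((tu.pow 2).C_mul _))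
    ((((st.C_mul _).add (su.C_mul _)).add (tu'.C_mul _)).add ((tu.pow 2).C_mul _))
    ((tt.pow 2).sub (su.C_mul _)) (addSub_ne hΔ h.top3)
  simpa only [eval_mul, eval_add, eval_sub, eval_pow, eval_C] using addSub_ne hΔ (h.fin3 x)

lemma isAlg_two (hV : Sep V) : IsAlg ⊤ (AddMonoidHom.id V.Point + AddMonoidHom.id V.Point) := by
  have := infinite_pt hV
  refine (isAlg_id.add (over_top _) (over_top _) isAlg_id).resolve_left fun e => ?_
  obtain ⟨P, e1, e2⟩ := ((ev_ne_zero V).and (ev_Y_ne hV)).exists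
  exact (xc_two e1 e2).1 (by simpa using DFunLike.congr_fun e P)

lemma deg_two (hΔ : V.Δ ≠ 0) : deg (AddMonoidHom.id V.Point + AddMonoidHom.id V.Point) = 4 := by
  have hV : Sep V := sep_of_c4 (Or.inr hΔ)
  have h1 : Prim ![(X : F[X]), 1] 1 :=
    prim_two (fun x => Or.inr (by simp)) (by simp) (by simp) (Or.inl (by simp))
  have h2 := (h1.sym h1).addSub hΔ
  have e3 : ((X * 1 + 1 * X) ^ 2 - C 4 * (X * X * (1 * 1)) : F[X]) = 0 := by
    rw [show (C 4 : F[X]) = 4 from rfl]; ring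
  rw [e3] at h2
  refine deg_eq hV ⟨_, _, prim_two (fun x => by simpa using h2.fin3 x) (h2.le 0) (h2.le 1)
    (by simpa using h2.top3), fun e => hV ?_, ?_⟩
  · rw [← e, Ψ₂Sq]
    simp only [Matrix.cons_val, map_mul, show (C 4 : F[X]) = 4 from rfl,
      show (C 2 : F[X]) = 2 from rfl]
    ring
  · filter_upwards [ev_ne_zero V, ev_Y_ne hV] with P e1 e2
    have e4 := (xc_two e1 e2).2
    have e5 : 4 * xc P ^ 3 + V.b₂ * xc P ^ 2 + 2 * V.b₄ * xc P + V.b₆ ≠ 0 := by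
      have := eval_Psi V (nonsing e1).1
      simp only [Ψ₂Sq, eval_add, eval_mul, eval_C, eval_pow, eval_X] at this
      rw [this]
      exact pow_ne_zero _ e2
    simp only [Matrix.cons_val, eval_add, eval_sub, eval_mul, eval_C, eval_pow, eval_X, eval_one,
      AddMonoidHom.add_apply, AddMonoidHom.id_apply]
    rw [eq_div_iff (fun e => e5 (by linear_combination e))]
    linear_combination e4

lemma deg_parallelogram (hV : Sep V') (hΔ : V.Δ ≠ 0) {f g : V'.Point →+ V.Point} (hf : Alg0 f)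
    (hg : Alg0 g) : deg (f + g) + deg (f - g) = 2 * (deg f + deg g) := by
  have := infinite_pt hV
  have hV0 : Sep V := sep_of_c4 (Or.inr hΔ)
  have two : ∀ {f : V'.Point →+ V.Point}, Alg0 f → deg (f + f) = 4 * deg f := fun {f} hf => by
    rw [← deg_two hΔ, ← deg_comp hV0 hV (Or.inr (isAlg_two hV0)) hf]
    rfl
  rcases hf with rfl | hf
  · rw [zero_add, zero_sub, deg_neg hV hg, deg_zero hV]; ring
  rcases hg with rfl | hg
  · rw [add_zero, sub_zero, deg_zero hV]; ring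
  by_cases h1 : f - g = 0
  · rw [h1, ← sub_eq_zero.1 h1, deg_zero hV, two (Or.inr hf)]; ring
  by_cases h2 : f + g = 0
  · have : g = -f := (neg_eq_of_add_eq_zero_right h2).symm
    rw [h2, this, sub_neg_eq_add, deg_zero hV, two (Or.inr hf), deg_neg hV (Or.inr hf)]; ring
  have a1 := (Alg0.sub (Or.inr hf) (Or.inr hg)).resolve_left h1
  have a2 := (Alg0.add (Or.inr hf) (Or.inr hg)).resolve_left h2
  have hx : ∀ᶠ P in cofinite, xc (f P) ≠ xc (g P) := by
    filter_upwards [hf.ne, hg.ne, a1.ne, a2.ne] with P e1 e2 e3 e4 e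
    rcases eq_or_neg_of_xc e1 e2 e with h | h
    · exact e3 (by simp [h])
    · exact e4 (by simp [h])
  obtain ⟨p1, q1, u1, v1, w1⟩ := Alg0.evenDeg hV (Or.inr hf)
  obtain ⟨p2, q2, u2, v2, w2⟩ := Alg0.evenDeg hV (Or.inr hg)
  obtain ⟨p3, q3, u3, v3, w3⟩ := Alg0.evenDeg hV (Or.inr a2)
  obtain ⟨p4, q4, u4, v4, w4⟩ := Alg0.evenDeg hV (Or.inr a1)
  have key : ∀ᶠ P in cofinite, _ :=
    (hf.ne.and (hg.ne.and hx)).mono fun P h => (sum_prod h.1 h.2.1 h.2.2).2.2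
  refine (u3.sym u4).eq_of_prop ((u1.sym u2).addSub hΔ) 2 (mul_ne_zero v3 v4) (fun e => ?_)
    fun i => ?_
  · obtain ⟨P, e1, e2, e3, e4, e5⟩ := (hx.and (w1.and (w2.and ((ev_eval_xc_ne V' v1).and
      (ev_eval_xc_ne V' v2))))).exists
    have := congrArg (eval (xc P)) e
    simp only [Matrix.cons_val, eval_sub, eval_add, eval_mul, eval_pow, eval_C, eval_zero] at this
    beta_reduce at e2 e3
    rw [e2, e3, Ne, div_eq_div_iff e4 e5, ← sub_eq_zero] at e1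
    exact pow_ne_zero 2 e1 (by linear_combination this)
  · rw [← sub_eq_zero]
    refine poly_eq_zero_of_ev_xc hV ?_
    filter_upwards [key, w1, w2, w3, w4, ev_eval_xc_ne V' v1, ev_eval_xc_ne V' v2,
      ev_eval_xc_ne V' v3, ev_eval_xc_ne V' v4] with P k e1 e2 e3 e4 n1 n2 n3 n4
    simp only [AddMonoidHom.add_apply, AddMonoidHom.sub_apply] at e3 e4
    rw [e1, e2, e3, e4] at k
    obtain ⟨k1, k2⟩ := k
    field_simp at k1 k2
    fin_cases i
    · simp only [Matrix.cons_val, Fin.zero_eta, eval_sub, eval_add, eval_mul, eval_pow, eval_C]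
      linear_combination k1
    · simp only [Matrix.cons_val, Fin.mk_one, eval_sub, eval_add, eval_mul, eval_pow, eval_C]
      linear_combination k2
    · simp only [Matrix.cons_val, Fin.reduceFinMk, eval_sub, eval_add, eval_mul, eval_pow, eval_C]
      ring

lemma deg_nsmul (hV : Sep V') (hΔ : V.Δ ≠ 0) {f : V'.Point →+ V.Point} (hf : Alg0 f) (n : ℕ) :
    deg (n • f) = n ^ 2 * deg f := by
  have := infinite_pt hV
  induction n using Nat.twoStepInduction with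
  | zero => simp [deg_zero hV]
  | one => simp
  | more n h0 h1 =>
    have := deg_parallelogram hV hΔ (hf.nsmul (n + 1)) hf
    have e1 : (n + 1) • f - f = n • f := by rw [succ_nsmul, add_sub_cancel_right]
    rw [← succ_nsmul, e1, h0, h1] at this
    have e : (n + 2) ^ 2 * deg f + n ^ 2 * deg f = 2 * ((n + 1) ^ 2 * deg f + deg f) := by ring
    exact Nat.add_right_cancel (this.trans e.symm)

lemma deg_zsmul (hV : Sep V') (hΔ : V.Δ ≠ 0) {f : V'.Point →+ V.Point} (hf : Alg0 f) (n : ℤ) :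
    (deg (n • f) : ℤ) = n ^ 2 * deg f := by
  have := infinite_pt hV
  obtain ⟨m, rfl | rfl⟩ := n.eq_nat_or_neg
  · rw [natCast_zsmul, deg_nsmul hV hΔ hf]; push_cast; ring
  · rw [neg_zsmul, natCast_zsmul, deg_neg hV (hf.nsmul m), deg_nsmul hV hΔ hf]; push_cast; ring

lemma IsAlg.zsmul (hV : Sep V') (hΔ : V.Δ ≠ 0) {f : V'.Point →+ V.Point} (hf : IsAlg ⊤ f) {n : ℤ}
    (hn : n ≠ 0) : IsAlg ⊤ (n • f) := by
  have := infinite_pt hV
  refine (Alg0.zsmul (Or.inr hf) n).resolve_left fun e => ?_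
  have h1 := deg_zsmul hV hΔ (Or.inr hf) n
  rw [e, deg_zero hV] at h1
  have h2 := hf.deg_pos hV
  have : (0 : ℤ) < n ^ 2 * deg f := by positivity
  omega

/-- An endomorphism whose square is a positive integer: the integer is a square. -/
lemma isSquare_of_sq (hΔ : V.Δ ≠ 0) {f : V.Point →+ V.Point} (hf : Alg0 f) {m : ℤ} (hm : 0 < m)
    (h : f.comp f = m • AddMonoidHom.id V.Point) : IsSquare m := by
  have hV : Sep V := sep_of_c4 (Or.inr hΔ)
  have := infinite_pt hV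
  have d1 : (deg f : ℤ) * deg f = m ^ 2 := by
    have := deg_zsmul hV hΔ (alg0_id (V := V)) m
    rw [← h, deg_comp hV hV hf hf, deg_id hV] at this
    push_cast at this
    linarith
  have d2 : (deg f : ℤ) = m := by
    have h0 : (0 : ℤ) ≤ deg f := Int.natCast_nonneg _
    nlinarith
  have d3 := deg_parallelogram hV hΔ alg0_id hf
  have d4 := deg_comp hV hV (alg0_id.add hf) (alg0_id.sub hf)
  have e : (AddMonoidHom.id V.Point + f).comp (AddMonoidHom.id V.Point - f) =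
      (1 - m) • AddMonoidHom.id V.Point := by
    ext P
    have := DFunLike.congr_fun h P
    simp only [AddMonoidHom.comp_apply, AddMonoidHom.smul_apply, AddMonoidHom.id_apply] at this
    simp only [AddMonoidHom.comp_apply, AddMonoidHom.smul_apply, AddMonoidHom.id_apply,
      AddMonoidHom.add_apply, AddMonoidHom.sub_apply, map_sub, this, sub_smul, one_smul]
    abel
  have d5 := deg_zsmul hV hΔ (alg0_id (V := V)) (1 - m)
  rw [← e, d4, deg_id hV] at d5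
  rw [deg_id hV] at d3
  zify at d3
  push_cast at d5
  rw [d2] at d3
  generalize (deg (AddMonoidHom.id V.Point + f) : ℤ) = a at d3 d5
  generalize (deg (AddMonoidHom.id V.Point - f) : ℤ) = b at d3 d5
  have e1 : (a - 1 - m) ^ 2 = 4 * m := by
    have : b = 2 * (1 + m) - a := by linarith
    rw [this] at d5
    linear_combination -d5
  have e2 : (2 : ℤ) ∣ a - 1 - m := Int.prime_two.dvd_of_dvd_pow (n := 2) ⟨2 * m, by rw [e1]; ring⟩
  obtain ⟨k, hk⟩ := e2
  rw [hk] at e1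
  exact ⟨k, by linarith⟩

end Pool.Agent.Lib.MP_02f36d_nt
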