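import Pool.Agent.Lib.MP_02f36d_nt.Rep

/-!
The invariant derivation and the multiplier of an algebraic additive map.
-/

namespace Pool.Agent.Lib.MP_02f36d_nt

open Polynomial WeierstrassCurve Filter

variable {F : Type*} [Field F] {V V' V'' : Affine F}

/-- The derivative of `x`. -/
def Yf (P : V.Point) : F := 2 * yc P + V.a₁ * xc P + V.a₃

/-- The derivative of `y`. -/
def Gf (P : V.Point) : F := 3 * xc P ^ 2 + 2 * V.a₂ * xc P + V.a₄ - V.a₁ * yc P

/-- The value of `a + b y`. -/
def NV (a b : F[X]) (P : V.Point) : F := a.eval (xc P) + b.eval (xc P) * yc P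

/-- The derivative of `a + b y`. -/
noncomputable def DN (a b : F[X]) (P : V.Point) : F :=
  (a.derivative.eval (xc P) + b.derivative.eval (xc P) * yc P) * Yf P + b.eval (xc P) * Gf P

/-- `u'` is the invariant derivative of `u`. -/
def Der (u u' : V.Point → F) : Prop :=
  ∃ a b c : F[X], c ≠ 0 ∧ ∀ᶠ P in cofinite, u P * c.eval (xc P) = NV a b P ∧
    u' P * c.eval (xc P) + u P * c.derivative.eval (xc P) * Yf P = DN a b P

lemma Der.congr {u u' w w' : V.Point → F} (h : Der u u') (e : ∀ᶠ P in cofinite, u P = w P)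
    (e' : ∀ᶠ P in cofinite, u' P = w' P) : Der w w' := by
  obtain ⟨a, b, c, h0, h⟩ := h
  exact ⟨a, b, c, h0, by filter_upwards [h, e, e'] with P h1 h2 h3; rwa [← h2, ← h3]⟩

lemma Der.congr' {u u' w' : V.Point → F} (h : Der u u') (e' : ∀ᶠ P in cofinite, u' P = w' P) :
    Der u w' := h.congr (Eventually.of_forall fun _ => rfl) e'

lemma Rep3.mul_eq {u : V.Point → F} {a b c : F[X]} (h : Rep3 u a b c) :
    ∀ᶠ P in cofinite, u P * c.eval (xc P) = NV a b P := by
  filter_upwards [h.2, ev_eval_xc_ne V h.1] with P e1 e2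
  rw [e1, div_mul_cancel₀ _ e2, NV]

lemma IsRat.exists_der {S : Subring F} {u : V.Point → F} (h : IsRat S u) : ∃ u', Der u u' := by
  obtain ⟨a, -, b, -, c, -, h⟩ := h
  refine ⟨fun P => (DN a b P - u P * c.derivative.eval (xc P) * Yf P) / c.eval (xc P), a, b, c,
    h.1, ?_⟩
  filter_upwards [h.mul_eq, ev_eval_xc_ne V h.1] with P e1 e2
  exact ⟨e1, by rw [div_mul_cancel₀ _ e2]; ring⟩

lemma Der.of_mul_eq [Infinite V.Point] {u u' : V.Point → F} (h : Der u u') {a b c : F[X]}
    (e : ∀ᶠ P in cofinite, u P * c.eval (xc P) = NV a b P) :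
    ∀ᶠ P in cofinite,
      u' P * c.eval (xc P) + u P * c.derivative.eval (xc P) * Yf P = DN a b P := by
  obtain ⟨a₁, b₁, c₁, h0, h⟩ := h
  have : ¬(a * c₁ - a₁ * c ≠ 0 ∨ b * c₁ - b₁ * c ≠ 0) := fun hh => by
    obtain ⟨P, e1, e2, e3⟩ := (e.and (h.and (ev_lin_ne V hh))).exists
    refine e3 ?_
    simp only [NV] at e1 e2
    simp only [eval_sub, eval_mul]
    linear_combination c.eval (xc P) * e2.1 - c₁.eval (xc P) * e1
  push Not at this
  have d1 := congrArg derivative this.1
  have d2 := congrArg derivative this.2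
  filter_upwards [h, e, ev_eval_xc_ne V h0] with P e1 e2 e3
  have k1 := congrArg (eval (xc P)) d1
  have k2 := congrArg (eval (xc P)) d2
  have k3 := congrArg (eval (xc P)) this.2
  simp only [derivative_sub, derivative_mul, derivative_zero, eval_sub, eval_add, eval_mul,
    eval_zero] at k1 k2 k3
  simp only [NV, DN] at e1 e2 ⊢
  refine mul_right_cancel₀ e3 ?_
  linear_combination c.eval (xc P) * e1.2 + c.derivative.eval (xc P) * Yf P * e1.1 -
    c₁.derivative.eval (xc P) * Yf P * e2 - Yf P * k1 - yc P * Yf P * k2 - Gf P * k3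

lemma Der.unique [Infinite V.Point] {u u' u'' : V.Point → F} (h : Der u u') (h' : Der u u'') :
    ∀ᶠ P in cofinite, u' P = u'' P := by
  obtain ⟨a, b, c, h0, h'⟩ := h'
  filter_upwards [h.of_mul_eq (h'.mono fun P e => e.1), h', ev_eval_xc_ne V h0] with P e1 e2 e3
  exact mul_right_cancel₀ e3 (by linear_combination e1 - e2.2)

lemma der_const (a : F) : Der (fun _ : V.Point => a) fun _ => 0 :=
  ⟨C a, 0, 1, one_ne_zero, Eventually.of_forall fun P => by simp [NV, DN]⟩

lemma der_xc : Der (xc : V.Point → F) Yf :=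
  ⟨X, 0, 1, one_ne_zero, Eventually.of_forall fun P => by simp [NV, DN]⟩

lemma Der.add {u u' w w' : V.Point → F} (h : Der u u') (h' : Der w w') :
    Der (fun P => u P + w P) fun P => u' P + w' P := by
  obtain ⟨a, b, c, h0, h⟩ := h
  obtain ⟨a₁, b₁, c₁, h1, h'⟩ := h'
  refine ⟨a * c₁ + a₁ * c, b * c₁ + b₁ * c, c * c₁, mul_ne_zero h0 h1, ?_⟩
  filter_upwards [h, h'] with P e1 e2
  simp only [NV, DN, derivative_add, derivative_mul, eval_add, eval_mul] at e1 e2 ⊢
  refine ⟨?_, ?_⟩
  · linear_combination c₁.eval (xc P) * e1.1 + c.eval (xc P) * e2.1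
  · linear_combination c₁.eval (xc P) * e1.2 + c.eval (xc P) * e2.2 +
      c₁.derivative.eval (xc P) * Yf P * e1.1 + c.derivative.eval (xc P) * Yf P * e2.1

lemma Der.mul {u u' w w' : V.Point → F} (h : Der u u') (h' : Der w w') :
    Der (fun P => u P * w P) fun P => u' P * w P + u P * w' P := by
  obtain ⟨a, b, c, h0, h⟩ := h
  obtain ⟨a₁, b₁, c₁, h1, h'⟩ := h'
  refine ⟨a * a₁ + b * b₁ * (X ^ 3 + C V.a₂ * X ^ 2 + C V.a₄ * X + C V.a₆),
    a * b₁ + a₁ * b - b * b₁ * (C V.a₁ * X + C V.a₃), c * c₁, mul_ne_zero h0 h1, ?_⟩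
  filter_upwards [h, h', ev_ne_zero V] with P e1 e2 e3
  have e := eqn e3
  have n1 : NV (a * a₁ + b * b₁ * (X ^ 3 + C V.a₂ * X ^ 2 + C V.a₄ * X + C V.a₆))
      (a * b₁ + a₁ * b - b * b₁ * (C V.a₁ * X + C V.a₃)) P = NV a b P * NV a₁ b₁ P := by
    simp only [NV, eval_add, eval_mul, eval_sub, eval_pow, eval_C, eval_X]
    linear_combination (-(b.eval (xc P) * b₁.eval (xc P))) * e
  have n2 : DN (a * a₁ + b * b₁ * (X ^ 3 + C V.a₂ * X ^ 2 + C V.a₄ * X + C V.a₆))
      (a * b₁ + a₁ * b - b * b₁ * (C V.a₁ * X + C V.a₃)) P =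
      DN a b P * NV a₁ b₁ P + NV a b P * DN a₁ b₁ P := by
    simp only [NV, DN, Yf, Gf, derivative_add, derivative_mul, derivative_sub, derivative_X_pow,
      derivative_C, derivative_X, eval_add, eval_mul, eval_sub, eval_pow, eval_C, eval_X,
      eval_zero, eval_one]
    push_cast
    linear_combination (-(b.derivative.eval (xc P) * b₁.eval (xc P) +
      b.eval (xc P) * b₁.derivative.eval (xc P)) * (2 * yc P + V.a₁ * xc P + V.a₃)) * e
  rw [n1, n2, ← e1.1, ← e1.2, ← e2.1, ← e2.2]
  simp only [derivative_mul, eval_add, eval_mul]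
  exact ⟨by ring, by ring⟩

lemma Der.const_mul {u u' : V.Point → F} (h : Der u u') (a : F) :
    Der (fun P => a * u P) fun P => a * u' P :=
  ((der_const a).mul h).congr' (Eventually.of_forall fun P => by ring)

lemma Der.sub {u u' w w' : V.Point → F} (h : Der u u') (h' : Der w w') :
    Der (fun P => u P - w P) fun P => u' P - w' P :=
  (h.add (h'.const_mul (-1))).congr (Eventually.of_forall fun P => by ring)
    (Eventually.of_forall fun P => by ring)

lemma Der.eval {u u' : V.Point → F} (h : Der u u') (p : F[X]) :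
    Der (fun P => p.eval (u P)) fun P => p.derivative.eval (u P) * u' P := by
  induction p using Polynomial.induction_on with
  | C a => simpa using der_const a
  | add p q hp hq =>
    exact (hp.add hq).congr (Eventually.of_forall fun P => by simp)
      (Eventually.of_forall fun P => by simp [add_mul])
  | monomial n a ih =>
    refine (ih.mul h).congr (Eventually.of_forall fun P => by simp [pow_succ, mul_assoc])
      (Eventually.of_forall fun P => ?_)
    rw [pow_succ, ← mul_assoc, derivative_mul (f := C a * X ^ n)]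
    simp only [eval_add, eval_mul, eval_X, derivative_X, eval_one]
    ring

lemma isRat_Yf {S : Subring F} (hV : Over S V) : IsRat S (Yf : V.Point → F) :=
  (((isRat_const (by exact_mod_cast natCast_mem S 2)).mul hV isRat_yc).add
    ((isRat_const hV.h1).mul hV isRat_xc)).add (isRat_const hV.h3)

lemma isRat_Gf {S : Subring F} (hV : Over S V) : IsRat S (Gf : V.Point → F) :=
  ((((isRat_const (by exact_mod_cast natCast_mem S 3)).mul hV (isRat_xc.pow hV 2)).add
    ((isRat_const (mul_mem (by exact_mod_cast natCast_mem S 2) hV.h2)).mul hV isRat_xc)).add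
    (isRat_const hV.h4)).sub ((isRat_const hV.h1).mul hV isRat_yc)

lemma derivative_mem_PS {S : Subring F} {p : F[X]} (h : p ∈ PS S) : p.derivative ∈ PS S := by
  obtain ⟨q, rfl⟩ := h
  exact ⟨q.derivative, by simp [derivative_map]⟩

lemma Der.isRat [Infinite V.Point] {S : Subring F} (hV : Over S V) {u u' : V.Point → F}
    (h : Der u u') (hu : IsRat S u) : IsRat S u' := by
  obtain ⟨a, ha, b, hb, c, hc, h1⟩ := id hu
  have hx := (isRat_xc (S := S) (V := V))
  refine ((((((hx.eval hV (derivative_mem_PS ha)).add ((hx.eval hV (derivative_mem_PS hb)).mul hV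
    isRat_yc)).mul hV (isRat_Yf hV)).add ((hx.eval hV hb).mul hV (isRat_Gf hV))).sub
    ((hu.mul hV (hx.eval hV (derivative_mem_PS hc))).mul hV (isRat_Yf hV))).div hV
    (hx.eval hV hc)).congr ?_
  filter_upwards [h.of_mul_eq h1.mul_eq, ev_eval_xc_ne V h1.1] with P e1 e2
  rw [div_eq_iff e2]
  simp only [DN] at e1
  linear_combination -e1

variable [DecidableEq F] [IsAlgClosed F]

/-- `α` is the multiplier of `f` on invariant differentials. -/
structure Mult (f : V'.Point →+ V.Point) (α : V'.Point → F) : Prop where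
  alg : IsAlg ⊤ f
  hx : Der (fun P => xc (f P)) fun P => α P * Yf (f P)

lemma IsAlg.ev_Yf (hV : Sep V) {S : Subring F} {f : V'.Point →+ V.Point} (h : IsAlg S f) :
    ∀ᶠ P in cofinite, Yf (f P) ≠ 0 := h.tendsto.eventually (ev_Y_ne hV)

lemma IsAlg.exists_mult (hV : Sep V) {f : V'.Point →+ V.Point} (h : IsAlg ⊤ f) :
    ∃ α, Mult f α := by
  obtain ⟨p, hp⟩ := h.hx.exists_der
  refine ⟨fun P => p P / Yf (f P), h, hp.congr' ?_⟩
  filter_upwards [h.ev_Yf hV] with P e
  rw [div_mul_cancel₀ _ e]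

lemma Mult.congr {f : V'.Point →+ V.Point} {α β : V'.Point → F} (h : Mult f α)
    (e : ∀ᶠ P in cofinite, α P = β P) : Mult f β :=
  ⟨h.alg, h.hx.congr' (e.mono fun P e => by rw [e])⟩

lemma Mult.unique (hV : Sep V) (hV' : Sep V') {f : V'.Point →+ V.Point} {α β : V'.Point → F}
    (h : Mult f α) (h' : Mult f β) : ∀ᶠ P in cofinite, α P = β P := by
  have := infinite_pt hV'
  filter_upwards [h.hx.unique h'.hx, h.alg.ev_Yf hV] with P e1 e2
  exact mul_right_cancel₀ e2 e1

lemma Mult.isRat (hV : Sep V) (hV' : Sep V') {S : Subring F} (o : Over S V) (o' : Over S V')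
    {f : V'.Point →+ V.Point} {α : V'.Point → F} (h : Mult f α) (hf : IsAlg S f) : IsRat S α := by
  have := infinite_pt hV'
  refine ((h.hx.isRat o' hf.hx).div o' ((isRat_Yf o).comp o' hf)).congr ?_
  filter_upwards [h.alg.ev_Yf hV] with P e
  rw [mul_div_cancel_right₀ _ e]

lemma Mult.hy (hV : Sep V) (hV' : Sep V') {f : V'.Point →+ V.Point} {α : V'.Point → F}
    (h : Mult f α) : Der (fun P => yc (f P)) fun P => α P * Gf (f P) := by
  have := infinite_pt hV'
  obtain ⟨q, hq⟩ := h.alg.hy.exists_der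
  have d1 := ((hq.mul hq).add ((h.hx.const_mul V.a₁).mul hq)).add (hq.const_mul V.a₃)
  have d2 := ((((h.hx.mul h.hx).mul h.hx).add ((h.hx.mul h.hx).const_mul V.a₂)).add
    (h.hx.const_mul V.a₄)).add (der_const V.a₆)
  have d3 := (d1.congr (h.alg.ne.mono fun P e => by linear_combination eqn e)
    (Eventually.of_forall fun _ => rfl)).unique d2
  refine hq.congr' ?_
  filter_upwards [d3, h.alg.ev_Yf hV] with P e1 e2
  refine mul_right_cancel₀ e2 ?_
  simp only [Gf]
  rw [show q P * Yf (f P) = q P * (2 * yc (f P) + V.a₁ * xc (f P) + V.a₃) from rfl]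
  linear_combination e1

lemma Der.comp (hV : Sep V) (hV' : Sep V') {u u' : V.Point → F} (hu : Der u u')
    {f : V'.Point →+ V.Point} {α : V'.Point → F} (h : Mult f α) :
    Der (fun P => u (f P)) fun P => α P * u' (f P) := by
  have := infinite_pt hV'
  obtain ⟨a, b, c, h0, h1⟩ := hu
  have t := h.alg.tendsto
  have hr : IsRat ⊤ u := ⟨a, mem_PS_top _, b, mem_PS_top _, c, mem_PS_top _, h0, by
    filter_upwards [h1, ev_eval_xc_ne V h0] with P e1 e2
    rw [eq_div_iff e2, e1.1, NV]⟩
  obtain ⟨w, hw⟩ := (hr.comp (over_top _) h.alg).exists_der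
  have d1 := hw.mul (h.hx.eval c)
  have d2 := (h.hx.eval a).add ((h.hx.eval b).mul (h.hy hV hV'))
  have d3 := (d1.congr ((t.eventually h1).mono fun P e => e.1)
    (Eventually.of_forall fun _ => rfl)).unique d2
  refine hw.congr' ?_
  filter_upwards [d3, t.eventually h1, t.eventually (ev_eval_xc_ne V h0)] with P e1 e2 e3
  refine mul_right_cancel₀ e3 ?_
  have e4 := e2.2
  simp only [DN] at e4
  linear_combination e1 - α P * e4

lemma Mult.comp (hV' : Sep V') (hV'' : Sep V'') {f : V'.Point →+ V.Point}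
    {g : V''.Point →+ V'.Point} {α : V'.Point → F} {β : V''.Point → F} (h : Mult f α)
    (h' : Mult g β) : Mult (f.comp g) fun P => α (g P) * β P :=
  ⟨h.alg.comp (over_top _) h'.alg, (h.hx.comp hV' hV'' h').congr'
    (Eventually.of_forall fun P => by simp only [AddMonoidHom.comp_apply]; ring)⟩

omit [IsAlgClosed F] in
lemma mult_id : Mult (AddMonoidHom.id V.Point) fun _ => 1 :=
  ⟨isAlg_id, der_xc.congr' (Eventually.of_forall fun P => by simp)⟩

omit [IsAlgClosed F] in
lemma Mult.neg {f : V'.Point →+ V.Point} {α : V'.Point → F} (h : Mult f α) :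
    Mult (-f) fun P => -α P := by
  refine ⟨h.alg.neg (over_top _) (over_top _), h.hx.congr
    (Eventually.of_forall fun P => by simp [xc_neg]) (h.alg.ne.mono fun P e => ?_)⟩
  simp only [Yf, AddMonoidHom.neg_apply, xc_neg, yc_neg e]
  ring

lemma Mult.add (hV : Sep V) (hV' : Sep V') {f g : V'.Point →+ V.Point} {α β : V'.Point → F}
    (h : Mult f α) (h' : Mult g β) (hx : ∀ᶠ P in cofinite, xc (f P) ≠ xc (g P)) :
    Mult (f + g) fun P => α P + β P := by
  have := infinite_pt hV'
  have e : ∀ᶠ P in cofinite, _ := (h.alg.ne.and (h'.alg.ne.and hx)).mono fun P hP =>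
    add_coords hP.1 hP.2.1 fun e => hP.2.2 e.1
  have ha : IsAlg ⊤ (f + g) := (h.alg.add (over_top _) (over_top _) h'.alg).resolve_left fun e0 => by
    obtain ⟨P, e1⟩ := e.exists
    exact e1.1 (DFunLike.congr_fun e0 P)
  set l : V'.Point → F := fun P => (yc (f P) - yc (g P)) / (xc (f P) - xc (g P)) with hl
  obtain ⟨l', d0⟩ := (show IsRat ⊤ l from
    (h.alg.hy.sub h'.alg.hy).div (over_top _) (h.alg.hx.sub h'.alg.hx)).exists_der
  have hl' : ∀ᶠ P in cofinite, l P * (xc (f P) - xc (g P)) = yc (f P) - yc (g P) :=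
    hx.mono fun P e => div_mul_cancel₀ _ (sub_ne_zero.2 e)
  have d1 := ((d0.mul (h.hx.sub h'.hx)).congr hl' (Eventually.of_forall fun _ => rfl)).unique
    ((h.hy hV hV').sub (h'.hy hV hV'))
  have d2 := ((((d0.mul d0).add (d0.const_mul V.a₁)).sub (der_const V.a₂)).sub h.hx).sub h'.hx
  refine ⟨ha, d2.congr ?_ ?_⟩
  · filter_upwards [e, hx] with P e1 e2
    rw [AddMonoidHom.add_apply, e1.2.1, Affine.slope_of_X_ne e2, Affine.addX]
    ring
  · filter_upwards [e, hx, d1, hl', h.alg.ne, h'.alg.ne] with P e1 e2 e3 e4 e5 e6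
    have q1 := eqn e5
    have q2 := eqn e6
    simp only [Yf, Gf] at e3
    simp only [Yf, AddMonoidHom.add_apply, e1.2.1, e1.2.2, Affine.slope_of_X_ne e2, Affine.addX,
      Affine.addY, Affine.negAddY, Affine.negY]
    rw [show (yc (f P) - yc (g P)) / (xc (f P) - xc (g P)) = l P from rfl]
    have hd := sub_ne_zero.2 e2
    generalize xc (f P) = x1 at *
    generalize xc (g P) = x2 at *
    generalize yc (f P) = y1 at *
    generalize yc (g P) = y2 at *
    generalize l P = s at *
    obtain rfl : y2 = y1 - s * (x1 - x2) := by linear_combination e4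
    have g1 : 3 * x1 ^ 2 + 2 * V.a₂ * x1 + V.a₄ - V.a₁ * y1 - s * (2 * y1 + V.a₁ * x1 + V.a₃) =
        (x1 - (s ^ 2 + V.a₁ * s - V.a₂ - x1 - x2)) * (x1 - x2) :=
      mul_left_cancel₀ hd (by linear_combination q2 - q1)
    have g3 : l' P = α P * (x1 - (s ^ 2 + V.a₁ * s - V.a₂ - x1 - x2)) +
        β P * (x2 - (s ^ 2 + V.a₁ * s - V.a₂ - x1 - x2)) :=
      mul_right_cancel₀ hd (by linear_combination e3 + (α P - β P) * g1)
    rw [g3]
    ring

lemma mult_two (hV : Sep V) :
    Mult (AddMonoidHom.id V.Point + AddMonoidHom.id V.Point) fun _ => 2 := by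
  have := infinite_pt hV
  have hy : ∀ᶠ P : V.Point in cofinite, yc P ≠ V.negY (xc P) (yc P) :=
    (ev_Y_ne hV).mono fun P h e => h (by rw [Affine.negY] at e; linear_combination e)
  have e : ∀ᶠ P : V.Point in cofinite, _ := ((ev_ne_zero V).and hy).mono fun P hP =>
    add_coords hP.1 hP.1 fun e => hP.2 e.2
  set l : V.Point → F := fun P => Gf P / Yf P with hl
  obtain ⟨l', d0⟩ := (show IsRat ⊤ l from
    (isRat_Gf (over_top _)).div (over_top _) (isRat_Yf (over_top _))).exists_der
  have hl' : ∀ᶠ P in cofinite, l P * Yf P = Gf P :=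
    (ev_Y_ne hV).mono fun P e => div_mul_cancel₀ _ e
  have dx := der_xc (V := V)
  have dy : Der (yc : V.Point → F) Gf :=
    (mult_id.hy hV hV).congr' (Eventually.of_forall fun P => by simp)
  have dY := ((dy.const_mul 2).add (dx.const_mul V.a₁)).add (der_const V.a₃)
  have dG := ((((dx.mul dx).const_mul 3).add (dx.const_mul (2 * V.a₂))).add (der_const V.a₄)).sub
    (dy.const_mul V.a₁)
  have d1 := ((d0.mul dY).congr (hl'.mono fun P e => by
    simp only [Yf, Gf] at e; linear_combination e) (Eventually.of_forall fun _ => rfl)).unique dG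
  have d2 := ((((d0.mul d0).add (d0.const_mul V.a₁)).sub (der_const V.a₂)).sub dx).sub dx
  have hs : ∀ᶠ P : V.Point in cofinite, V.slope (xc P) (xc P) (yc P) (yc P) = l P :=
    hy.mono fun P e => by
      rw [Affine.slope_of_Y_ne rfl e, hl, Affine.negY]
      simp only [Yf, Gf]
      congr 1
      ring
  refine ⟨isAlg_two hV, d2.congr ?_ ?_⟩
  · filter_upwards [e, hs] with P e1 e2
    rw [AddMonoidHom.add_apply, AddMonoidHom.id_apply, e1.2.1, e2, Affine.addX]
    ring
  · filter_upwards [e, hs, d1, hl', ev_Y_ne hV] with P e1 e2 e3 e4 e5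
    have g3 : l' P = 6 * xc P + 2 * V.a₂ - 2 * V.a₁ * l P - 2 * l P ^ 2 := by
      refine mul_right_cancel₀ e5 ?_
      rw [← e4] at e3
      simp only [Yf] at e3
      linear_combination e3
    simp only [Yf, AddMonoidHom.add_apply, AddMonoidHom.id_apply, e1.2.1, e1.2.2, e2, Affine.addX,
      Affine.addY, Affine.negAddY, Affine.negY, g3]
    ring

lemma mult_nsmul (hΔ : V.Δ ≠ 0) (n : ℕ) :
    Mult ((n + 1) • AddMonoidHom.id V.Point) fun _ => (n + 1 : ℕ) := by
  have hV : Sep V := sep_of_c4 (Or.inr hΔ)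
  induction n with
  | zero => simpa using mult_id
  | succ n ih =>
    rcases n with _ | n
    · have := mult_two hV
      rw [← two_nsmul] at this
      exact this.congr (Eventually.of_forall fun _ => by norm_num)
    · rw [succ_nsmul]
      refine (ih.add hV hV mult_id ?_).congr (Eventually.of_forall fun _ => by push_cast; ring)
      have a1 := (isAlg_id (S := ⊤)).zsmul hV hΔ (n := n + 1) (by omega)
      have a2 := (isAlg_id (S := ⊤)).zsmul hV hΔ (n := n + 3) (by omega)
      filter_upwards [ih.alg.ne, ev_ne_zero V, a1.ne, a2.ne] with P e1 e2 e3 e4 e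
      simp only [AddMonoidHom.smul_apply, AddMonoidHom.id_apply] at e1 e3 e4 e
      rcases eq_or_neg_of_xc e1 e2 e with h | h
      · refine e3 ?_
        rw [succ_nsmul, add_eq_right] at h
        exact_mod_cast h
      · refine e4 ?_
        rw [← add_eq_zero_iff_eq_neg, ← succ_nsmul] at h
        exact_mod_cast h

lemma mult_zsmul (hΔ : V.Δ ≠ 0) {n : ℤ} (hn : n ≠ 0) :
    Mult (n • AddMonoidHom.id V.Point) fun _ => (n : F) := by
  obtain ⟨m, rfl | rfl⟩ := n.eq_nat_or_neg
  · obtain ⟨k, rfl⟩ := Nat.exists_eq_succ_of_ne_zero (show m ≠ 0 by omega)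
    rw [natCast_zsmul]
    exact (mult_nsmul hΔ k).congr (Eventually.of_forall fun _ => by simp)
  · obtain ⟨k, rfl⟩ := Nat.exists_eq_succ_of_ne_zero (show m ≠ 0 by omega)
    rw [neg_zsmul, natCast_zsmul]
    exact (mult_nsmul hΔ k).neg.congr (Eventually.of_forall fun _ => by simp)

lemma Mult.zsmul (hV' : Sep V') (hΔ : V.Δ ≠ 0) {f : V'.Point →+ V.Point} {α : V'.Point → F}
    (h : Mult f α) {n : ℤ} (hn : n ≠ 0) : Mult (n • f) fun P => n * α P :=
  (mult_zsmul hΔ hn).comp (sep_of_c4 (Or.inr hΔ)) hV' h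

/-- The multiplier is constant. -/
lemma IsAlg.exists_mult_const (h2 : (2 : F) ≠ 0) (hΔ' : V'.Δ ≠ 0) (hV : Sep V)
    {f : V'.Point →+ V.Point} (h : IsAlg ⊤ f) : ∃ A, Mult f fun _ => A := by
  have hV' : Sep V' := sep_of_c4 (Or.inr hΔ')
  have := infinite_pt hV'
  obtain ⟨α, hα⟩ := h.exists_mult hV
  have e1 : ∀ᶠ P in cofinite, α (-P) = α P := by
    have m1 := hα.comp hV' hV' mult_id.neg
    rw [show f.comp (-AddMonoidHom.id V'.Point) = -f by ext; simp] at m1
    filter_upwards [m1.unique hV hV' hα.neg] with P e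
    simpa using e
  obtain ⟨n, hn⟩ := (hα.isRat hV hV' (over_top _) (over_top _) h).evenDeg hV' e1
  have e2 : ∀ᶠ P in cofinite, α ((AddMonoidHom.id V'.Point + AddMonoidHom.id V'.Point) P) = α P := by
    have m1 := hα.comp hV' hV' (mult_two hV')
    have m2 := (mult_two hV).comp hV hV' hα
    rw [show f.comp (AddMonoidHom.id V'.Point + AddMonoidHom.id V'.Point) =
      (AddMonoidHom.id V.Point + AddMonoidHom.id V.Point).comp f by ext; simp] at m1
    filter_upwards [m1.unique hV hV' m2] with P e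
    exact mul_right_cancel₀ h2 (e.trans (mul_comm _ _))
  have d := hn.comp (isAlg_two hV').ne (Alg0.evenDeg hV' (Or.inr (isAlg_two hV')))
  rw [deg_two hΔ'] at d
  have h0 : n = 0 := by have := (d.congr e2).unique hV' hn; omega
  rw [h0] at hn
  obtain ⟨A, hA⟩ := hn.const
  exact ⟨A, hα.congr hA⟩

lemma Mult.conj {F' : Type*} [Field F'] [DecidableEq F'] [IsAlgClosed F'] {j : F →+* F'}
    {U U' : Affine F'} (e : V.map j = U) (e' : V'.map j = U') (hV' : Sep V') (hU : Sep U)
    (hU' : Sep U') {R : RatMap F} {f : V'.Point →+ V.Point} {g : U'.Point →+ U.Point}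
    (hf : Rep R f) (hg : Rep (R.map j) g) {A : F} {B : F'} (hA : Mult f fun _ => A)
    (hB : Mult g fun _ => B) : B = j A := by
  have := infinite_pt hV'
  have := infinite_pt hU'
  have t := ptMap_tendsto e'
  obtain ⟨P, e1, e2, e3, e4⟩ := ((hA.hx.of_mul_eq hf.hx.mul_eq).and
    ((t.eventually (hB.hx.of_mul_eq hg.hx.mul_eq)).and ((t.eventually (hB.alg.ev_Yf hU)).and
      (t.eventually (ev_eval_xc_ne U' hg.hx.1))))).exists
  have e5 := congrArg j e1
  have hY : ∀ P, Yf (ptMap j e P) = j (Yf P) := fun P => by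
    subst e
    simp [Yf, xc_ptMap, yc_ptMap, map_ofNat]
  have hY' : ∀ P, Yf (ptMap j e' P) = j (Yf P) := fun P => by
    subst e'
    simp [Yf, xc_ptMap, yc_ptMap, map_ofNat]
  have hG' : ∀ P, Gf (ptMap j e' P) = j (Gf P) := fun P => by
    subst e'
    simp [Gf, xc_ptMap, yc_ptMap, map_ofNat]
  rw [hf.conj e' e hg] at e2 e3
  simp only [DN, RatMap.map, xc_ptMap, yc_ptMap, hY, hY', hG', derivative_map, eval_map_apply]
    at e2 e3 e4
  simp only [DN, map_add, map_mul] at e5
  exact mul_right_cancel₀ (mul_ne_zero e3 e4) (by linear_combination e2 - e5)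

end Pool.Agent.Lib.MP_02f36d_nt
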