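import Mathlib

/-!
A quadratic extension of number fields which is unramified at all finite primes:
the top field has an even number of infinite places.
-/

namespace Pool.Agent.Lib.MP_02f36d_nt

open NumberField Ideal

lemma norm_modEq {O : Type*} [CommRing O] [Module.Free ℤ O] [Module.Finite ℤ O] (n : ℕ)
    (a b : O) : ((Algebra.norm ℤ (a + n * b) : ℤ) : ZMod n) = (Algebra.norm ℤ a : ℤ) := by
  classical
  let B := Module.Free.chooseBasis ℤ O
  rw [Algebra.norm_eq_matrix_det B, Algebra.norm_eq_matrix_det B, ← eq_intCast (Int.castRingHom _),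
    ← eq_intCast (Int.castRingHom _), RingHom.map_det, RingHom.map_det, map_add, map_add, map_mul,
    map_mul, map_natCast, map_natCast]
  congr 1
  rw [← nsmul_eq_mul, ← Nat.cast_smul_eq_nsmul (ZMod n), ZMod.natCast_self, zero_smul, add_zero]

lemma isSquare_card {k : Type*} [Field k] [Finite k] (τ : k ≃+* k) (h2 : ∀ x, τ (τ x) = x)
    (h1 : ∃ x, τ x ≠ x) : IsSquare (Nat.card k) := by
  have : Fact (Nat.Prime 2) := ⟨Nat.prime_two⟩
  let g : RingAut k := τ
  have ho : orderOf g = 2 := orderOf_eq_prime (RingEquiv.ext h2) fun e => by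
    obtain ⟨x, hx⟩ := h1
    exact hx (DFunLike.congr_fun e x)
  have : Finite (RingAut k) := Finite.of_injective (fun (f : RingAut k) => (f : k → k))
    DFunLike.coe_injective
  have := Fintype.ofFinite (Subgroup.zpowers g)
  have h := FixedPoints.finrank_eq_card (Subgroup.zpowers g) k
  rw [← Nat.card_eq_fintype_card, Nat.card_zpowers, ho] at h
  rw [Module.natCard_eq_pow_finrank (K := FixedPoints.subfield (Subgroup.zpowers g) k), h]
  exact ⟨_, pow_two _⟩

section Ring

variable {O : Type*} [CommRing O] [IsDedekindDomain O] [Module.Free ℤ O] [Module.Finite ℤ O]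
  (s : O ≃+* O)

omit [Module.Finite ℤ O] in
lemma absNorm_map (I : Ideal O) : absNorm (I.map s) = absNorm I := by
  rw [absNorm_apply, absNorm_apply, Submodule.cardQuot_apply, Submodule.cardQuot_apply]
  exact Nat.card_congr (quotientEquiv I _ s rfl).symm.toEquiv

lemma isSquare_absNorm [CharZero O] (h2 : ∀ x, s (s x) = x)
    (hu : ∀ P : Ideal O, P.IsMaximal → ∃ x, s x - x ∉ P) (I : Ideal O) (h0 : I ≠ ⊥)
    (hI : I.map s = I) : IsSquare (absNorm I) := by
  have ss : ∀ J : Ideal O, (J.map s).map s = J := fun J => by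
    rw [← Ideal.map_coe s, ← Ideal.map_coe s, Ideal.map_map]
    convert Ideal.map_id J
    ext x
    exact h2 x
  induction I using WellFoundedGT.induction with
  | ind I ih =>
  by_cases ht : I = ⊤
  · simp [ht]
  obtain ⟨P, hP, hle⟩ := exists_le_maximal I ht
  have key : ∀ Q : Ideal O, Q ≤ P → Q.map s = Q → Q ∣ I → IsSquare (absNorm Q) →
      IsSquare (absNorm I) := fun Q hQ e ⟨J, hJ⟩ hsq => by
    have J0 : J ≠ ⊥ := fun e => h0 (by rw [hJ, e, mul_bot])
    have Q0 : Q ≠ ⊥ := fun e => h0 (by rw [hJ, e, bot_mul])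
    rw [hJ, map_mul]
    refine hsq.mul (ih J (lt_of_le_of_ne (hJ ▸ mul_le_right) fun e1 => hP.ne_top ?_) J0 ?_)
    · rw [eq_top_iff, ← one_eq_top, ← mul_right_cancel₀ J0 (show Q * J = 1 * J by
        rw [← hJ, e1, one_mul])]
      exact hQ
    · rw [hJ, Ideal.map_mul, e] at hI
      exact mul_left_cancel₀ Q0 hI
  by_cases e : P.map s = P
  · refine key P le_rfl e (dvd_iff_le.2 hle) ?_
    have P0 : P ≠ ⊥ := fun e => h0 (le_bot_iff.1 (e ▸ hle))
    have := Ideal.finiteQuotientOfFreeOfNeBot P P0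
    let := Ideal.Quotient.field P
    rw [absNorm_apply, Submodule.cardQuot_apply]
    refine isSquare_card (quotientEquiv P P s e.symm) (fun x => ?_) ?_
    · obtain ⟨x, rfl⟩ := Ideal.Quotient.mk_surjective x
      simp [h2]
    · obtain ⟨x, hx⟩ := hu P hP
      exact ⟨Ideal.Quotient.mk P x, fun e => hx (Ideal.Quotient.eq.1 (by simpa using e))⟩
  · have hP' : (P.map s).IsMaximal := map_isMaximal_of_equiv s
    refine key (P * P.map s) mul_le_left (by rw [Ideal.map_mul, ss, mul_comm]) ?_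
      (by rw [map_mul, absNorm_map]; exact ⟨_, rfl⟩)
    refine IsCoprime.mul_dvd (isCoprime_iff_sup_eq.2 (hP.coprime_of_ne hP' (Ne.symm e)))
      (dvd_iff_le.2 hle) (dvd_iff_le.2 ?_)
    rw [← hI]
    exact map_mono hle

omit [IsDedekindDomain O] [Module.Free ℤ O] [Module.Finite ℤ O] in
lemma exists_avoid (h2 : ∀ x, s (s x) = x) (hu : ∀ P : Ideal O, P.IsMaximal → ∃ x, s x - x ∉ P)
    (T : Finset (Ideal O)) (hT : ∀ P ∈ T, P.IsMaximal) : ∃ x, ∀ P ∈ T, s x - x ∉ P := by
  classical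
  induction T using Finset.induction_on with
  | empty => exact ⟨0, by simp⟩
  | insert P T _ ih =>
    obtain ⟨x, hx⟩ := ih fun Q hQ => hT Q (Finset.mem_insert_of_mem hQ)
    have hP := hT P (Finset.mem_insert_self _ _)
    by_cases h : s x - x ∈ P
    swap
    · exact ⟨x, by simpa [h] using hx⟩
    obtain ⟨y, hy⟩ := hu P hP
    have hP' : (P.comap s).IsMaximal := comap_isMaximal_of_surjective s s.surjective
    have key : ∀ Q ∈ T, ∃ t ∈ Q, t ∉ P ∧ s t ∉ P := fun Q hQ => by
      have hQm := hT Q (Finset.mem_insert_of_mem hQ)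
      by_contra hc
      push Not at hc
      rcases (subset_union (I := Q) (J := P) (K := P.comap s)).1 (fun t ht => by
        by_cases h : t ∈ P
        exacts [Or.inl h, Or.inr (hc t ht h)]) with h1 | h1
      · exact hx Q hQ (hQm.eq_of_le hP.ne_top h1 ▸ h)
      · refine hx Q hQ (hQm.eq_of_le hP'.ne_top h1 ▸ ?_)
        rw [mem_comap, map_sub, h2, ← neg_sub]
        exact neg_mem h
    choose! t ht using key
    have he : s (∏ Q ∈ T, t Q * s (t Q)) = ∏ Q ∈ T, t Q * s (t Q) := by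
      simp [map_prod, h2, mul_comm]
    refine ⟨x + (∏ Q ∈ T, t Q * s (t Q)) * y, fun Q hQ => ?_⟩
    rw [map_add, map_mul, he, show ∀ e : O, s x + e * s y - (x + e * y) =
      s x - x + e * (s y - y) from fun e => by ring]
    rcases Finset.mem_insert.1 hQ with rfl | hQ
    · rw [Ideal.add_mem_iff_right _ h]
      intro hm
      rcases hP.isPrime.mem_or_mem hm with h1 | h1
      · obtain ⟨R, hR, h3⟩ := (hP.isPrime.prod_mem_iff).1 h1
        exact (hP.isPrime.mem_or_mem h3).elim (ht R hR).2.1 (ht R hR).2.2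
      · exact hy h1
    · rw [Ideal.add_mem_iff_left]
      · exact hx Q hQ
      · exact mul_mem_right _ _ (Ideal.mem_of_dvd _ (Finset.dvd_prod_of_mem _ hQ)
          (mul_mem_right _ _ (ht Q hQ).1))

lemma exists_odd_norm [CharZero O] (h2 : ∀ x, s (s x) = x)
    (hu : ∀ P : Ideal O, P.IsMaximal → ∃ x, s x - x ∉ P) :
    ∃ x, Odd (Algebra.norm ℤ (s x - x)) := by
  classical
  have h0 : (span {(2 : O)} : Ideal O) ≠ 0 := by simp
  obtain ⟨x, hx⟩ := exists_avoid s h2 hu ((finite_factors h0).toFinset.image fun v => v.asIdeal)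
    (by
      intro P hP
      obtain ⟨v, -, rfl⟩ := Finset.mem_image.1 hP
      exact v.isMaximal)
  refine ⟨x, ?_⟩
  have ht : (span {s x - x, 2} : Ideal O) = ⊤ := by
    by_contra hne
    obtain ⟨P, hP, hle⟩ := exists_le_maximal _ hne
    have h2P : (2 : O) ∈ P := hle (subset_span (by simp))
    refine hx P (Finset.mem_image.2 ⟨⟨P, hP.isPrime, fun e => ?_⟩, ?_, rfl⟩)
      (hle (subset_span (by simp)))
    · rw [e] at h2P
      simp at h2P
    · simpa [dvd_iff_le] using h2P
  obtain ⟨a, b, hab⟩ := mem_span_pair.1 ((eq_top_iff_one _).1 ht)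
  have := norm_modEq 2 (a * (s x - x)) b
  rw [show a * (s x - x) + (2 : ℕ) * b = 1 by rw [← hab]; push_cast; ring, map_one, map_mul] at this
  rw [← Int.not_even_iff_odd]
  rintro ⟨c, hc⟩
  rw [hc] at this
  push_cast at this
  rw [← two_mul, show (2 : ZMod 2) = 0 from rfl] at this
  simp at this

end Ring

variable {K : Type*} [Field K] [NumberField K]

open Classical in
lemma norm_sign {x : K} (hx : x ≠ 0) : 0 < (-1) ^ (Finset.univ.filter fun φ : K →+* ℂ =>
    ComplexEmbedding.IsReal φ ∧ (φ x).re < 0).card * Algebra.norm ℚ x := by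
  have h1 : ((Algebra.norm ℚ x : ℚ) : ℂ) = ∏ φ : K →+* ℂ, φ x := by
    rw [← eq_ratCast (algebraMap ℚ ℂ), Algebra.norm_eq_prod_embeddings ℚ ℂ x]
    exact (Fintype.prod_equiv (RingHom.equivRatAlgHom K ℂ) _ _
      fun _ => by simp [RingHom.equivRatAlgHom_apply]).symm
  have n0 : ∀ φ : K →+* ℂ, ((‖φ x‖ : ℝ) : ℂ) ≠ 0 := fun φ => by simpa using hx
  have h2 : ∏ φ : K →+* ℂ, ((if ComplexEmbedding.IsReal φ ∧ (φ x).re < 0 then -1 else 1) *
      φ x / ‖φ x‖) = 1 := by
    have hr : ∀ φ : K →+* ℂ, ComplexEmbedding.IsReal φ →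
        (if ComplexEmbedding.IsReal φ ∧ (φ x).re < 0 then -1 else 1) * φ x / ‖φ x‖ = 1 := by
      intro φ hφ
      rw [div_eq_one_iff_eq (n0 φ), ← hφ.coe_embedding_apply, Complex.norm_real, Complex.ofReal_re,
        Real.norm_eq_abs]
      split_ifs with h
      · rw [abs_of_neg h.2]; simp
      · rw [abs_of_nonneg (not_lt.1 fun e => h ⟨hφ, e⟩)]; simp
    refine Finset.prod_involution (fun φ _ => ComplexEmbedding.conjugate φ) (fun φ _ => ?_)
      (fun φ _ h e => h (hr φ e)) (fun _ _ => Finset.mem_univ _) fun φ _ => star_star φ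
    by_cases hφ : ComplexEmbedding.IsReal φ
    · rw [hr φ hφ, hr _ (ComplexEmbedding.isReal_conjugate_iff.2 hφ), one_mul]
    · have := n0 φ
      simp only [ComplexEmbedding.isReal_conjugate_iff, hφ, false_and, if_false, one_mul,
        ComplexEmbedding.conjugate_coe_eq, Complex.norm_conj]
      rw [div_mul_div_comm, Complex.mul_conj', div_eq_one_iff_eq (mul_ne_zero this this), sq]
  rw [Finset.prod_div_distrib, Finset.prod_mul_distrib, ← h1, Finset.prod_ite, Finset.prod_const,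
    Finset.prod_const_one, mul_one, div_eq_one_iff_eq (Finset.prod_ne_zero_iff.2 fun φ _ => n0 φ),
    ← Complex.ofReal_prod] at h2
  have h3 : 0 < ∏ φ : K →+* ℂ, ‖φ x‖ := Finset.prod_pos fun φ _ => by simpa using hx
  have h4 : (((-1) ^ (Finset.univ.filter fun φ : K →+* ℂ => ComplexEmbedding.IsReal φ ∧
      (φ x).re < 0).card * Algebra.norm ℚ x : ℚ) : ℝ) = ∏ φ : K →+* ℂ, ‖φ x‖ := by
    exact_mod_cast h2
  rw [← h4] at h3
  exact_mod_cast h3

open Classical in
lemma nrRealPlaces_eq (σ : K ≃ₐ[ℚ] K) (h2 : ∀ x, σ (σ x) = x) {x : K} (hx : x ≠ 0)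
    (hσ : σ x = -x) : InfinitePlace.nrRealPlaces K = 2 * (Finset.univ.filter fun φ : K →+* ℂ =>
      ComplexEmbedding.IsReal φ ∧ (φ x).re < 0).card := by
  rw [← InfinitePlace.card_real_embeddings, Fintype.card_subtype,
    ← Finset.card_filter_add_card_filter_not (fun φ : K →+* ℂ => (φ x).re < 0),
    Finset.filter_filter, Finset.filter_filter, two_mul]
  congr 1
  have inv : ∀ φ : K →+* ℂ, (φ.comp (σ : K →+* K)).comp (σ : K →+* K) = φ := fun φ => by
    ext y; simp [h2]
  refine Finset.card_bij' (fun φ _ => φ.comp (σ : K →+* K)) (fun φ _ => φ.comp (σ : K →+* K))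
    (fun φ hφ => ?_) (fun φ hφ => ?_) (fun φ _ => inv φ) fun φ _ => inv φ
  · simp only [Finset.mem_filter, Finset.mem_univ, true_and, not_lt] at hφ ⊢
    refine ⟨hφ.1.comp _, ?_⟩
    have : (φ x).re ≠ 0 := by
      rw [← hφ.1.coe_embedding_apply, Complex.ofReal_re]
      exact (map_ne_zero _).2 hx
    simpa [hσ] using lt_of_le_of_ne hφ.2 this.symm
  · simp only [Finset.mem_filter, Finset.mem_univ, true_and, not_lt] at hφ ⊢
    exact ⟨hφ.1.comp _, by simpa [hσ] using hφ.2.le⟩

theorem even_card_infinitePlace (σ : K ≃ₐ[ℚ] K) (h2 : ∀ x, σ (σ x) = x)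
    (hu : ∀ P : Ideal (𝓞 K), P.IsMaximal →
      ∃ x, RingOfIntegers.mapRingEquiv σ.toRingEquiv x - x ∉ P) :
    Even (Fintype.card (InfinitePlace K)) := by
  classical
  have : Fact (Nat.Prime 2) := ⟨Nat.prime_two⟩
  set s := RingOfIntegers.mapRingEquiv σ.toRingEquiv
  have s2 : ∀ x, s (s x) = x := fun x => Subtype.ext (h2 x)
  obtain ⟨θ, hθ⟩ := exists_odd_norm s s2 hu
  have η0 : s θ - θ ≠ 0 := fun e => by simp [e] at hθ
  have hsq := isSquare_absNorm s s2 hu (span {s θ - θ}) (by simpa using η0) (by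
    rw [map_span, Set.image_singleton, map_sub, s2, ← neg_sub, span_singleton_neg])
  rw [absNorm_span_singleton] at hsq
  have η1 : ((s θ - θ : 𝓞 K) : K) = σ θ - θ := rfl
  have η2 : σ θ - θ ≠ 0 := η1 ▸ fun e => η0 (Subtype.ext e)
  have ho : orderOf σ = 2 := orderOf_eq_prime (AlgEquiv.ext h2) fun e => η2 (by simp [e])
  set F := IntermediateField.fixedField (Subgroup.zpowers σ)
  have mem : ∀ x, σ x = x → x ∈ F := fun x hx => by
    rintro ⟨_, n, rfl⟩
    exact MulAction.mem_fixedBy_zpow (show x ∈ MulAction.fixedBy K σ from hx) n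
  have hr : Module.finrank F K = 2 := by
    rw [IntermediateField.finrank_fixedField_eq_card, Nat.card_zpowers, ho]
  have gal : IsGalois F K := IsGalois.of_fixed_field K (Subgroup.zpowers σ)
  let τ : K ≃ₐ[F] K := AlgEquiv.ofRingEquiv (f := σ.toRingEquiv)
    fun x => x.2 ⟨σ, Subgroup.mem_zpowers σ⟩
  have τ1 : τ ≠ 1 := fun e => η2 (sub_eq_zero.2 (DFunLike.congr_fun e (θ : K)))
  have huniv : (Finset.univ : Finset (K ≃ₐ[F] K)) = {1, τ} :=
    (Finset.eq_univ_of_card _ (by
      rw [Finset.card_pair τ1.symm, ← Nat.card_eq_fintype_card, IsGalois.card_aut_eq_finrank,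
        hr])).symm
  have int : ∀ y : 𝓞 K, s y = y → ∃ z : 𝓞 F, algebraMap F K z = y := fun y hy =>
    ⟨⟨⟨y, mem _ (congrArg Subtype.val hy)⟩,
      (isIntegral_algebraMap_iff (algebraMap F K).injective).1 y.2⟩, rfl⟩
  obtain ⟨t, ht⟩ := int (s θ + θ) (by rw [map_add, s2, add_comm])
  obtain ⟨m, hm⟩ := int (-(s θ * θ)) (by rw [map_neg, map_mul, s2, mul_comm])
  have hN : Algebra.norm F (σ θ - θ) = -((t * t + (4 : ℕ) * m : 𝓞 F) : F) := by
    refine (algebraMap F K).injective ?_
    rw [Algebra.norm_eq_prod_automorphisms, huniv, Finset.prod_pair τ1.symm]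
    change (σ θ - θ) * σ (σ θ - θ) = algebraMap F K (-((t : F) * t + 4 * m))
    rw [map_sub, h2, map_neg, map_add, map_mul, map_mul, ht, hm, map_ofNat]
    change _ = -((σ θ + θ) * (σ θ + θ) + 4 * -(σ θ * θ))
    ring
  have hN2 : (Algebra.norm ℤ (s θ - θ) : ℚ) =
      (-1) ^ Module.finrank ℚ F * (Algebra.norm ℤ (t * t + (4 : ℕ) * m) : ℤ) := by
    rw [Algebra.coe_norm_int, Algebra.coe_norm_int, η1, ← Algebra.norm_norm (S := F), hN,
      neg_eq_neg_one_mul, map_mul, show (-1 : F) = algebraMap ℚ F (-1) by simp,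
      Algebra.norm_algebraMap]
  have h4 := norm_modEq 4 (t * t) m
  rw [map_mul] at h4
  generalize Algebra.norm ℤ (t * t + (4 : ℕ) * m) = D at hN2 h4
  have hD : 0 < D := by
    have e1 : (Algebra.norm ℤ (s θ - θ)).natAbs = D.natAbs := by
      have : Algebra.norm ℤ (s θ - θ) = (-1) ^ Module.finrank ℚ F * D := by exact_mod_cast hN2
      rw [this, Int.natAbs_mul, Int.natAbs_pow]
      simp
    have e2 : Odd D := by rwa [← Int.natAbs_odd, ← e1, Int.natAbs_odd]
    obtain ⟨r, hr⟩ := e1 ▸ hsq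
    by_contra hneg
    have e3 : D = -(r * r : ℕ) := by rw [← hr]; omega
    obtain ⟨c, hc⟩ := e2
    have e4 := congrArg (Int.cast : ℤ → ZMod 4) hc
    rw [e3] at h4 e4
    push_cast at h4 e4
    generalize ((Algebra.norm ℤ t : ℤ) : ZMod 4) = a at h4
    generalize (r : ZMod 4) = b at h4 e4
    generalize (c : ZMod 4) = d at e4
    revert a b d
    decide
  have h5 := norm_sign η2
  have h6 := nrRealPlaces_eq σ h2 η2 (by rw [map_sub, h2, neg_sub])
  have h7 := InfinitePlace.card_add_two_mul_card_eq_rank K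
  rw [← Module.finrank_mul_finrank ℚ F K, hr] at h7
  rw [← η1, ← Algebra.coe_norm_int, hN2, ← mul_assoc, ← pow_add, η1] at h5
  have h8 : Even ((Finset.univ.filter fun φ : K →+* ℂ => ComplexEmbedding.IsReal φ ∧
      (φ (σ θ - θ)).re < 0).card + Module.finrank ℚ F) := by
    by_contra hodd
    rw [(Nat.not_even_iff_odd.1 hodd).neg_one_pow] at h5
    have : (0 : ℚ) < D := by exact_mod_cast hD
    linarith
  rw [InfinitePlace.card_eq_nrRealPlaces_add_nrComplexPlaces, Nat.even_iff] at *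
  omega

end Pool.Agent.Lib.MP_02f36d_nt
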