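import Pool.Agent.Lib.MP_02f36d_nt.Sys

/-!
The twisted Galois action on the Mordell-Weil group.
-/

namespace Pool.Agent.Lib.MP_02f36d_nt

open Polynomial WeierstrassCurve Filter TensorProduct

lemma cob_finrank {G M : Type*} [Group G] [AddCommGroup M] {c : G → G → ℚ}
    (h0 : ∀ g h, c g h ≠ 0) (T : G → M →+ M)
    (hT : ∀ g h P, ((c g h).den : ℤ) • T g (T h P) = (c g h).num • T (g * h) P)
    (h1 : ∀ P, ((c 1 1).den : ℤ) • T 1 P = (c 1 1).num • P) :
    Cob ⊤ fun g h => c g h ^ Module.finrank ℤ M := by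
  rw [← (TensorProduct.isBaseChange ℤ M ℚ).finrank_eq]
  set U : G → ℚ ⊗[ℤ] M →ₗ[ℚ] ℚ ⊗[ℤ] M := fun g => (T g).toIntLinearMap.baseChange ℚ with hU
  have key : ∀ (q : ℚ) (A B : M →ₗ[ℤ] M), (q.den : ℤ) • A = q.num • B →
      LinearMap.det (A.baseChange ℚ) =
        q ^ Module.finrank ℚ (ℚ ⊗[ℤ] M) * LinearMap.det (B.baseChange ℚ) := fun q A B e => by
    have e1 := congrArg (LinearMap.baseChange ℚ) e
    rw [LinearMap.baseChange_smul, LinearMap.baseChange_smul, ← Int.cast_smul_eq_zsmul ℚ,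
      ← Int.cast_smul_eq_zsmul ℚ, ← Rat.mul_den_eq_num, mul_comm, mul_smul, Int.cast_natCast] at e1
    rw [smul_right_injective _ (Nat.cast_ne_zero.2 q.den_nz) e1, LinearMap.det_smul]
  have e1 : ∀ g h, c g h ^ Module.finrank ℚ (ℚ ⊗[ℤ] M) * LinearMap.det (U (g * h)) =
      LinearMap.det (U g) * LinearMap.det (U h) := fun g h => by
    rw [← LinearMap.det_comp, ← LinearMap.baseChange_comp]
    exact (key _ _ _ (LinearMap.ext (hT g h))).symm
  have e2 := key (c 1 1) (T 1).toIntLinearMap LinearMap.id (LinearMap.ext h1)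
  rw [LinearMap.baseChange_id, LinearMap.det_id, mul_one] at e2
  refine ⟨fun g => LinearMap.det (U g), fun g _ e => ?_, fun g _ h _ => e1 g h⟩
  have := e1 g g⁻¹
  rw [mul_inv_cancel, e2] at this
  beta_reduce at e
  rw [e, zero_mul] at this
  exact mul_ne_zero (pow_ne_zero _ (h0 _ _)) (pow_ne_zero _ (h0 _ _)) this

variable {k K L : Type*} [Field k] [Field K] [Field L] [Algebra k K] [DecidableEq L]
  [DecidableEq K] [IsAlgClosed L]
variable {ι : K →+* L} {W : WeierstrassCurve K} {c : (K ≃ₐ[k] K) → (K ≃ₐ[k] K) → ℚ}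

theorem Sys.even_finrank (S : Sys ι W c) (hΔ : W.Δ ≠ 0) (hl : Lifts k ι) (hc : ¬Cob ⊤ c) :
    Even (Module.finrank ℤ W.toAffine.Point) := by
  by_contra hodd
  rw [Nat.not_even_iff_odd] at hodd
  have hinf : Infinite W.toAffine.Point := by
    by_contra hf
    rw [not_infinite_iff_finite] at hf
    have : Module.finrank ℤ W.toAffine.Point = 0 :=
      Module.finrank_eq_zero_iff_isTorsion.2 (isAddTorsion_iff_isTorsion_int.1
        isAddTorsion_of_finite)
    rw [this] at hodd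
    exact absurd hodd (by decide)
  refine hc (cob_of_pow (S.c_ne hΔ) (S.cob_sq hΔ hl) hodd ?_)
  let u : ∀ g : K ≃ₐ[k] K, W.toAffine.Point →+ (cv ι W g).Point := fun g =>
    ptMap (ι.comp (g : K →+* K)) rfl
  have hu : ∀ {g h l : K ≃ₐ[k] K} (e : g * h = l) {s : L →+* L}
      (hs : s.comp ι = ι.comp (g : K →+* K)) (P), ptMap s (cv_map e hs) (u h P) = u l P := by
    intro g h l e s hs P
    subst e
    by_cases hP : P = 0
    · simp only [hP, map_zero]
    refine pt_ext (ptMap_ne _ (ptMap_ne _ hP)) (ptMap_ne _ hP) ?_ ?_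
    · rw [xc_ptMap, xc_ptMap, xc_ptMap]
      exact DFunLike.congr_fun hs _
    · rw [yc_ptMap, yc_ptMap, yc_ptMap]
      exact DFunLike.congr_fun hs _
  have key : ∀ g P, ∃ Q, u 1 Q = S.φ g (u g P) := fun g P => by
    obtain ⟨R, hR⟩ := (S.alg g).exists_rep
    let v : W.toAffine.Point →+ (W.map (g : K →+* K)).toAffine.Point := ptMap (g : K →+* K) rfl
    have : Infinite (W.map (g : K →+* K)).toAffine.Point :=
      Infinite.of_injective v (ptMap_injective _)
    have e : ptMap ι (V' := cv ι W g) (WeierstrassCurve.map_map _ _ _) (v P) = u g P := by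
      rcases P with _ | ⟨x, y, h⟩ <;> rfl
    rw [← e]
    exact hR.mem_range (V₂ := W.toAffine) _ rfl (v P)
  choose T hT using key
  have inj : Function.Injective (u 1) := ptMap_injective _
  refine cob_finrank (S.c_ne hΔ) (fun g => AddMonoidHom.mk' (T g) fun P Q => inj (by
    simp only [map_add, hT])) (fun g h P => inj ?_) fun P => inj ?_
  · obtain ⟨s, -, hs⟩ := hl g
    simp only [AddMonoidHom.mk'_apply, map_zsmul, hT]
    rw [← hu (mul_one g) hs, hT, ← S.sq hΔ rfl hs, hu rfl hs, S.rel]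
  · simp only [AddMonoidHom.mk'_apply, map_zsmul, hT]
    exact DFunLike.congr_fun (S.φ_one hΔ) _

end Pool.Agent.Lib.MP_02f36d_nt
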