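import Pool.Agent.Lib.MP_02f36d_nt.Loc
import Pool.Agent.Lib.MP_02f36d_nt.Rank
import Pool.Agent.Lib.MP_02f36d_nt.Inf

/-!
Global parity statements for systems of isogenies with nontrivial cocycle.
-/

namespace Pool.Agent.Lib.MP_02f36d_nt

open Polynomial WeierstrassCurve Filter NumberField IsDedekindDomain

lemma isAlgClosed_residue {L : Type*} [Field L] [IsAlgClosed L] (A : ValuationSubring L) :
    IsAlgClosed (IsLocalRing.ResidueField A) := by
  refine IsAlgClosed.of_exists_root _ fun f hf hirr => ?_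
  obtain ⟨g, hg1, hg2, hg3⟩ := lifts_and_degree_eq_and_monic
    (map_surjective (IsLocalRing.residue A) IsLocalRing.residue_surjective f) hf
  obtain ⟨x, hx⟩ := IsAlgClosed.exists_root (g.map (algebraMap A L)) (by
    rw [hg3.degree_map, hg2]
    exact (degree_pos_of_irreducible hirr).ne')
  obtain ⟨y, rfl⟩ := IsIntegrallyClosed.algebraMap_eq_of_integral (R := A) (K := L) (x := x)
    ⟨g, hg3, by rw [← eval_map]; exact hx⟩
  refine ⟨IsLocalRing.residue A y, ?_⟩
  rw [IsRoot.def, eval_map, eval₂_at_apply, map_eq_zero_iff _ (IsFractionRing.injective A L)] at hx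
  rw [← hg1, eval_map, eval₂_at_apply, hx, map_zero]

lemma exists_ext {K L : Type*} [Field K] [Field L] [Algebra K L] [Algebra.IsAlgebraic K L]
    (O : ValuationSubring K) : ∃ (A : ValuationSubring L)
      (p₀ : Place K (IsLocalRing.ResidueField A)) (p : Place L (IsLocalRing.ResidueField A)),
      p₀.A = O ∧ Ext (algebraMap K L) p₀ p := by
  obtain ⟨A, h, hl⟩ := IsLocalRing.exists_factor_valuationRing ((algebraMap K L).comp O.subtype)
  let f : O →+* A := ((algebraMap K L).comp O.subtype).codRestrict A.toSubring h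
  have u : ∀ x : A, IsLocalRing.residue A x ≠ 0 → IsUnit x := fun x hx =>
    (IsLocalRing.residue_ne_zero_iff_isUnit x).1 hx
  let p₀ : Place K (IsLocalRing.ResidueField A) :=
    ⟨O, (IsLocalRing.residue A).comp f, fun x hx => hl.map_nonunit x (u _ hx)⟩
  let p : Place L (IsLocalRing.ResidueField A) := ⟨A, IsLocalRing.residue A, u⟩
  have comp : ∀ x c, Sp p₀ x c → Sp p (algebraMap K L x) c := by
    rintro x _ ⟨hx, rfl⟩
    exact ⟨h ⟨x, hx⟩, rfl⟩
  refine ⟨A, p₀, p, rfl, comp, IsLocalRing.residue_surjective, fun c => ?_⟩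
  obtain ⟨x, rfl⟩ := IsLocalRing.residue_surjective c
  obtain ⟨g, g0, hg⟩ := Algebra.IsAlgebraic.isAlgebraic (R := K) (x : L)
  obtain ⟨γ, -, w, hw, i, w0⟩ := exists_norm (p := p₀) (fun _ : Unit => g) ⟨(), g0⟩
  refine ⟨_, w i, hw i, w0, ?_⟩
  have := ((hw i).map (j := RingHom.id _) comp).eval (x := (x : L)) ⟨x.2, rfl⟩
  rw [Polynomial.map_id, Polynomial.map_mul, eval_mul, eval_map_algebraMap (P := g), hg,
    mul_zero] at this
  exact this.unique sp_zero

lemma lifts_closure (k K : Type*) [Field k] [Field K] [Algebra k K] :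
    Lifts k (algebraMap K (AlgebraicClosure K)) := fun g =>
  ⟨(IsAlgClosure.equivOfEquiv (AlgebraicClosure K) (AlgebraicClosure K) g.toRingEquiv :
      AlgebraicClosure K ≃+* AlgebraicClosure K),
    (IsAlgClosure.equivOfEquiv (AlgebraicClosure K) (AlgebraicClosure K) g.toRingEquiv).surjective,
    RingHom.ext fun x => IsAlgClosure.equivOfEquiv_algebraMap _ _ g.toRingEquiv x⟩

section DVR

variable {K : Type*} [Field K] (O : ValuationSubring K) [IsDiscreteValuationRing O]

lemma val_lt_one_iff {x : K} (r : O) (e : algebraMap O K r = x) :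
    HeightOneSpectrum.valuation K (IsDiscreteValuationRing.maximalIdeal O) x < 1 ↔ Nu O x := by
  subst e
  refine (HeightOneSpectrum.valuation_lt_one_iff_mem _ r).trans ?_
  change r ∈ IsLocalRing.maximalIdeal O ↔ _
  rw [ValuationSubring.valuation_lt_one_iff, ← ValuationSubring.mem_nonunits_iff,
    ValuationSubring.mem_nonunits_iff_or]
  rfl

omit [IsDiscreteValuationRing O] in
lemma intg_of_isIntegral (V : WeierstrassCurve K) [V.IsIntegral O] : Intg O V :=
  ⟨integralModel_a₁_eq O V ▸ Subtype.prop _, integralModel_a₂_eq O V ▸ Subtype.prop _,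
    integralModel_a₃_eq O V ▸ Subtype.prop _, integralModel_a₄_eq O V ▸ Subtype.prop _,
    integralModel_a₆_eq O V ▸ Subtype.prop _⟩

lemma sso_of_not_additive (V : WeierstrassCurve K) [V.IsMinimal O]
    (h : ¬V.HasAdditiveReduction O) : SSO O V := by
  refine ⟨intg_of_isIntegral O V, by_contra fun hc => h ?_⟩
  push Not at hc
  exact ⟨(val_lt_one_iff O _ (integralModel_Δ_eq O V)).2 hc.2,
    (val_lt_one_iff O _ (integralModel_c₄_eq O V)).2 hc.1⟩

lemma split_iff (V : WeierstrassCurve K) [V.IsMinimal O] :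
    V.HasSplitMultiplicativeReduction O ↔ SplitO O V := by
  have h1 := val_lt_one_iff O _ (integralModel_Δ_eq O V)
  have h2 := val_lt_one_iff O _ (integralModel_c₄_eq O V)
  have h3 : HeightOneSpectrum.valuation K (IsDiscreteValuationRing.maximalIdeal O) V.c₄ ≤ 1 :=
    integralModel_c₄_eq O V ▸ HeightOneSpectrum.valuation_le_one _ _
  have nu : ∀ r : O, Nu O (algebraMap O K r) ↔ algebraMap O (IsLocalRing.ResidueField O) r = 0 :=
    fun r => ((val_lt_one_iff O r rfl).symm.trans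
      (HeightOneSpectrum.valuation_lt_one_iff_mem _ r)).trans
        (IsLocalRing.residue_eq_zero_iff r).symm
  set I := V.integralModel O
  set f := Polynomial.map (algebraMap O (IsLocalRing.ResidueField O))
    (C I.c₄ * X ^ 2 + C (I.a₁ * I.c₄) * X - C (54 * I.b₆ - 3 * I.b₂ * I.b₄ + I.a₂ * I.c₄)) with hf
  have key : ∀ a : O, Nu O (V.c₄ * a ^ 2 + V.a₁ * V.c₄ * a -
      (54 * V.b₆ - 3 * V.b₂ * V.b₄ + V.a₂ * V.c₄)) ↔
      f.eval (algebraMap O (IsLocalRing.ResidueField O) a) = 0 := fun a => by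
    rw [hf, eval_map, eval₂_at_apply, ← nu, ← integralModel_c₄_eq O V, ← integralModel_a₁_eq O V,
      ← integralModel_b₆_eq O V, ← integralModel_b₂_eq O V, ← integralModel_b₄_eq O V,
      ← integralModel_a₂_eq O V]
    simp only [eval_sub, eval_add, eval_mul, eval_C, eval_pow, eval_X, map_sub, map_add, map_mul,
      map_pow, map_ofNat, eval_ofNat]
    rfl
  have hd : ¬Nu O V.c₄ → f.degree = 2 := fun h => by
    rw [← integralModel_c₄_eq O V, nu] at h
    simp only [hf, Polynomial.map_sub, Polynomial.map_add, Polynomial.map_mul, map_C,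
      Polynomial.map_pow, map_X]
    compute_degree!
    exact (IsLocalRing.residue_ne_zero_iff_isUnit _).1 h
  refine ⟨fun h => ?_, fun ⟨_, s1, s2, a, ha, s3⟩ => ?_⟩
  · have s2 : ¬Nu O V.c₄ := fun e => (h2.2 e).ne h.multiplicativeReduction
    obtain ⟨a, ha⟩ := h.splitMultiplicativeReduction.exists_eval_eq_zero (f := f)
      (by rw [hd s2]; decide)
    obtain ⟨a, rfl⟩ := IsLocalRing.residue_surjective a
    exact ⟨intg_of_isIntegral O V, h1.1 h.badReduction, s2, a, a.2, (key a).2 ha⟩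
  · exact { badReduction := h1.2 s1
            multiplicativeReduction := le_antisymm h3 (not_lt.1 fun e => s2 (h2.1 e))
            splitMultiplicativeReduction :=
              Splits.of_degree_eq_two (hd s2) ((key ⟨a, ha⟩).1 s3) }

end DVR

variable {K : Type*} [Field K] [NumberField K]

/-- The valuation ring of a finite place. -/
noncomputable abbrev OV (v : HeightOneSpectrum (𝓞 K)) : ValuationSubring K := (v.valuation K).valuationSubring

lemma mem_OV (v : HeightOneSpectrum (𝓞 K)) (x : K) :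
    x ∈ OV v ↔ ∃ n d : 𝓞 K, d ∉ v.asIdeal ∧ x * d = n := by
  refine ⟨fun h => ?_, fun ⟨n, d, hd, e⟩ => ?_⟩
  · obtain ⟨n, d, e⟩ := v.exists_primeCompl_mul_eq_of_integer x h
    exact ⟨n, d, d.2, e⟩
  · have := congrArg (v.valuation K) e
    rw [map_mul, v.valuation_eq_one_iff_notMem.2 hd, mul_one] at this
    exact this.trans_le (v.valuation_le_one n)

lemma nu_OV (v : HeightOneSpectrum (𝓞 K)) (x : 𝓞 K) : Nu (OV v) x ↔ x ∈ v.asIdeal := by
  rw [← v.valuation_lt_one_iff_mem (K := K), Nu, Valuation.mem_valuationSubring_iff, map_inv₀]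
  by_cases h : (x : K) = 0
  · simp [h]
  · have := zero_lt_iff.2 ((_root_.map_ne_zero (v.valuation K)).2 h)
    simp only [h, false_or, not_le]
    exact one_lt_inv₀ this

lemma OV_injective : Function.Injective (OV (K := K)) := fun v w e => by
  ext x
  rw [← nu_OV, ← nu_OV, e]

lemma exists_OV_smul (g : K ≃+* K) (v : HeightOneSpectrum (𝓞 K)) :
    ∃ w, ∀ x, x ∈ OV v ↔ g x ∈ OV w := by
  refine ⟨v.comap (RingOfIntegers.mapRingEquiv g.symm)
    (RingOfIntegers.mapRingEquiv g.symm).surjective, fun x => ?_⟩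
  rw [mem_OV, mem_OV]
  refine ⟨fun ⟨n, d, hd, e⟩ => ⟨RingOfIntegers.mapRingEquiv g n, RingOfIntegers.mapRingEquiv g d,
    fun h => hd ?_, ?_⟩, fun ⟨n, d, hd, e⟩ => ⟨RingOfIntegers.mapRingEquiv g.symm n,
      RingOfIntegers.mapRingEquiv g.symm d, hd, ?_⟩⟩
  · have : RingOfIntegers.mapRingEquiv g.symm (RingOfIntegers.mapRingEquiv g d) = d :=
      Subtype.ext (g.symm_apply_apply _)
    exact this ▸ h
  · rw [RingOfIntegers.mapRingEquiv_apply, RingOfIntegers.mapRingEquiv_apply, ← map_mul, e]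
  · rw [RingOfIntegers.mapRingEquiv_apply, RingOfIntegers.mapRingEquiv_apply, ← e, map_mul,
      g.symm_apply_apply]

variable {k : Type*} [Field k] [NumberField k] [Algebra k K] [DecidableEq (AlgebraicClosure K)]
  {W : WeierstrassCurve K} {c : (K ≃ₐ[k] K) → (K ≃ₐ[k] K) → ℚ}

omit [NumberField k] [NumberField K] in
lemma Sys.split_smul (S : Sys (algebraMap K (AlgebraicClosure K)) W c) (hΔ : W.Δ ≠ 0)
    (g : K ≃ₐ[k] K) {O O' : ValuationSubring K} (hg : ∀ x, x ∈ O ↔ g x ∈ O')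
    {C C' : VariableChange K} (h : SplitO O (C • W)) (h' : SSO O' (C' • W)) : SplitO O' (C' • W) := by
  classical
  obtain ⟨A, p₀, p, rfl, E⟩ := exists_ext (L := AlgebraicClosure K) O'
  have := isAlgClosed_residue A
  have n := mul_ne_zero (Rat.num_ne_zero.2 (S.c_ne hΔ g g⁻¹)) (Rat.num_ne_zero.2 (S.c_ne hΔ 1 1))
  refine E.split (W₁ := (C • W).map (g : K →+* K))
    (by rw [map_Δ]; exact (_root_.map_ne_zero _).2 (Δ_smul_ne hΔ C)) (Δ_smul_ne hΔ C') (h.map hg) h'
    (φ := (tom _ hΔ C' (1 : K ≃ₐ[k] K)).comp ((S.φ g).comp (frm _ hΔ C g)))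
    (Φ := (tom _ hΔ C g).comp ((S.φ' g g⁻¹ 1 (mul_inv_cancel g)).comp (frm _ hΔ C' 1)))
    ((isAlg_tom hΔ C' (1 : K ≃ₐ[k] K)).comp (cv_over _)
      ((S.alg g).comp (cv_over _) (isAlg_frm hΔ C g)))
    ((isAlg_tom hΔ C g).comp (cv_over _)
      ((S.alg' g g⁻¹ 1 (mul_inv_cancel g)).comp (cv_over _) (isAlg_frm hΔ C' 1)))
    (N := ((c 1 1).den : ℤ) * (c g g⁻¹).den) n fun P => ?_
  have e := congrArg (tom _ hΔ C' (1 : K ≃ₐ[k] K)) (S.rel_one hΔ (mul_inv_cancel g) (frm _ hΔ C' 1 P))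
  rw [map_zsmul, map_zsmul, tom_frm, ← frm_tom hΔ C g (S.φ' _ _ _ _ _)] at e
  exact e

open Pointwise in
theorem Sys.even_split (S : Sys (algebraMap K (AlgebraicClosure K)) W c) (hΔ : W.Δ ≠ 0)
    (hc : ¬Cob ⊤ c) (hss : ∀ v : HeightOneSpectrum (𝓞 K), ¬(W.minimal (OV v)).HasAdditiveReduction (OV v)) :
    Even {v : HeightOneSpectrum (𝓞 K) |
      (W.minimal (OV v)).HasSplitMultiplicativeReduction (OV v)}.ncard := by
  classical
  have : FiniteDimensional k K := Module.Finite.of_restrictScalars_finite ℚ k K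
  have hl := lifts_closure k K
  by_contra hodd
  rw [Nat.not_even_iff_odd, ← Set.ncard_image_of_injective _ OV_injective] at hodd
  obtain ⟨_, ⟨v, hv, rfl⟩, hi⟩ := exists_odd_index (G := K ≃ₐ[k] K) (by
    rintro g _ ⟨v, hv, rfl⟩
    obtain ⟨w, hw⟩ := exists_OV_smul g.toRingEquiv v
    refine ⟨w, (split_iff _ (W.minimal (OV w))).2 (S.split_smul hΔ g hw
      ((split_iff _ (W.minimal (OV v))).1 hv)
      (sso_of_not_additive _ (W.minimal (OV w)) (hss w))), ?_⟩
    ext x
    rw [ValuationSubring.mem_pointwise_smul_iff_inv_smul_mem, hw]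
    simp) hodd
  obtain ⟨A, p₀, p, e, E⟩ := exists_ext (L := AlgebraicClosure K) (OV v)
  have := isAlgClosed_residue A
  have hs : SplitO p₀.A ((W.exists_isMinimal (OV v)).choose • W) := by
    rw [e]
    exact (split_iff _ (W.minimal (OV v))).1 hv
  refine hc (cob_of_pow (S.c_ne hΔ) (S.cob_sq hΔ hl) hi (cob_transfer (S.c_ne hΔ)
    (S.cocycle hΔ hl) ((S.change hΔ hl _).cob_of_split E (Δ_smul_ne hΔ _) hs fun g hg x => ?_)))
  rw [e]
  nth_rw 2 [← MulAction.mem_stabilizer_iff.1 hg]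
  exact ValuationSubring.smul_mem_pointwise_smul_iff.symm

theorem Sys.even_inf (S : Sys (algebraMap K (AlgebraicClosure K)) W c) (hΔ : W.Δ ≠ 0)
    (hc : ¬Cob ⊤ c) (hss : ∀ v : HeightOneSpectrum (𝓞 K), ¬(W.minimal (OV v)).HasAdditiveReduction (OV v)) :
    Even (Fintype.card (InfinitePlace K)) := by
  classical
  have : FiniteDimensional k K := Module.Finite.of_restrictScalars_finite ℚ k K
  have hl := lifts_closure k K
  by_contra hodd
  obtain ⟨w, -, hi⟩ := exists_odd_index (G := K ≃ₐ[k] K) (X := (Set.univ : Set (InfinitePlace K)))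
    (fun _ _ _ => trivial) (by rwa [Set.ncard_univ, Nat.card_eq_fintype_card, ← Nat.not_even_iff_odd])
  refine hc (cob_of_pow (S.c_ne hΔ) (S.cob_sq hΔ hl) hi (cob_transfer (S.c_ne hΔ)
    (S.cocycle hΔ hl) ?_))
  obtain ⟨α, α0, α1, hα⟩ := S.exists_alpha hΔ hl
  have c1 : ∀ g, c 1 g = c 1 1 := fun g => by
    have := hα 1 g
    rw [one_mul, α1] at this
    exact_mod_cast mul_right_cancel₀ (α0 g) this
  have c2 : ∀ g, c g 1 = c 1 1 := fun g => by
    have := hα g 1
    rw [mul_one, α1, map_ratCast, mul_comm] at this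
    exact_mod_cast mul_left_cancel₀ (α0 g) this
  rw [← w.mk_embedding]
  by_cases hσ : ∃ σ : K ≃ₐ[k] K, σ ≠ 1 ∧ ComplexEmbedding.IsConj w.embedding σ
  swap
  · refine ⟨fun _ => c 1 1, fun _ _ => S.c_ne hΔ _ _, fun g hg h _ => ?_⟩
    obtain rfl : g = 1 := by_contra fun e => hσ ⟨g, e,
      ((InfinitePlace.mem_stabilizer_mk_iff _ _).1 hg).resolve_left e⟩
    rw [c1]
  obtain ⟨σ, σ1, hσ⟩ := hσ
  have σ2 : σ * σ = 1 := AlgEquiv.ext fun x => ComplexEmbedding.isConj_apply_apply hσ x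
  have hm : ((c σ σ * c 1 1 : ℚ) : K) = α σ * σ (α σ) := by
    rw [← hα, σ2, α1, Rat.cast_mul]
  have hpos : 0 < c σ σ * c 1 1 := by
    have e := congrArg w.embedding hm
    rw [map_ratCast, map_mul, hσ.eq, RCLike.star_def, Complex.mul_conj] at e
    have : (0 : ℝ) < Complex.normSq (w.embedding (α σ)) :=
      Complex.normSq_pos.2 ((_root_.map_ne_zero _).2 (α0 σ))
    rw [← Complex.ofReal_ratCast, Complex.ofReal_inj] at e
    rw [← e] at this
    exact_mod_cast this
  obtain ⟨r, hr⟩ : IsSquare (c σ σ * c 1 1) := by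
    by_contra hns
    refine hodd (even_card_infinitePlace (σ.restrictScalars ℚ)
      (ComplexEmbedding.isConj_apply_apply hσ) fun P hP => by_contra fun hP' => hns ?_)
    push Not at hP'
    let v : HeightOneSpectrum (𝓞 K) := ⟨P, hP.isPrime, Ring.ne_bot_of_isMaximal_of_not_isField hP
      (RingOfIntegers.not_isField K)⟩
    obtain ⟨A, p₀, p, e, E⟩ := exists_ext (L := AlgebraicClosure K) (OV v)
    have := isAlgClosed_residue A
    have hs : SSO p₀.A ((W.exists_isMinimal (OV v)).choose • W) := by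
      rw [e]
      exact sso_of_not_additive _ (W.minimal (OV v)) (hss v)
    refine (S.change hΔ hl _).isSquare_of_inertia E (Δ_smul_ne hΔ _) hs σ2 (fun x a hx => ?_) hpos
    have int : ∀ y : 𝓞 K, ∃ b, Sp p₀ (y : K) b ∧ Sp p₀ (σ y) b ∧ (b = 0 → y ∈ P) := fun y => by
      have s1 := sp_of_mem (p := p₀) (x := (y : K)) (e ▸ v.valuation_le_one y)
      have s2 : Sp p₀ (σ y - y) 0 := sp_zero_iff.2 (e ▸ (nu_OV v _).2 (hP' y))
      exact ⟨_, s1, (s2.add s1).congr (sub_add_cancel _ _) (zero_add _),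
        fun h => (nu_OV v y).1 (e ▸ s1.nu_iff.2 h)⟩
    obtain ⟨n, d, hd, e1⟩ := (mem_OV v x).1 (e ▸ hx.mem)
    obtain ⟨b, b1, b2, -⟩ := int n
    obtain ⟨b', b1', b2', b3⟩ := int d
    have b0 : b' ≠ 0 := fun h => hd (b3 h)
    refine (b2.div b2' b0).congr ?_ ?_
    · rw [div_eq_iff (b2'.ne_zero b0), ← e1, map_mul]
    · rw [div_eq_iff b0]
      exact ((hx.mul b1').eq b1 e1).symm
  have r0 : r ≠ 0 := fun e => hpos.ne' (by rw [hr, e, mul_zero])
  have mem : ∀ g ∈ MulAction.stabilizer (K ≃ₐ[k] K) (InfinitePlace.mk w.embedding),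
      g = 1 ∨ g = σ := fun g hg => by
    have : g ∈ (MulAction.stabilizer (K ≃ₐ[k] K) (InfinitePlace.mk w.embedding) :
      Set (K ≃ₐ[k] K)) := hg
    rwa [hσ.coe_stabilizer_mk] at this
  refine ⟨fun g => if g = 1 then c 1 1 else r, fun g _ => ?_, fun g hg h hh => ?_⟩
  · beta_reduce
    split_ifs
    exacts [S.c_ne hΔ _ _, r0]
  · rcases mem g hg with rfl | rfl <;> rcases mem h hh with rfl | rfl <;>
      simp [σ1, σ2, c1, c2, hr, mul_comm]

omit [NumberField K] [NumberField k] in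
/-- The system attached to explicit data. -/
noncomputable def mkSys (W : WeierstrassCurve K) (hΔ : W.Δ ≠ 0)
    (R : (K ≃ₐ[k] K) → RatMap K)
    (φ : ∀ g : K ≃ₐ[k] K,
      ((W.map (g : K →+* K)).baseChange (AlgebraicClosure K)).toAffine.Point →+
        (W.baseChange (AlgebraicClosure K)).toAffine.Point)
    (φ' : ∀ g h : K ≃ₐ[k] K,
      ((W.map ((g * h : K ≃ₐ[k] K) : K →+* K)).baseChange (AlgebraicClosure K)).toAffine.Point →+
        ((W.map (g : K →+* K)).baseChange (AlgebraicClosure K)).toAffine.Point)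
    (hφ : ∀ g, (R g).Gives (W.map (g : K →+* K)) W (φ g))
    (hφ' : ∀ g h : K ≃ₐ[k] K, ((R h).map (g : K →+* K)).Gives
      (W.map ((g * h : K ≃ₐ[k] K) : K →+* K)) (W.map (g : K →+* K)) (φ' g h))
    (c : (K ≃ₐ[k] K) → (K ≃ₐ[k] K) → ℚ)
    (hc : ∀ g h P, (c g h).den • φ g (φ' g h P) = (c g h).num • φ (g * h) P) :
    Sys (algebraMap K (AlgebraicClosure K)) W c where
  φ g := φ g
  φ' g h l e := e ▸ φ' g h
  alg g := (hφ g).rep.isAlg
  conj g h l e T hT := by
    subst e
    obtain ⟨s, s1, s2⟩ := lifts_closure k K g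
    have := infinite_pt (cv_sep (ι := algebraMap K (AlgebraicClosure K)) hΔ h)
    have h1 := (hφ' g h).rep
    rw [RatMap.map_map, ← s2, ← RatMap.map_map] at h1 ⊢
    exact hT.of_conj s1 (cv_map rfl s2) (cv_map (mul_one g) s2)
      ((hφ h).rep.conj (cv_map rfl s2) (cv_map (mul_one g) s2) h1)
  rel g h l e P := by
    subst e
    rw [natCast_zsmul]
    exact hc g h P

omit [NumberField K] [NumberField k] [DecidableEq (AlgebraicClosure K)] in
lemma not_cob {G : Type*} [Group G] {c : G → G → ℚ}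
    (h : ¬∃ l : G → ℚˣ, ∀ g h, c g h = l g * l h / l (g * h)) : ¬Cob ⊤ c := by
  rintro ⟨l, l0, hl⟩
  refine h ⟨fun g => Units.mk0 (l g) (l0 g trivial), fun g h => ?_⟩
  simp only [Units.val_mk0]
  rw [eq_div_iff (l0 _ trivial), hl g trivial h trivial]

end Pool.Agent.Lib.MP_02f36d_nt
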