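import Pool.Agent.Lib.MP_02f36d_nt.Diff
import Pool.Agent.Lib.MP_02f36d_nt.Coh

/-!
Systems of isogenies from the Galois conjugates of an elliptic curve, and their cocycle.
-/

namespace Pool.Agent.Lib.MP_02f36d_nt

open Polynomial WeierstrassCurve Filter

section General

variable {F F' : Type*} [Field F] [Field F'] [DecidableEq F] [DecidableEq F']

omit [DecidableEq F] [DecidableEq F'] in
lemma Prim.map {j : F →+* F'} (hj : Function.Surjective j) {p q : F[X]} {n : ℕ}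
    (h : Prim ![p, q] n) : Prim ![p.map j, q.map j] n := by
  refine prim_two (fun x => ?_) (natDegree_map_le.trans (h.le 0)) (natDegree_map_le.trans (h.le 1))
    (by simpa [coeff_map] using h.top2)
  obtain ⟨x, rfl⟩ := hj x
  simpa [eval_map_apply] using h.fin2 x

lemma deg_conj [IsAlgClosed F] [IsAlgClosed F'] {j : F →+* F'} (hj : Function.Surjective j)
    {V₁ V₂ : Affine F} {V₁' V₂' : Affine F'} (e₁ : V₁.map j = V₁') (e₂ : V₂.map j = V₂')
    (h₁ : Sep V₁) (h₁' : Sep V₁') {φ : V₁.Point →+ V₂.Point} {ψ : V₁'.Point →+ V₂'.Point}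
    (hφ : Alg0 φ) (h : ∀ P, ψ (ptMap j e₁ P) = ptMap j e₂ (φ P)) : deg ψ = deg φ := by
  obtain ⟨p, q, h1, h2, h3⟩ := hφ.evenDeg h₁
  refine deg_eq h₁' ⟨_, _, h1.map hj, (Polynomial.map_ne_zero_iff j.injective).2 h2,
    ev_of_ev_surj (ptMap_surjective e₁ hj) (h3.mono fun P e => ?_)⟩
  beta_reduce at e ⊢
  rw [h, xc_ptMap, xc_ptMap, e, eval_map_apply, eval_map_apply, map_div₀]

lemma mult_ne_zero_aux {V V' : Affine F} [IsAlgClosed F] (hV : Sep V) (hV' : Sep V')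
    {f : V'.Point →+ V.Point} {A B : F} (h : Mult f fun _ => A) (h' : Mult f fun _ => B) :
    A = B := by
  have := infinite_pt hV'
  exact (h.unique hV hV' h').exists.elim fun _ e => e

end General

variable {k K L : Type*} [Field k] [Field K] [Field L] [Algebra k K] [DecidableEq L]

/-- The conjugate curve over `L`. -/
abbrev cv (ι : K →+* L) (W : WeierstrassCurve K) (g : K ≃ₐ[k] K) : Affine L :=
  W.map (ι.comp (g : K →+* K))

/-- Lifts of automorphisms exist. -/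
def Lifts (k : Type*) {K L : Type*} [Field k] [Field K] [Field L] [Algebra k K] (ι : K →+* L) :
    Prop :=
  ∀ g : K ≃ₐ[k] K, ∃ s : L →+* L, Function.Surjective s ∧ s.comp ι = ι.comp (g : K →+* K)

/-- A system of isogenies with cocycle `c`. -/
structure Sys (ι : K →+* L) (W : WeierstrassCurve K) (c : (K ≃ₐ[k] K) → (K ≃ₐ[k] K) → ℚ) where
  φ : ∀ g : K ≃ₐ[k] K, (cv ι W g).Point →+ (cv ι W (1 : K ≃ₐ[k] K)).Point
  φ' : ∀ g h l : K ≃ₐ[k] K, g * h = l → (cv ι W l).Point →+ (cv ι W g).Point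
  alg : ∀ g, IsAlg ι.range (φ g)
  conj : ∀ (g h l : K ≃ₐ[k] K) (e : g * h = l) (R : RatMap K), Rep (R.map ι) (φ h) →
    Rep ((R.map (g : K →+* K)).map ι) (φ' g h l e)
  rel : ∀ g h l e P, ((c g h).den : ℤ) • φ g (φ' g h l e P) = (c g h).num • φ l P

variable {ι : K →+* L} {W : WeierstrassCurve K} {c : (K ≃ₐ[k] K) → (K ≃ₐ[k] K) → ℚ}

omit [DecidableEq L] in
lemma cv_Δ (hΔ : W.Δ ≠ 0) (g : K ≃ₐ[k] K) : (cv ι W g).Δ ≠ 0 := by
  rw [map_Δ]
  exact (_root_.map_ne_zero _).2 hΔ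

omit [DecidableEq L] in
lemma cv_sep (hΔ : W.Δ ≠ 0) (g : K ≃ₐ[k] K) : Sep (cv ι W g) := sep_of_c4 (Or.inr (cv_Δ hΔ g))

omit [DecidableEq L] in
lemma cv_over (g : K ≃ₐ[k] K) : Over ι.range (cv ι W g) :=
  ⟨⟨_, rfl⟩, ⟨_, rfl⟩, ⟨_, rfl⟩, ⟨_, rfl⟩, ⟨_, rfl⟩⟩

omit [DecidableEq L] in
lemma cv_map {g h l : K ≃ₐ[k] K} (e : g * h = l) {s : L →+* L}
    (hs : s.comp ι = ι.comp (g : K →+* K)) : (cv ι W h).map s = cv ι W l := by
  subst e
  change (W.map _).map s = W.map _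
  rw [WeierstrassCurve.map_map, ← RingHom.comp_assoc, hs]
  rfl

namespace Sys

variable (S : Sys ι W c)

lemma alg' (g h l : K ≃ₐ[k] K) (e : g * h = l) : IsAlg ι.range (S.φ' g h l e) := by
  obtain ⟨R, hR⟩ := (S.alg h).exists_rep
  exact (S.conj g h l e R hR).isAlg

lemma rel' (g h l : K ≃ₐ[k] K) (e : g * h = l) :
    ((c g h).den : ℤ) • (S.φ g).comp (S.φ' g h l e) = (c g h).num • S.φ l := by
  ext P
  exact S.rel g h l e P

variable [IsAlgClosed L]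

lemma sq (hΔ : W.Δ ≠ 0) {g h l : K ≃ₐ[k] K} (e : g * h = l) {s : L →+* L}
    (hs : s.comp ι = ι.comp (g : K →+* K)) (P : (cv ι W h).Point) :
    S.φ' g h l e (ptMap s (cv_map e hs) P) = ptMap s (cv_map (mul_one g) hs) (S.φ h P) := by
  have := infinite_pt (cv_sep (ι := ι) hΔ h)
  obtain ⟨R, hR⟩ := (S.alg h).exists_rep
  refine hR.conj _ _ ?_ P
  rw [RatMap.map_map, hs, ← RatMap.map_map]
  exact S.conj g h l e R hR

include S in
lemma c_ne (hΔ : W.Δ ≠ 0) (g h : K ≃ₐ[k] K) : c g h ≠ 0 := fun e => by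
  have := infinite_pt (cv_sep (ι := ι) hΔ (g * h))
  have h1 := S.rel' g h _ rfl
  rw [e, Rat.num_zero, zero_zsmul, Rat.den_zero, Nat.cast_one, one_smul] at h1
  exact ((S.alg g).top.comp (over_top _) (S.alg' g h _ rfl).top).ne_zero h1

lemma φ'_one (hΔ : W.Δ ≠ 0) (h : K ≃ₐ[k] K) : S.φ' 1 h h (one_mul h) = S.φ h := by
  have := infinite_pt (cv_sep (ι := ι) hΔ h)
  obtain ⟨R, hR⟩ := (S.alg h).exists_rep
  have h1 := S.conj 1 h h (one_mul h) R hR
  rw [RatMap.map_map] at h1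
  exact h1.unique hR

lemma φ_one (hΔ : W.Δ ≠ 0) :
    ((c 1 1).den : ℤ) • S.φ 1 = (c 1 1).num • AddMonoidHom.id _ := by
  have := infinite_pt (cv_sep (ι := ι) hΔ (1 : K ≃ₐ[k] K))
  have h1 := S.rel' 1 1 1 (one_mul 1)
  rw [S.φ'_one hΔ] at h1
  have a : Alg0 (S.φ 1) := Or.inr (S.alg 1).top
  rw [← sub_eq_zero]
  refine Alg0.eq_zero_of_comp (S.alg 1).top ((a.zsmul _).sub (alg0_id.zsmul _)) ?_
  ext P
  have := DFunLike.congr_fun h1 P
  simp only [AddMonoidHom.smul_apply, AddMonoidHom.comp_apply] at this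
  simp only [AddMonoidHom.comp_apply, AddMonoidHom.sub_apply, AddMonoidHom.smul_apply,
    AddMonoidHom.id_apply, map_sub, map_zsmul, this, sub_self, AddMonoidHom.zero_apply]

lemma rel_one (hΔ : W.Δ ≠ 0) {g h : K ≃ₐ[k] K} (e : g * h = 1) (P) :
    (((c 1 1).den : ℤ) * (c g h).den) • S.φ g (S.φ' g h 1 e P) =
      ((c g h).num * (c 1 1).num) • P := by
  have := DFunLike.congr_fun (S.φ_one hΔ) P
  simp only [AddMonoidHom.smul_apply, AddMonoidHom.id_apply] at this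
  rw [mul_smul, S.rel, smul_comm, this, mul_smul]

include S in
lemma cob_sq (hΔ : W.Δ ≠ 0) (hl : Lifts k ι) : Cob ⊤ fun g h => c g h ^ 2 := by
  refine ⟨fun g => deg (S.φ g), fun g _ => ?_, fun g _ h _ => ?_⟩
  · exact Nat.cast_ne_zero.2 ((S.alg g).top.deg_pos (cv_sep hΔ g)).ne'
  · obtain ⟨s, s1, s2⟩ := hl g
    have a : ∀ g, Alg0 (S.φ g) := fun g => Or.inr (S.alg g).top
    have a' : Alg0 (S.φ' g h _ rfl) := Or.inr (S.alg' g h _ rfl).top
    have d1 := deg_zsmul (cv_sep hΔ _) (cv_Δ hΔ _) ((a g).comp a') (c g h).den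
    rw [S.rel', deg_zsmul (cv_sep hΔ _) (cv_Δ hΔ _) (a _),
      deg_comp (cv_sep hΔ _) (cv_sep hΔ _) (a g) a',
      deg_conj s1 _ _ (cv_sep hΔ _) (cv_sep hΔ _) (a h) (S.sq hΔ rfl s2)] at d1
    have d2 : ((c g h).num : ℚ) ^ 2 * deg (S.φ (g * h)) =
      ((c g h).den : ℚ) ^ 2 * (deg (S.φ g) * deg (S.φ h)) := by exact_mod_cast d1
    rw [← Rat.mul_den_eq_num] at d2
    refine mul_left_cancel₀ (pow_ne_zero 2 (Nat.cast_ne_zero.2 (c g h).den_nz)) ?_
    linear_combination d2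

include S in
lemma exists_alpha [CharZero K] (hΔ : W.Δ ≠ 0) (hl : Lifts k ι) :
    ∃ α : (K ≃ₐ[k] K) → K, (∀ g, α g ≠ 0) ∧ α 1 = c 1 1 ∧
      ∀ g h, (c g h : K) * α (g * h) = α g * g (α h) := by
  have : CharZero L := (RingHom.charZero_iff ι.injective).1 ‹_›
  have key : ∀ g, ∃ a : K, Mult (S.φ g) fun _ => ι a := fun g => by
    have := infinite_pt (cv_sep (ι := ι) hΔ g)
    obtain ⟨A, hA⟩ := (S.alg g).top.exists_mult_const two_ne_zero (cv_Δ hΔ g) (cv_sep hΔ _)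
    obtain ⟨a, rfl⟩ := (hA.isRat (cv_sep hΔ _) (cv_sep hΔ _) (cv_over _) (cv_over _)
      (S.alg g)).const_mem (by rintro _ ⟨x, rfl⟩; exact ⟨x⁻¹, map_inv₀ _ _⟩)
      (Eventually.of_forall fun _ => rfl)
    exact ⟨a, hA⟩
  choose α hα using key
  have h1 : α 1 = c 1 1 := by
    have m1 := (hα 1).zsmul (cv_sep hΔ _) (cv_Δ hΔ _) (n := (c 1 1).den)
      (Nat.cast_ne_zero.2 (c 1 1).den_nz)
    rw [S.φ_one hΔ] at m1
    have := mult_ne_zero_aux (cv_sep hΔ _) (cv_sep hΔ _) m1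
      (mult_zsmul (cv_Δ hΔ _) (Rat.num_ne_zero.2 (S.c_ne hΔ 1 1)))
    refine ι.injective ?_
    rw [map_ratCast, Rat.cast_def, eq_div_iff (Nat.cast_ne_zero.2 (c 1 1).den_nz), ← this]
    push_cast
    ring
  have h2 : ∀ g h, (c g h : K) * α (g * h) = α g * g (α h) := fun g h => by
    obtain ⟨s, s1, s2⟩ := hl g
    obtain ⟨B, hB⟩ := (S.alg' g h _ rfl).top.exists_mult_const two_ne_zero (cv_Δ hΔ _) (cv_sep hΔ _)
    obtain ⟨R, hR⟩ := (S.alg h).exists_rep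
    have hR' := S.conj g h _ rfl R hR
    rw [RatMap.map_map, ← s2, ← RatMap.map_map] at hR'
    have e1 := Mult.conj (cv_map (mul_one g) s2) (cv_map rfl s2) (cv_sep hΔ _) (cv_sep hΔ _)
      (cv_sep hΔ _) hR hR' (hα h) hB
    have m1 := ((hα g).comp (cv_sep hΔ _) (cv_sep hΔ _) hB).zsmul (cv_sep hΔ _) (cv_Δ hΔ _)
      (n := (c g h).den) (Nat.cast_ne_zero.2 (c g h).den_nz)
    rw [S.rel'] at m1
    have := mult_ne_zero_aux (cv_sep hΔ _) (cv_sep hΔ _) m1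
      ((hα (g * h)).zsmul (cv_sep hΔ _) (cv_Δ hΔ _) (Rat.num_ne_zero.2 (S.c_ne hΔ g h)))
    rw [e1, show s (ι (α h)) = ι (g (α h)) from DFunLike.congr_fun s2 (α h)] at this
    refine ι.injective ?_
    rw [map_mul, map_mul, map_ratCast, Rat.cast_def, div_mul_eq_mul_div,
      div_eq_iff (Nat.cast_ne_zero.2 (c g h).den_nz), ← this]
    push_cast
    ring
  refine ⟨α, fun g e => ?_, h1, h2⟩
  have := h2 g g⁻¹
  rw [e, zero_mul, mul_inv_cancel, h1, ← Rat.cast_mul, Rat.cast_eq_zero] at this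
  exact mul_ne_zero (S.c_ne hΔ _ _) (S.c_ne hΔ _ _) this

include S in
lemma cocycle [CharZero K] (hΔ : W.Δ ≠ 0) (hl : Lifts k ι) (g h l : K ≃ₐ[k] K) :
    c g h * c (g * h) l = c h l * c g (h * l) := by
  obtain ⟨α, h0, -, h2⟩ := S.exists_alpha hΔ hl
  have e1 := congrArg g (h2 h l)
  have e2 := h2 (g * h) l
  have e3 := h2 g (h * l)
  rw [map_mul, map_mul, map_ratCast] at e1
  rw [← mul_assoc] at e3
  rw [AlgEquiv.mul_apply] at e2
  refine Rat.cast_injective (α := K) (mul_right_cancel₀ (h0 (g * h * l)) ?_)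
  push_cast
  linear_combination (c g h : K) * e2 - (c h l : K) * e3 + g (h (α l)) * h2 g h - α g * e1

end Sys

omit [DecidableEq L] in
lemma cv_vc (C : VariableChange K) (g : K ≃ₐ[k] K) :
    C.map (ι.comp (g : K →+* K)) • cv ι W g = cv ι (C • W) g := map_variableChange _ _ _

omit [DecidableEq L] in
lemma cv_vc' (C : VariableChange K) (g : K ≃ₐ[k] K) :
    (C.map (ι.comp (g : K →+* K)))⁻¹ • cv ι (C • W) g = cv ι W g := by
  rw [← cv_vc, inv_smul_smul]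

lemma Δ_smul_ne (hΔ : W.Δ ≠ 0) (C : VariableChange K) : (C • W).Δ ≠ 0 := by
  rw [variableChange_Δ]
  exact mul_ne_zero (pow_ne_zero _ (Units.ne_zero _)) hΔ

variable [IsAlgClosed L]

/-- The isomorphism from the changed model. -/
noncomputable def frm (ι : K →+* L) (hΔ : W.Δ ≠ 0) (C : VariableChange K) (g : K ≃ₐ[k] K) :
    (cv ι (C • W) g).Point →+ (cv ι W g).Point :=
  have := infinite_pt (cv_sep (ι := ι) (Δ_smul_ne hΔ C) g)
  vcMap (cv_vc C g)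

/-- The isomorphism to the changed model. -/
noncomputable def tom (ι : K →+* L) (hΔ : W.Δ ≠ 0) (C : VariableChange K) (g : K ≃ₐ[k] K) :
    (cv ι W g).Point →+ (cv ι (C • W) g).Point :=
  have := infinite_pt (cv_sep (ι := ι) hΔ g)
  vcMap (cv_vc' C g)

lemma frm_tom (hΔ : W.Δ ≠ 0) (C : VariableChange K) (g : K ≃ₐ[k] K) (P) :
    frm ι hΔ C g (tom ι hΔ C g P) = P :=
  have := infinite_pt (cv_sep (ι := ι) (Δ_smul_ne hΔ C) g)
  have := infinite_pt (cv_sep (ι := ι) hΔ g)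
  vcMap_inv _ _ P

lemma tom_frm (hΔ : W.Δ ≠ 0) (C : VariableChange K) (g : K ≃ₐ[k] K) (P) :
    tom ι hΔ C g (frm ι hΔ C g P) = P := by
  have := infinite_pt (cv_sep (ι := ι) (Δ_smul_ne hΔ C) g)
  refine (injective_iff_map_eq_zero (frm ι hΔ C g)).2 (fun Q hQ => ?_) (frm_tom hΔ C g _)
  by_contra h0
  exact (vcMap_spec (cv_vc C g) h0).1 hQ

lemma isAlg_frm (hΔ : W.Δ ≠ 0) (C : VariableChange K) (g : K ≃ₐ[k] K) :
    IsAlg ι.range (frm ι hΔ C g) :=
  have := infinite_pt (cv_sep (ι := ι) (Δ_smul_ne hΔ C) g)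
  isAlg_vcMap (cv_over _) _ ⟨_, rfl⟩ ⟨_, rfl⟩ ⟨_, rfl⟩ ⟨_, rfl⟩

lemma isAlg_tom (hΔ : W.Δ ≠ 0) (C : VariableChange K) (g : K ≃ₐ[k] K) :
    IsAlg ι.range (tom ι hΔ C g) := by
  have := infinite_pt (cv_sep (ι := ι) hΔ g)
  have e : (C.map (ι.comp (g : K →+* K)))⁻¹ = C⁻¹.map (ι.comp (g : K →+* K)) :=
    (map_inv (VariableChange.mapHom _) C).symm
  refine isAlg_vcMap (cv_over _) _ ?_ ?_ ?_ ?_ <;> rw [e] <;> exact ⟨_, rfl⟩

omit [DecidableEq L] [IsAlgClosed L] in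
lemma vc_map_map (C : VariableChange K) {g h l : K ≃ₐ[k] K} (e : g * h = l) {s : L →+* L}
    (hs : s.comp ι = ι.comp (g : K →+* K)) :
    (C.map (ι.comp (h : K →+* K))).map s = C.map (ι.comp (l : K →+* K)) := by
  subst e
  rw [VariableChange.map_map, ← RingHom.comp_assoc, hs]
  rfl

lemma sq_frm (hΔ : W.Δ ≠ 0) (C : VariableChange K) {g h l : K ≃ₐ[k] K} (e : g * h = l)
    {s : L →+* L} (hs : s.comp ι = ι.comp (g : K →+* K)) (P) :
    ptMap s (cv_map e hs) (frm ι hΔ C h P) = frm ι hΔ C l (ptMap s (cv_map e hs) P) := by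
  have := infinite_pt (cv_sep (ι := ι) (Δ_smul_ne hΔ C) h)
  have := infinite_pt (cv_sep (ι := ι) (Δ_smul_ne hΔ C) l)
  have h1 := cv_vc (ι := ι) (W := W) C l
  rw [← vc_map_map C e hs] at h1
  rw [frm, ptMap_vcMap _ h1 _ (cv_map e hs), frm]
  congr 2
  exact vc_map_map C e hs

lemma sq_tom (hΔ : W.Δ ≠ 0) (C : VariableChange K) {g h l : K ≃ₐ[k] K} (e : g * h = l)
    {s : L →+* L} (hs : s.comp ι = ι.comp (g : K →+* K)) (P) :
    ptMap s (cv_map e hs) (tom ι hΔ C h P) = tom ι hΔ C l (ptMap s (cv_map e hs) P) := by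
  rw [← tom_frm hΔ C l (ptMap s _ (tom ι hΔ C h P)), ← sq_frm hΔ C e hs, frm_tom]

/-- Change of model. -/
noncomputable def Sys.change (S : Sys ι W c) (hΔ : W.Δ ≠ 0) (hl : Lifts k ι)
    (C : VariableChange K) : Sys ι (C • W) c where
  φ g := (tom ι hΔ C 1).comp ((S.φ g).comp (frm ι hΔ C g))
  φ' g h l e := (tom ι hΔ C g).comp ((S.φ' g h l e).comp (frm ι hΔ C l))
  alg g := (isAlg_tom hΔ C 1).comp (cv_over _) ((S.alg g).comp (cv_over _) (isAlg_frm hΔ C g))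
  conj g h l e R hR := by
    obtain ⟨s, s1, s2⟩ := hl g
    rw [RatMap.map_map, ← s2, ← RatMap.map_map]
    refine hR.of_conj s1 (cv_map e s2) (cv_map (mul_one g) s2) fun P => ?_
    simp only [AddMonoidHom.comp_apply]
    rw [sq_tom hΔ C (mul_one g) s2, ← S.sq hΔ e s2, sq_frm hΔ C e s2]
  rel g h l e P := by
    simp only [AddMonoidHom.comp_apply, frm_tom]
    rw [← map_zsmul, S.rel, map_zsmul]

end Pool.Agent.Lib.MP_02f36d_nt
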