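import Pool.Agent.Lib.MP_02f36d_nt.Node
import Pool.Agent.Lib.MP_02f36d_nt.Sys

/-!
Local analysis of systems of isogenies at a place of semistable reduction.
-/

namespace Pool.Agent.Lib.MP_02f36d_nt

open Polynomial WeierstrassCurve Filter

variable {K L Γ : Type*} [Field K] [Field L] [Field Γ]

/-- `p` extends `p₀`, has surjective residue map, and the residue extension is algebraic. -/
structure Ext (ι : K →+* L) (p₀ : Place K Γ) (p : Place L Γ) : Prop where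
  comp : ∀ x c, Sp p₀ x c → Sp p (ι x) c
  surj : Function.Surjective p.ρ
  alg : ∀ c : Γ, ∃ f w, SpP p₀ f w ∧ w ≠ 0 ∧ w.eval c = 0

variable {ι : K →+* L} {p₀ : Place K Γ} {p : Place L Γ}

/-- `x` lies in the maximal ideal. -/
def Nu (O : ValuationSubring K) (x : K) : Prop := x = 0 ∨ x⁻¹ ∉ O

lemma sp_zero_iff {x : K} : Sp p₀ x 0 ↔ Nu p₀.A x := by
  refine ⟨fun h => ?_, fun h => ?_⟩
  · by_cases h0 : x = 0
    · exact Or.inl h0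
    · exact Or.inr (by simpa using sp_one.div_notMem one_ne_zero h h0)
  · rcases h with rfl | h
    · exact sp_zero
    · simpa using sp_inv_of_notMem h

lemma Sp.nu_iff {x : K} {c : Γ} (h : Sp p₀ x c) : Nu p₀.A x ↔ c = 0 :=
  ⟨fun e => h.unique (sp_zero_iff.2 e), fun e => sp_zero_iff.1 (e ▸ h)⟩

/-- Integral coefficients. -/
structure Intg (O : ValuationSubring K) (V : WeierstrassCurve K) : Prop where
  h1 : V.a₁ ∈ O
  h2 : V.a₂ ∈ O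
  h3 : V.a₃ ∈ O
  h4 : V.a₄ ∈ O
  h6 : V.a₆ ∈ O

/-- A semistable model. -/
def SSO (O : ValuationSubring K) (V : WeierstrassCurve K) : Prop :=
  Intg O V ∧ (¬Nu O V.c₄ ∨ ¬Nu O V.Δ)

/-- A split multiplicative model. -/
def SplitO (O : ValuationSubring K) (V : WeierstrassCurve K) : Prop :=
  Intg O V ∧ Nu O V.Δ ∧ ¬Nu O V.c₄ ∧ ∃ a ∈ O,
    Nu O (V.c₄ * a ^ 2 + V.a₁ * V.c₄ * a - (54 * V.b₆ - 3 * V.b₂ * V.b₄ + V.a₂ * V.c₄))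

lemma Nu.map_iff {O O' : ValuationSubring K} {g : K →+* K} (hg : ∀ x, x ∈ O ↔ g x ∈ O') {x : K} :
    Nu O' (g x) ↔ Nu O x := by
  simp only [Nu, map_eq_zero, ← map_inv₀, ← hg]

lemma SplitO.map {O O' : ValuationSubring K} {g : K →+* K} (hg : ∀ x, x ∈ O ↔ g x ∈ O')
    {V : WeierstrassCurve K} (h : SplitO O V) : SplitO O' (V.map g) := by
  obtain ⟨h1, h2, h3, a, ha, h4⟩ := h
  refine ⟨⟨(hg _).1 h1.h1, (hg _).1 h1.h2, (hg _).1 h1.h3, (hg _).1 h1.h4, (hg _).1 h1.h6⟩,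
    by rwa [map_Δ, Nu.map_iff hg], by rwa [map_c₄, Nu.map_iff hg], g a, (hg _).1 ha, ?_⟩
  rw [← Nu.map_iff hg] at h4
  simpa [map_ofNat] using h4

lemma Intg.spW {V : WeierstrassCurve K} (h : Intg p₀.A V) : ∃ U, SpW p₀ V U :=
  ⟨⟨_, _, _, _, _⟩, sp_of_mem h.h1, sp_of_mem h.h2, sp_of_mem h.h3, sp_of_mem h.h4, sp_of_mem h.h6⟩

lemma SpW.b₈ {V : Affine K} {U : Affine Γ} (h : SpW p₀ V U) : Sp p₀ V.b₈ U.b₈ :=
  (((((h.h1.pow 2).mul h.h6).add (((sp_ofNat 4).mul h.h2).mul h.h6)).sub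
    ((h.h1.mul h.h3).mul h.h4)).add (h.h2.mul (h.h3.pow 2))).sub (h.h4.pow 2)

lemma SpW.c₄ {V : Affine K} {U : Affine Γ} (h : SpW p₀ V U) : Sp p₀ V.c₄ U.c₄ :=
  (h.b₂.pow 2).sub ((sp_ofNat 24).mul h.b₄)

lemma SpW.Δ {V : Affine K} {U : Affine Γ} (h : SpW p₀ V U) : Sp p₀ V.Δ U.Δ :=
  ((((h.b₂.pow 2).neg.mul h.b₈).sub ((sp_ofNat 8).mul (h.b₄.pow 3))).sub
    ((sp_ofNat 27).mul (h.b₆.pow 2))).add ((((sp_ofNat 9).mul h.b₂).mul h.b₄).mul h.b₆)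

lemma SpW.ss {V : Affine K} {U : Affine Γ} (h : SpW p₀ V U) (h' : SSO p₀.A V) :
    U.c₄ ≠ 0 ∨ U.Δ ≠ 0 := by
  rw [Ne, Ne, ← h.c₄.nu_iff, ← h.Δ.nu_iff]
  exact h'.2

lemma SpW.over {V : Affine K} {U : Affine Γ} (h : SpW p₀ V U) : Over p₀.ρ.range U :=
  ⟨⟨_, h.h1.2⟩, ⟨_, h.h2.2⟩, ⟨_, h.h3.2⟩, ⟨_, h.h4.2⟩, ⟨_, h.h6.2⟩⟩

lemma sp_of_range {c : Γ} (h : c ∈ p₀.ρ.range) : ∃ x, Sp p₀ x c := by
  obtain ⟨x, rfl⟩ := h
  exact ⟨x, x.2, rfl⟩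

lemma range_inv (p₀ : Place K Γ) : ∀ c ∈ p₀.ρ.range, c⁻¹ ∈ p₀.ρ.range := fun c hc => by
  by_cases h : c = 0
  · simp [h]
  · obtain ⟨x, hx⟩ := sp_of_range hc
    exact ⟨_, (hx.inv h).2⟩

lemma Over.b {S : Subring Γ} {U : Affine Γ} (o : Over S U) :
    U.b₂ ∈ S ∧ U.b₄ ∈ S ∧ U.b₆ ∈ S ∧ U.c₄ ∈ S := by
  have n : ∀ n : ℕ, (n : Γ) ∈ S := fun n => natCast_mem S n
  have h2 : U.b₂ ∈ S := add_mem (pow_mem o.h1 2) (mul_mem (n 4) o.h2)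
  have h4 : U.b₄ ∈ S := add_mem (mul_mem (n 2) o.h4) (mul_mem o.h1 o.h3)
  exact ⟨h2, h4, add_mem (pow_mem o.h3 2) (mul_mem (n 4) o.h6),
    sub_mem (pow_mem h2 2) (mul_mem (n 24) h4)⟩

lemma Node.x_eq {U : Affine Γ} {x₀ y₀ α β : Γ} (h : Node U x₀ y₀ α β) :
    x₀ * U.c₄ = 18 * U.b₆ - U.b₂ * U.b₄ := by
  simp only [WeierstrassCurve.c₄, b₂, b₄, b₆, h.h1, h.h2, h.h3, h.h4, h.h6]
  ring

lemma Node.c₄_ne {U : Affine Γ} {x₀ y₀ α β : Γ} (h : Node U x₀ y₀ α β) : U.c₄ ≠ 0 := by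
  rw [h.c₄]; exact pow_ne_zero _ (sub_ne_zero.2 h.ne)

lemma Node.x_mem {U : Affine Γ} {x₀ y₀ α β : Γ} (h : Node U x₀ y₀ α β) {S : Subring Γ}
    (hS : ∀ x ∈ S, x⁻¹ ∈ S) (o : Over S U) : x₀ ∈ S := by
  rw [eq_div_of_mul_eq h.c₄_ne h.x_eq, div_eq_mul_inv]
  exact mul_mem (sub_mem (mul_mem (natCast_mem S 18) o.b.2.2.1) (mul_mem o.b.1 o.b.2.1))
    (hS _ o.b.2.2.2)

lemma Node.map {Γ' : Type*} [Field Γ'] {U : Affine Γ} {x₀ y₀ α β : Γ} (h : Node U x₀ y₀ α β)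
    (j : Γ →+* Γ') : Node (U.map j) (j x₀) (j y₀) (j α) (j β) :=
  ⟨fun e => h.ne (j.injective e), by simp [h.h1], by simp [h.h2, map_ofNat],
    by simp [h.h3, map_ofNat], by simp [h.h4, map_ofNat], by simp [h.h6]⟩

lemma exists_node_of_root [IsAlgClosed Γ] {U : Affine Γ} (hΔ : U.Δ = 0) (hc : U.c₄ ≠ 0) {α : Γ}
    (h : U.c₄ * α ^ 2 + U.a₁ * U.c₄ * α - (54 * U.b₆ - 3 * U.b₂ * U.b₄ + U.a₂ * U.c₄) = 0) :
    ∃ x₀ y₀, Node U x₀ y₀ α (-U.a₁ - α) := by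
  have hx := div_mul_cancel₀ (18 * U.b₆ - U.b₂ * U.b₄) hc
  obtain ⟨y, hy⟩ := exists_node (α := α) (β := -U.a₁ - α) hΔ hc hx (by ring)
    (mul_left_cancel₀ hc (by linear_combination -h + 3 * hx))
  exact ⟨_, y, hy⟩

lemma exists_node' [IsAlgClosed Γ] {U : Affine Γ} (hΔ : U.Δ = 0) (hc : U.c₄ ≠ 0) :
    ∃ x₀ y₀ α, Node U x₀ y₀ α (-U.a₁ - α) := by
  obtain ⟨α, hα⟩ := IsAlgClosed.exists_root (C U.c₄ * X ^ 2 + C (U.a₁ * U.c₄) * X -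
      C (54 * U.b₆ - 3 * U.b₂ * U.b₄ + U.a₂ * U.c₄) : Γ[X]) (by
    have : (C U.c₄ * X ^ 2 + C (U.a₁ * U.c₄) * X -
        C (54 * U.b₆ - 3 * U.b₂ * U.b₄ + U.a₂ * U.c₄) : Γ[X]).degree = 2 := by
      compute_degree!
    rw [this]; decide)
  simp only [IsRoot.def, eval_sub, eval_add, eval_pow, eval_X, eval_mul, eval_C] at hα
  obtain ⟨x, y, h⟩ := exists_node_of_root hΔ hc hα
  exact ⟨x, y, α, h⟩

lemma SplitO.node [IsAlgClosed Γ] {V : Affine K} {U : Affine Γ} (h : SpW p₀ V U)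
    (h' : SplitO p₀.A V) : ∃ x₀ y₀ α, Node U x₀ y₀ α (-U.a₁ - α) ∧ α ∈ p₀.ρ.range := by
  obtain ⟨-, h2, h3, a, ha, h4⟩ := h'
  have s := sp_of_mem ha
  obtain ⟨x, y, hn⟩ := exists_node_of_root (h.Δ.nu_iff.1 h2) (fun e => h3 (h.c₄.nu_iff.2 e))
    ((((h.c₄.mul (s.pow 2)).add ((h.h1.mul h.c₄).mul s)).sub (((((sp_ofNat 54).mul h.b₆).sub
      (((sp_ofNat 3).mul h.b₂).mul h.b₄))).add (h.h2.mul h.c₄))).nu_iff.1 h4)
  exact ⟨x, y, _, hn, _, rfl⟩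

lemma SpP.map {K' Γ' : Type*} [Field K'] [Field Γ'] {q : Place K' Γ'} {g : K →+* K'}
    {j : Γ →+* Γ'} (hg : ∀ x c, Sp p₀ x c → Sp q (g x) (j c)) {f : K[X]} {w : Γ[X]}
    (h : SpP p₀ f w) : SpP q (f.map g) (w.map j) :=
  spP_of_coeff fun n => by
    rw [coeff_map, coeff_map]
    exact hg _ _ (h.coeff n)

lemma SpR.map {K' Γ' : Type*} [Field K'] [Field Γ'] {q : Place K' Γ'} {g : K →+* K'}
    {j : Γ →+* Γ'} (hg : ∀ x c, Sp p₀ x c → Sp q (g x) (j c)) {R : RatMap K} {T : RatMap Γ}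
    (h : SpR p₀ R T) : SpR q (R.map g) (T.map j) :=
  ⟨h.ha.map hg, h.hb.map hg, h.hc.map hg, h.hd.map hg, h.he.map hg, h.hf.map hg,
    by simpa [RatMap.map] using h.n1, by simpa [RatMap.map] using h.n2⟩

lemma SpW.map {K' Γ' : Type*} [Field K'] [Field Γ'] {q : Place K' Γ'} {g : K →+* K'}
    {j : Γ →+* Γ'} (hg : ∀ x c, Sp p₀ x c → Sp q (g x) (j c)) {V : Affine K} {U : Affine Γ}
    (h : SpW p₀ V U) : SpW q (V.map g) (U.map j) :=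
  ⟨hg _ _ h.h1, hg _ _ h.h2, hg _ _ h.h3, hg _ _ h.h4, hg _ _ h.h6⟩

lemma RatMap.map_id (T : RatMap Γ) : T.map (RingHom.id Γ) = T := by
  simp [RatMap.map]

lemma SpP.mem_PS {f : K[X]} {w : Γ[X]} (h : SpP p₀ f w) : w ∈ PS p₀.ρ.range := by
  obtain ⟨r, -, rfl⟩ := h
  exact ⟨r.map p₀.ρ.rangeRestrict, by rw [coe_mapRingHom, Polynomial.map_map]; rfl⟩

lemma Ext.exists_conj [IsAlgClosed Γ] (E : Ext ι p₀ p) (g : K →+* K)
    (hg : ∀ x, x ∈ p₀.A ↔ g x ∈ p₀.A) : ∃ j : Γ →+* Γ, ∀ x c, Sp p₀ x c → Sp p₀ (g x) (j c) := by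
  let g' : p₀.A →+* p₀.A := (g.comp p₀.A.subtype).codRestrict p₀.A.toSubring fun x => (hg _).1 x.2
  have l1 : IsLocalHom p₀.ρ := ⟨fun a h => p₀.loc a h.ne_zero⟩
  have l2 : IsLocalHom (p₀.ρ.comp g') := ⟨fun a h => by
    by_contra hu
    have h1 : Nu p₀.A a := (sp_of_mem a.2).nu_iff.2 (by_contra fun e => hu (p₀.loc a e))
    exact h.ne_zero ((sp_of_mem ((hg _).1 a.2)).nu_iff.1 ((Nu.map_iff hg).2 h1))⟩
  let i₁ := IsLocalRing.ResidueField.lift p₀.ρ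
  let i₂ := IsLocalRing.ResidueField.lift (p₀.ρ.comp g')
  have alg : @Algebra.IsAlgebraic _ Γ _ _ i₁.toAlgebra := by
    let _ := i₁.toAlgebra
    refine ⟨fun c => ?_⟩
    obtain ⟨f, w, ⟨r, -, rfl⟩, h0, h1⟩ := E.alg c
    have e : (r.map (IsLocalRing.residue p₀.A)).map (algebraMap _ Γ) = r.map p₀.ρ := by
      rw [Polynomial.map_map]
      congr 1
    refine ⟨r.map (IsLocalRing.residue p₀.A), fun e0 => h0 (by rw [← e, e0, Polynomial.map_zero]),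
      ?_⟩
    rw [← eval_map_algebraMap, e, h1]
  let j := @IsAlgClosed.lift Γ _ _ (IsLocalRing.ResidueField p₀.A) _ _ Γ _ _ i₁.toAlgebra
    i₂.toAlgebra (by let _ := i₁.toAlgebra; infer_instance)
    (by let _ := i₂.toAlgebra; infer_instance) alg
  refine ⟨@AlgHom.toRingHom _ _ _ _ _ _ i₁.toAlgebra i₂.toAlgebra j, ?_⟩
  rintro x _ ⟨hx, rfl⟩
  exact ⟨(hg _).1 hx, (@AlgHom.commutes _ _ _ _ _ _ i₁.toAlgebra i₂.toAlgebra j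
    (IsLocalRing.residue p₀.A ⟨x, hx⟩)).symm⟩

variable [DecidableEq L] [DecidableEq Γ]

omit [DecidableEq Γ] in
lemma IsAlg.exists_spR (p₀ : Place K Γ) {V₁ V₂ : Affine L} {φ : V₁.Point →+ V₂.Point}
    (h : IsAlg ι.range φ) : ∃ R T, Rep (R.map ι) φ ∧ SpR p₀ R T := by
  obtain ⟨R, hR⟩ := h.exists_rep
  have c0 : R.c ≠ 0 := fun e => hR.hx.1 (by simp [RatMap.map, e])
  have f0 : R.f ≠ 0 := fun e => hR.hy.1 (by simp [RatMap.map, e])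
  obtain ⟨γ, γ0, w, hw, hw0⟩ := exists_norm (p := p₀) ![R.a, R.b, R.c] ⟨2, c0⟩
  obtain ⟨δ, δ0, z, hz, hz0⟩ := exists_norm (p := p₀) ![R.d, R.e, R.f] ⟨2, f0⟩
  have key : ∀ {u : V₁.Point → L} {a b c : K[X]} {γ : K}, γ ≠ 0 →
      Rep3 u (a.map ι) (b.map ι) (c.map ι) →
      Rep3 u ((C γ * a).map ι) ((C γ * b).map ι) ((C γ * c).map ι) := fun {u a b c γ} h0 h => by
    have h1 : ι γ ≠ 0 := (_root_.map_ne_zero ι).2 h0
    simp only [Polynomial.map_mul, map_C]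
    refine ⟨mul_ne_zero (C_ne_zero.2 h1) h.1, h.2.mono fun P e => ?_⟩
    simp only [e, eval_mul, eval_C]
    rw [mul_assoc, ← mul_add, mul_div_mul_left _ _ h1]
  refine ⟨⟨C γ * R.a, C γ * R.b, C γ * R.c, C δ * R.d, C δ * R.e, C δ * R.f⟩,
    ⟨w 0, w 1, w 2, z 0, z 1, z 2⟩, ⟨hR.ne, key γ0 hR.hx, key δ0 hR.hy⟩,
    hw 0, hw 1, hw 2, hz 0, hz 1, hz 2, ?_, ?_⟩
  · simpa [Fin.exists_fin_succ] using hw0
  · simpa [Fin.exists_fin_succ] using hz0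

omit [DecidableEq L] in
lemma SpR.isAlg {R : RatMap K} {T : RatMap Γ} (h : SpR p₀ R T) {U₁ U₂ : Affine Γ}
    {ψ : U₁.Point →+ U₂.Point} (hψ : Rep T ψ) : IsAlg p₀.ρ.range ψ :=
  ⟨hψ.ne, ⟨_, h.ha.mem_PS, _, h.hb.mem_PS, _, h.hc.mem_PS, hψ.hx⟩,
    ⟨_, h.hd.mem_PS, _, h.he.mem_PS, _, h.hf.mem_PS, hψ.hy⟩⟩

omit [DecidableEq L] in
lemma tt_ptMap {Γ' : Type*} [Field Γ'] [DecidableEq Γ'] {j : Γ →+* Γ'} {U : Affine Γ}
    {U' : Affine Γ'} (e : U.map j = U') (x₀ y₀ α β : Γ) (P : U.Point) :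
    tt (j x₀) (j y₀) (j α) (j β) (ptMap j e P) = j (tt x₀ y₀ α β P) := by
  by_cases hP : P = 0
  · rw [hP, map_zero, tt_zero, tt_zero, map_one]
  · rw [tt_of_ne hP, tt_of_ne (ptMap_ne e hP), xc_ptMap, yc_ptMap]
    simp

variable [IsAlgClosed L] [IsAlgClosed Γ]

omit [DecidableEq L] [IsAlgClosed L] in
lemma zsmul_id_ne {U : Affine Γ} (h : U.c₄ ≠ 0 ∨ U.Δ ≠ 0) {n : ℤ} (hn : n ≠ 0) :
    n • AddMonoidHom.id U.Point ≠ 0 := by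
  have := infinite_pt (sep_of_c4 h)
  by_cases hΔ : U.Δ = 0
  · obtain ⟨x, y, α, hn'⟩ := exists_node' hΔ (h.resolve_right (not_not.2 hΔ))
    exact hn'.zsmul_ne hn
  · exact ((isAlg_id (S := ⊤)).zsmul (sep_of_c4 h) hΔ hn).ne_zero

/-- A semistable model over `L` with its reduction. -/
structure Mod (p : Place L Γ) (V : Affine L) (U : Affine Γ) : Prop where
  hΔ : V.Δ ≠ 0
  sp : SpW p V U
  ss : U.c₄ ≠ 0 ∨ U.Δ ≠ 0

/-- `ψ` is the reduction of `φ`. -/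
def Desc (p : Place L Γ) {V₁ V₂ : Affine L} {U₁ U₂ : Affine Γ} (φ : V₁.Point →+ V₂.Point)
    (ψ : U₁.Point →+ U₂.Point) : Prop := ∀ P a, Red p P a → Red p (φ P) (ψ a)

variable {V₁ V₂ V₃ : Affine L} {U₁ U₂ U₃ : Affine Γ}

lemma Red.zsmul (hs : Function.Surjective p.ρ) (m : Mod p V₁ U₁) {P : V₁.Point} {a : U₁.Point}
    (r : Red p P a) (n : ℤ) : Red p (n • P) (n • a) := by
  induction n using Int.induction_on with
  | zero => simpa using red_zero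
  | succ n ih =>
    rw [add_zsmul, add_zsmul, one_zsmul, one_zsmul]
    exact ih.add hs m.hΔ (sep_of_c4 m.ss) m.sp r
  | pred n ih =>
    rw [sub_zsmul, sub_zsmul, one_zsmul, one_zsmul]
    exact ih.add hs m.hΔ (sep_of_c4 m.ss) m.sp (r.neg m.sp)

lemma Desc.rel (hs : Function.Surjective p.ρ) (m₁ : Mod p V₁ U₁) (m₃ : Mod p V₃ U₃)
    {φ : V₂.Point →+ V₃.Point} {φ' : V₁.Point →+ V₂.Point} {φ'' : V₁.Point →+ V₃.Point}
    {ψ : U₂.Point →+ U₃.Point} {ψ' : U₁.Point →+ U₂.Point} {ψ'' : U₁.Point →+ U₃.Point}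
    (d : Desc p φ ψ) (d' : Desc p φ' ψ') (d'' : Desc p φ'' ψ'') {N M : ℤ}
    (h : ∀ P, N • φ (φ' P) = M • φ'' P) (a : U₁.Point) : N • ψ (ψ' a) = M • ψ'' a := by
  obtain ⟨P, hP⟩ := exists_lift hs m₁.hΔ m₁.sp a
  have := (d _ _ (d' _ _ hP)).zsmul hs m₃ N
  rw [h] at this
  exact this.unique ((d'' _ _ hP).zsmul hs m₃ M)

lemma Ext.exists_desc (E : Ext ι p₀ p) (m₁ : Mod p V₁ U₁) (m₂ : Mod p V₂ U₂)
    {φ : V₁.Point →+ V₂.Point} {R : RatMap K} {T : RatMap Γ} (hR : Rep (R.map ι) φ)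
    (hT : SpR p₀ R T) : ∃ ψ : U₁.Point →+ U₂.Point, Desc p φ ψ ∧ (ψ = 0 ∨ Rep T ψ) :=
  exists_red E.surj m₁.hΔ m₂.hΔ (sep_of_c4 m₁.ss) m₂.ss m₁.sp m₂.sp hR
    (T.map_id ▸ hT.map (j := RingHom.id Γ) E.comp)

lemma Ext.exists_desc_ne (E : Ext ι p₀ p) (m₁ : Mod p V₁ U₁) (m₂ : Mod p V₂ U₂)
    {φ : V₁.Point →+ V₂.Point} {R : RatMap K} {T : RatMap Γ} (hR : Rep (R.map ι) φ)
    (hT : SpR p₀ R T) {Φ : V₂.Point →+ V₁.Point} (hΦ : IsAlg ι.range Φ) {N M : ℤ} (hM : M ≠ 0)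
    (h : ∀ P, N • φ (Φ P) = M • P) : ∃ ψ : U₁.Point →+ U₂.Point, Desc p φ ψ ∧ Rep T ψ := by
  obtain ⟨ψ, d, hψ⟩ := E.exists_desc m₁ m₂ hR hT
  obtain ⟨R', T', hR', hT'⟩ := hΦ.exists_spR p₀
  obtain ⟨Ψ, d', -⟩ := E.exists_desc m₂ m₁ hR' hT'
  refine ⟨ψ, d, hψ.resolve_left fun e => zsmul_id_ne m₂.ss hM ?_⟩
  ext a
  have := d.rel E.surj m₂ m₂ d' (φ'' := AddMonoidHom.id _) (ψ'' := AddMonoidHom.id _)
    (fun _ _ h => h) h a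
  rw [e] at this
  simpa using this.symm

omit [DecidableEq L] [DecidableEq Γ] [IsAlgClosed L] [IsAlgClosed Γ] in
lemma Ext.mod (E : Ext ι p₀ p) {V : Affine K} {U : Affine Γ} (hΔ : V.Δ ≠ 0) (h : SpW p₀ V U)
    (ss : U.c₄ ≠ 0 ∨ U.Δ ≠ 0) : Mod p (V.map ι) U :=
  ⟨by rw [map_Δ]; exact (_root_.map_ne_zero _).2 hΔ,
    ⟨E.comp _ _ h.h1, E.comp _ _ h.h2, E.comp _ _ h.h3, E.comp _ _ h.h4, E.comp _ _ h.h6⟩, ss⟩

/-- Split multiplicative reduction is an isogeny invariant among semistable models. -/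
theorem Ext.split (E : Ext ι p₀ p) {W₁ W₂ : WeierstrassCurve K} (h₁ : W₁.Δ ≠ 0) (h₂ : W₂.Δ ≠ 0)
    (s₁ : SplitO p₀.A W₁) (s₂ : SSO p₀.A W₂)
    {φ : (W₁.map ι).toAffine.Point →+ (W₂.map ι).toAffine.Point}
    {Φ : (W₂.map ι).toAffine.Point →+ (W₁.map ι).toAffine.Point} (hφ : IsAlg ι.range φ)
    (hΦ : IsAlg ι.range Φ) {N M : ℤ} (hM : M ≠ 0) (h : ∀ P, N • φ (Φ P) = M • P) :
    SplitO p₀.A W₂ := by
  obtain ⟨U₁, u₁⟩ := s₁.1.spW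
  obtain ⟨U₂, u₂⟩ := s₂.1.spW
  obtain ⟨x, y, α, n₁, hα⟩ := s₁.node u₁
  obtain ⟨R, T, hR, hT⟩ := hφ.exists_spR p₀
  obtain ⟨ψ, -, hψ⟩ := E.exists_desc_ne (E.mod h₁ u₁ (Or.inl n₁.c₄_ne)) (E.mod h₂ u₂ (u₂.ss s₂))
    hR hT hΦ hM h
  have hΔ : U₂.Δ = 0 := by_contra fun e => n₁.not_isAlg e hψ.isAlg_top
  have hc := (u₂.ss s₂).resolve_right (not_not.2 hΔ)
  obtain ⟨x', y', γ, n₂⟩ := exists_node' hΔ hc
  obtain ⟨a, ha⟩ := sp_of_range (n₁.slope_mem n₂ (range_inv p₀) u₁.over u₂.over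
    (n₁.x_mem (range_inv p₀) u₁.over) hα (sub_mem (neg_mem u₁.over.h1) hα)
    (n₂.x_mem (range_inv p₀) u₂.over) (hT.isAlg hψ))
  refine ⟨s₂.1, u₂.Δ.nu_iff.2 hΔ, fun e => hc (u₂.c₄.nu_iff.1 e), a, ha.mem,
    (((u₂.c₄.mul (ha.pow 2)).add ((u₂.h1.mul u₂.c₄).mul ha)).sub (((((sp_ofNat 54).mul u₂.b₆).sub
      (((sp_ofNat 3).mul u₂.b₂).mul u₂.b₄))).add (u₂.h2.mul u₂.c₄))).nu_iff.2 ?_⟩
  linear_combination 3 * n₂.x_eq - U₂.c₄ * n₂.h2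

variable {k : Type*} [Field k] [Algebra k K] {W : WeierstrassCurve K}
  {c : (K ≃ₐ[k] K) → (K ≃ₐ[k] K) → ℚ}

lemma Sys.exists_desc (S : Sys ι W c) (E : Ext ι p₀ p) (hΔ : W.Δ ≠ 0) {g : K ≃ₐ[k] K}
    (m₁ : Mod p (cv ι W g) U₁) (m₂ : Mod p (cv ι W (1 : K ≃ₐ[k] K)) U₂) :
    ∃ R T, ∃ ψ : U₁.Point →+ U₂.Point, Rep (R.map ι) (S.φ g) ∧ SpR p₀ R T ∧
      Desc p (S.φ g) ψ ∧ Rep T ψ := by
  obtain ⟨R, T, hR, hT⟩ := (S.alg g).exists_spR p₀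
  obtain ⟨ψ, h1, h2⟩ := E.exists_desc_ne m₁ m₂ hR hT (S.alg' g g⁻¹ 1 (mul_inv_cancel g))
    (mul_ne_zero (Rat.num_ne_zero.2 (S.c_ne hΔ _ _)) (Rat.num_ne_zero.2 (S.c_ne hΔ _ _)))
    (S.rel_one hΔ (mul_inv_cancel g))
  exact ⟨R, T, ψ, hR, hT, h1, h2⟩

/-- At a place of split multiplicative reduction the cocycle is a coboundary on the stabiliser. -/
theorem Sys.cob_of_split (S : Sys ι W c) (E : Ext ι p₀ p) (hΔ : W.Δ ≠ 0) (s : SplitO p₀.A W)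
    {H : Subgroup (K ≃ₐ[k] K)} (hH : ∀ g ∈ H, ∀ x, x ∈ p₀.A ↔ g x ∈ p₀.A) : Cob H c := by
  obtain ⟨U, u⟩ := s.1.spW
  obtain ⟨x, y, α, n, hα⟩ := s.node u
  have hx := n.x_mem (range_inv p₀) u.over
  have hy := n.y_mem (range_inv p₀) u.over hx
  have hβ := sub_mem (neg_mem u.over.h1) hα
  generalize -U.a₁ - α = β at n hβ
  choose! j hj using fun g (hg : g ∈ H) => E.exists_conj (g : K →+* K) (hH g hg)
  have jj : ∀ g ∈ H, ∀ h ∈ H, ∀ a ∈ p₀.ρ.range, j g (j h a) = j (g * h) a := fun g hg h hh a ha => by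
    obtain ⟨z, hz⟩ := sp_of_range ha
    exact (hj g hg _ _ (hj h hh _ _ hz)).unique (hj _ (mul_mem hg hh) _ _ hz)
  have jU : ∀ g ∈ H, ∀ h ∈ H, (U.map (j h)).map (j g) = U.map (j (g * h)) := fun g hg h hh => by
    ext
    exacts [jj g hg h hh _ u.over.h1, jj g hg h hh _ u.over.h2, jj g hg h hh _ u.over.h3,
      jj g hg h hh _ u.over.h4, jj g hg h hh _ u.over.h6]
  have m : ∀ g ∈ H, Mod p (cv ι W g) (U.map (j g)) := fun g hg =>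
    E.mod (V := W.map (g : K →+* K)) (by rw [map_Δ]; exact (_root_.map_ne_zero _).2 hΔ)
      (u.map (hj g hg)) (Or.inl (n.map _).c₄_ne)
  choose! R T ψ hR hT d hψ using fun g (hg : g ∈ H) => S.exists_desc E hΔ (m g hg) (m 1 H.one_mem)
  choose! l hl using fun g (hg : g ∈ H) => (n.map (j g)).exists_zpow (n.map (j 1))
    (hψ g hg).isAlg_top
  have l0 : ∀ g ∈ H, l g ≠ 0 := fun g hg e => by
    have := infinite_pt (n.map (j g)).sep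
    obtain ⟨P, hP⟩ := (hψ g hg).ne.exists
    exact (n.map (j 1)).tt_ne_one hP (by rw [hl g hg, e, zpow_zero])
  refine ⟨fun g => l g, fun g hg => Int.cast_ne_zero.2 (l0 g hg), fun g hg h hh => ?_⟩
  have hgh := mul_mem hg hh
  obtain ⟨ψ', d', hψ'⟩ := E.exists_desc (m _ hgh) (m g hg) (S.conj g h _ rfl _ (hR h hh))
    ((hT h hh).map (hj g hg))
  have rel := (d g hg).rel E.surj (m _ hgh) (m 1 H.one_mem) d' (d _ hgh) (S.rel g h _ rfl)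
  have rel' : ∀ P, tt (j g x) (j g y) (j g α) (j g β) (ψ' P) ^ (l g * (c g h).den) =
      tt (j (g * h) x) (j (g * h) y) (j (g * h) α) (j (g * h) β) P ^ (l (g * h) * (c g h).num) :=
    fun P => by
      rw [zpow_mul, zpow_mul, ← hl g hg, ← hl _ hgh, ← (n.map (j 1)).tt_zsmul,
        ← (n.map (j 1)).tt_zsmul, rel]
  have hψ' := hψ'.resolve_left fun e => mul_ne_zero (l0 _ hgh) (Rat.num_ne_zero.2 (S.c_ne hΔ g h))
    ((n.map (j (g * h))).zpow_inj fun P => by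
      rw [← rel', e, AddMonoidHom.zero_apply, tt_zero, one_zpow, zpow_zero])
  have := infinite_pt (n.map (j h)).sep
  have e1 : (U.map (j 1)).map (j g) = U.map (j g) := by rw [jU g hg 1 H.one_mem, mul_one]
  have e2 : l h * (l g * (c g h).den) = l (g * h) * (c g h).num :=
    (n.map (j h)).zpow_inj fun P => (j g).injective (by
      have r := rel' (ptMap (j g) (jU g hg h hh) P)
      have t := tt_ptMap e1 (j 1 x) (j 1 y) (j 1 α) (j 1 β) (ψ h P)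
      rw [jj g hg 1 H.one_mem x hx, jj g hg 1 H.one_mem y hy, jj g hg 1 H.one_mem α hα,
        jj g hg 1 H.one_mem β hβ, mul_one, hl h hh] at t
      rw [(hψ h hh).conj (jU g hg h hh) e1 hψ', t, ← jj g hg h hh x hx, ← jj g hg h hh y hy,
        ← jj g hg h hh α hα, ← jj g hg h hh β hβ, tt_ptMap] at r
      rw [zpow_mul, map_zpow₀, r, map_zpow₀])
  have e3 : (l h : ℚ) * (l g * (c g h).den) = l (g * h) * (c g h).num := by exact_mod_cast e2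
  rw [← Rat.mul_den_eq_num] at e3
  refine mul_right_cancel₀ (Nat.cast_ne_zero.2 (c g h).den_nz) ?_
  linear_combination -e3

/-- An involution in an inertia group forces a positive cocycle value to be a square. -/
theorem Sys.isSquare_of_inertia (S : Sys ι W c) (E : Ext ι p₀ p) (hΔ : W.Δ ≠ 0) (s : SSO p₀.A W)
    {σ : K ≃ₐ[k] K} (h2 : σ * σ = 1) (hσ : ∀ x a, Sp p₀ x a → Sp p₀ (σ x) a)
    (hpos : 0 < c σ σ * c 1 1) : IsSquare (c σ σ * c 1 1) := by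
  obtain ⟨U, u⟩ := s.1.spW
  have m : Mod p (cv ι W σ) U :=
    E.mod (V := W.map (σ : K →+* K)) (by rw [map_Δ]; exact (_root_.map_ne_zero _).2 hΔ)
      ⟨hσ _ _ u.h1, hσ _ _ u.h2, hσ _ _ u.h3, hσ _ _ u.h4, hσ _ _ u.h6⟩ (u.ss s)
  have m1 : Mod p (cv ι W (1 : K ≃ₐ[k] K)) U := E.mod hΔ u (u.ss s)
  obtain ⟨R, T, ψ, hR, hT, d, hψ⟩ := S.exists_desc E hΔ m m1
  obtain ⟨ψ', d', hψ'⟩ := E.exists_desc m1 m (S.conj σ σ 1 h2 _ hR)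
    (T.map_id ▸ hT.map (j := RingHom.id Γ) hσ)
  have rel := d.rel E.surj m1 m1 d' (φ'' := AddMonoidHom.id _) (ψ'' := AddMonoidHom.id _)
    (fun _ _ h => h) (S.rel_one hΔ h2)
  have M0 := mul_ne_zero (Rat.num_ne_zero.2 (S.c_ne hΔ σ σ)) (Rat.num_ne_zero.2 (S.c_ne hΔ 1 1))
  have hU := sep_of_c4 (u.ss s)
  have := infinite_pt hU
  obtain rfl : ψ = ψ' := hψ.unique (hψ'.resolve_left fun e => zsmul_id_ne (u.ss s) M0 (by
    ext a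
    have := rel a
    rw [e] at this
    simpa using this.symm))
  have e : c σ σ * c 1 1 * ((((c 1 1).den : ℤ) * (c σ σ).den : ℤ) : ℚ) =
      ((c σ σ).num * (c 1 1).num : ℤ) := by
    push_cast
    rw [← Rat.mul_den_eq_num, ← Rat.mul_den_eq_num]
    ring
  have N0 : (0 : ℤ) < ((c 1 1).den : ℤ) * (c σ σ).den := by
    have := (c 1 1).den_pos
    have := (c σ σ).den_pos
    positivity
  generalize ((c 1 1).den : ℤ) * (c σ σ).den = N at *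
  generalize (c σ σ).num * (c 1 1).num = M at *
  generalize c σ σ * c 1 1 = q at *
  have N1 : (0 : ℚ) < N := by exact_mod_cast N0
  by_cases h0 : U.Δ = 0
  · obtain ⟨x, y, α, n⟩ := exists_node' h0 ((u.ss s).resolve_right (not_not.2 h0))
    obtain ⟨l, hl⟩ := n.exists_zpow n hψ.isAlg_top
    have e1 : l * l * N = M := n.zpow_inj fun P => by
      rw [zpow_mul, zpow_mul, ← hl, ← hl, ← n.tt_zsmul, rel, ← n.tt_zsmul]
      rfl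
    refine ⟨l, mul_right_cancel₀ N1.ne' ?_⟩
    rw [e, ← e1]
    push_cast
    ring
  · have M1 : 0 < M := by
      have : (0 : ℚ) < M := e ▸ mul_pos hpos N1
      exact_mod_cast this
    obtain ⟨r, hr⟩ := isSquare_of_sq h0 (Alg0.zsmul (Or.inr hψ.isAlg_top) N) (mul_pos N0 M1) (by
      ext a
      simp only [AddMonoidHom.comp_apply, AddMonoidHom.smul_apply, map_zsmul, rel, mul_smul])
    refine ⟨r / N, ?_⟩
    have : (N : ℚ) * M = r * r := by exact_mod_cast hr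
    field_simp
    linear_combination N * e + this

end Pool.Agent.Lib.MP_02f36d_nt
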