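import Pool.Agent.Lib.MP_02f36d_nt.Deg

/-!
Maps on points induced by field homomorphisms and by changes of variables.
-/

namespace Pool.Agent.Lib.MP_02f36d_nt

open Polynomial WeierstrassCurve Filter

variable {F F' : Type*} [Field F] [Field F'] [DecidableEq F] [DecidableEq F']

/-- The map on points induced by a field homomorphism. -/
noncomputable def ptMap (j : F →+* F') {V : Affine F} {V' : Affine F'} (h : V.map j = V') :
    V.Point →+ V'.Point where
  toFun P := match P with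
    | .zero => .zero
    | .some x y hxy => .some (j x) (j y) (h ▸ (V.map_nonsingular j.injective x y).2 hxy)
  map_zero' := rfl
  map_add' := by
    subst h
    rintro (_ | ⟨x₁, y₁, h₁⟩) (_ | ⟨x₂, y₂, h₂⟩)
    any_goals rfl
    by_cases hxy : x₁ = x₂ ∧ y₁ = V.negY x₂ y₂
    · rw [Affine.Point.add_of_Y_eq hxy.left hxy.right,
        Affine.Point.add_of_Y_eq (congr_arg _ hxy.left) <| by rw [hxy.right, Affine.map_negY]]
      rfl
    · simpa only [Affine.Point.add_some hxy, ← Affine.map_addX, ← Affine.map_addY,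
        ← Affine.map_slope] using! (Affine.Point.add_some fun h ↦
          hxy ⟨j.injective h.1, j.injective (V.map_negY j .. ▸ h).2⟩).symm

variable {j : F →+* F'} {V : Affine F} {V' : Affine F'}

lemma xc_ptMap (h : V.map j = V') (P : V.Point) : xc (ptMap j h P) = j (xc P) := by
  rcases P with _ | ⟨x, y, hxy⟩
  · exact (map_zero j).symm
  · rfl

lemma yc_ptMap (h : V.map j = V') (P : V.Point) : yc (ptMap j h P) = j (yc P) := by
  rcases P with _ | ⟨x, y, hxy⟩
  · exact (map_zero j).symm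
  · rfl

lemma ptMap_ne (h : V.map j = V') {P : V.Point} (hP : P ≠ 0) : ptMap j h P ≠ 0 := by
  obtain ⟨x, y, hxy, rfl⟩ := exists_some hP
  exact Affine.Point.some_ne_zero _

lemma ptMap_injective (h : V.map j = V') : Function.Injective (ptMap j h) :=
  (injective_iff_map_eq_zero _).2 fun _ hP => by_contra fun h0 => ptMap_ne h h0 hP

lemma mem_range_ptMap (h : V.map j = V') {Q : V'.Point} {x y : F} (hx : xc Q = j x)
    (hy : yc Q = j y) : ∃ P, ptMap j h P = Q := by
  by_cases hQ : Q = 0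
  · exact ⟨0, by rw [hQ, map_zero]⟩
  have h1 := nonsing hQ
  rw [hx, hy, ← h] at h1
  have h2 := (V.map_nonsingular j.injective x y).1 h1
  exact ⟨.some x y h2, pt_ext (ptMap_ne h (Affine.Point.some_ne_zero _)) hQ
    (by rw [xc_ptMap, hx]; rfl) (by rw [yc_ptMap, hy]; rfl)⟩

lemma ptMap_surjective (h : V.map j = V') (hj : Function.Surjective j) :
    Function.Surjective (ptMap j h) := fun Q => by
  obtain ⟨x, hx⟩ := hj (xc Q)
  obtain ⟨y, hy⟩ := hj (yc Q)
  exact mem_range_ptMap h hx.symm hy.symm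

lemma ptMap_tendsto (h : V.map j = V') : Tendsto (ptMap j h) cofinite cofinite :=
  (ptMap_injective h).tendsto_cofinite

omit [DecidableEq F] [DecidableEq F'] in
lemma ev_of_ev_surj {A B : Type*} {f : A → B} (hf : Function.Surjective f) {p : B → Prop}
    (h : ∀ᶠ a in cofinite, p (f a)) : ∀ᶠ b in cofinite, p b := by
  rw [eventually_cofinite] at h ⊢
  refine (h.image f).subset fun b hb => ?_
  obtain ⟨a, rfl⟩ := hf b
  exact ⟨a, hb, rfl⟩

section VC

variable {U U' : Affine F} {C : VariableChange F}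

omit [DecidableEq F] in
lemma vc_coeffs (h : C • U = U') : U.a₁ = C.u * U'.a₁ - 2 * C.s ∧
    U.a₂ = C.u ^ 2 * U'.a₂ + C.s * U.a₁ - 3 * C.r + C.s ^ 2 ∧
    U.a₃ = C.u ^ 3 * U'.a₃ - C.r * U.a₁ - 2 * C.t ∧
    U.a₄ = C.u ^ 4 * U'.a₄ + C.s * U.a₃ - 2 * C.r * U.a₂ + (C.t + C.r * C.s) * U.a₁ - 3 * C.r ^ 2
      + 2 * C.s * C.t ∧
    U.a₆ = C.u ^ 6 * U'.a₆ - C.r * U.a₄ - C.r ^ 2 * U.a₂ - C.r ^ 3 + C.t * U.a₃ + C.t ^ 2
      + C.r * C.t * U.a₁ := by
  subst h
  have hu : (C.u : F) ≠ 0 := C.u.ne_zero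
  simp only [variableChange_def, Units.val_inv_eq_inv_val]
  refine ⟨?_, ?_, ?_, ?_, ?_⟩ <;> field_simp <;> ring

omit [DecidableEq F] in
lemma vc_nonsingular (h : C • U = U') {x y : F} (hxy : U'.Nonsingular x y) :
    U.Nonsingular (C.u ^ 2 * x + C.r) (C.u ^ 3 * y + C.u ^ 2 * C.s * x + C.t) := by
  obtain ⟨h1, h2, h3, h4, h6⟩ := vc_coeffs h
  have hu : (C.u : F) ≠ 0 := C.u.ne_zero
  rw [Affine.nonsingular_iff', Affine.equation_iff] at hxy ⊢
  obtain ⟨e, hn⟩ := hxy
  refine ⟨?_, ?_⟩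
  · rw [h6, h4, h3, h2, h1]
    linear_combination (C.u : F) ^ 6 * e
  · by_contra hc
    push Not at hc
    obtain ⟨c1, c2⟩ := hc
    rw [h4, h3, h2, h1] at c1
    rw [h3, h1] at c2
    have d2 : 2 * y + U'.a₁ * x + U'.a₃ = 0 :=
      mul_left_cancel₀ (pow_ne_zero 3 hu) (by linear_combination c2)
    rcases hn with hn | hn
    · exact hn (mul_left_cancel₀ (pow_ne_zero 4 hu) (by linear_combination c1 + C.s * c2))
    · exact hn d2

omit [DecidableEq F] in
/-- The map on points induced by a change of variables. -/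
noncomputable def vcFun (h : C • U = U') : U'.Point → U.Point
  | .zero => .zero
  | .some x y hxy => .some (C.u ^ 2 * x + C.r) (C.u ^ 3 * y + C.u ^ 2 * C.s * x + C.t)
      (vc_nonsingular h hxy)

omit [DecidableEq F] in
lemma vcFun_spec (h : C • U = U') {P : U'.Point} (hP : P ≠ 0) : vcFun h P ≠ 0 ∧
    xc (vcFun h P) = C.u ^ 2 * xc P + C.r ∧
    yc (vcFun h P) = C.u ^ 3 * yc P + C.u ^ 2 * C.s * xc P + C.t := by
  obtain ⟨x, y, hxy, rfl⟩ := exists_some hP
  exact ⟨Affine.Point.some_ne_zero _, rfl, rfl⟩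

lemma vcFun_add (h : C • U = U') {P Q : U'.Point} (hP : P ≠ 0) (hQ : Q ≠ 0) (hx : xc P ≠ xc Q) :
    vcFun h (P + Q) = vcFun h P + vcFun h Q := by
  obtain ⟨h1, h2, h3, -, -⟩ := vc_coeffs h
  have hu : (C.u : F) ≠ 0 := C.u.ne_zero
  obtain ⟨p0, p1, p2⟩ := vcFun_spec h hP
  obtain ⟨q0, q1, q2⟩ := vcFun_spec h hQ
  have hx' : xc (vcFun h P) ≠ xc (vcFun h Q) := by
    rw [p1, q1]
    exact fun e => hx (mul_left_cancel₀ (pow_ne_zero 2 hu) (add_right_cancel e))
  obtain ⟨a0, a1, a2⟩ := add_coords hP hQ fun e => hx e.1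
  obtain ⟨b0, b1, b2⟩ := add_coords p0 q0 fun e => hx' e.1
  obtain ⟨r0, r1, r2⟩ := vcFun_spec h a0
  have hs : U.slope (xc (vcFun h P)) (xc (vcFun h Q)) (yc (vcFun h P)) (yc (vcFun h Q)) =
      C.u * U'.slope (xc P) (xc Q) (yc P) (yc Q) + C.s := by
    rw [Affine.slope_of_X_ne hx', Affine.slope_of_X_ne hx, div_eq_iff (sub_ne_zero.2 hx'),
      p1, p2, q1, q2]
    have := sub_ne_zero.2 hx
    field_simp
    ring
  refine pt_ext r0 b0 ?_ ?_
  · rw [r1, a1, b1, hs, p1, q1, Affine.addX, Affine.addX, h2, h1]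
    ring
  · rw [r2, a2, a1, b2, hs, p1, p2, q1]
    simp only [Affine.addY, Affine.negAddY, Affine.negY, Affine.addX]
    rw [h3, h2, h1]
    ring

/-- The map on points induced by a change of variables, as a homomorphism. -/
noncomputable def vcMap [Infinite U'.Point] (h : C • U = U') : U'.Point →+ U.Point :=
  AddMonoidHom.mk' (vcFun h) (add_of_generic _ fun P => by
    by_cases hP : P = 0
    · refine Eventually.of_forall fun Q => ?_
      rw [hP, zero_add]
      exact (zero_add _).symm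
    · filter_upwards [ev_ne_zero U', (tendsto_xc U').eventually (eventually_cofinite_ne (xc P))]
        with Q h1 h2
      exact vcFun_add h hP h1 h2.symm)

lemma vcMap_spec [Infinite U'.Point] (h : C • U = U') {P : U'.Point} (hP : P ≠ 0) :
    vcMap h P ≠ 0 ∧ xc (vcMap h P) = C.u ^ 2 * xc P + C.r ∧
    yc (vcMap h P) = C.u ^ 3 * yc P + C.u ^ 2 * C.s * xc P + C.t := vcFun_spec h hP

lemma isAlg_vcMap [Infinite U'.Point] {S : Subring F} (hU : Over S U') (h : C • U = U')
    (hu : (C.u : F) ∈ S) (hr : C.r ∈ S) (hs : C.s ∈ S) (ht : C.t ∈ S) : IsAlg S (vcMap h) := by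
  have e := (ev_ne_zero U').mono fun P hP => vcMap_spec h hP
  refine ⟨e.mono fun P h => h.1, (((isRat_const (pow_mem hu 2)).mul hU isRat_xc).add
    (isRat_const hr)).congr (e.mono fun P h => h.2.1.symm),
    ((((isRat_const (pow_mem hu 3)).mul hU isRat_yc).add
      ((isRat_const (mul_mem (pow_mem hu 2) hs)).mul hU isRat_xc)).add (isRat_const ht)).congr
      (e.mono fun P h => h.2.2.symm)⟩

lemma vcMap_inv [Infinite U'.Point] [Infinite U.Point] (h : C • U = U') (h' : C⁻¹ • U' = U)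
    (P : U.Point) : vcMap h (vcMap h' P) = P := by
  by_cases hP : P = 0
  · rw [hP, map_zero, map_zero]
  have hu : (C.u : F) ≠ 0 := C.u.ne_zero
  obtain ⟨p0, p1, p2⟩ := vcMap_spec h' hP
  obtain ⟨q0, q1, q2⟩ := vcMap_spec h p0
  refine pt_ext q0 hP ?_ ?_
  · rw [q1, p1]
    simp only [VariableChange.inv_def, Units.val_inv_eq_inv_val]
    field_simp
    ring
  · rw [q2, p1, p2]
    simp only [VariableChange.inv_def, Units.val_inv_eq_inv_val]
    field_simp
    ring

lemma ptMap_vcMap {T T' : Affine F'} [Infinite U'.Point] [Infinite T'.Point] (h : C • U = U')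
    (h' : C.map j • T = T') (e : U.map j = T) (e' : U'.map j = T') (P : U'.Point) :
    ptMap j e (vcMap h P) = vcMap h' (ptMap j e' P) := by
  by_cases hP : P = 0
  · simp only [hP, map_zero]
  obtain ⟨p0, p1, p2⟩ := vcMap_spec h hP
  obtain ⟨q0, q1, q2⟩ := vcMap_spec h' (ptMap_ne e' hP)
  refine pt_ext (ptMap_ne e p0) q0 ?_ ?_
  · rw [xc_ptMap, p1, q1, xc_ptMap]
    simp
  · rw [yc_ptMap, p2, q2, xc_ptMap, yc_ptMap]
    simp

end VC

end Pool.Agent.Lib.MP_02f36d_nt
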