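import Pool.Agent.Lib.MP_02f36d_nt.Rep

/-!
Places of a field and the reduction of points.
-/

namespace Pool.Agent.Lib.MP_02f36d_nt

open Polynomial WeierstrassCurve Filter

/-- A place of `L` with values in `k`. -/
structure Place (L k : Type*) [Field L] [Field k] where
  A : ValuationSubring L
  ρ : A →+* k
  loc : ∀ x : A, ρ x ≠ 0 → IsUnit x

variable {L k : Type*} [Field L] [Field k] {p : Place L k}

/-- `x` specialises to `c`. -/
def Sp (p : Place L k) (x : L) (c : k) : Prop := ∃ h : x ∈ p.A, p.ρ ⟨x, h⟩ = c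

lemma Sp.mem {x : L} {c : k} (h : Sp p x c) : x ∈ p.A := h.1

lemma sp_of_mem {x : L} (h : x ∈ p.A) : Sp p x (p.ρ ⟨x, h⟩) := ⟨h, rfl⟩

lemma Sp.unique {x : L} {c d : k} (h : Sp p x c) (h' : Sp p x d) : c = d := h.2.symm.trans h'.2

lemma sp_zero : Sp p 0 0 := ⟨zero_mem _, map_zero p.ρ⟩

lemma sp_one : Sp p 1 1 := ⟨one_mem _, map_one p.ρ⟩

lemma Sp.add {x y : L} {c d : k} (h : Sp p x c) (h' : Sp p y d) : Sp p (x + y) (c + d) :=
  ⟨add_mem h.1 h'.1, by rw [← h.2, ← h'.2, ← map_add]; rfl⟩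

lemma Sp.mul {x y : L} {c d : k} (h : Sp p x c) (h' : Sp p y d) : Sp p (x * y) (c * d) :=
  ⟨mul_mem h.1 h'.1, by rw [← h.2, ← h'.2, ← map_mul]; rfl⟩

lemma Sp.neg {x : L} {c : k} (h : Sp p x c) : Sp p (-x) (-c) :=
  ⟨neg_mem h.1, by rw [← h.2, ← map_neg]; rfl⟩

lemma Sp.sub {x y : L} {c d : k} (h : Sp p x c) (h' : Sp p y d) : Sp p (x - y) (c - d) := by
  simpa only [sub_eq_add_neg] using h.add h'.neg

lemma Sp.pow {x : L} {c : k} (h : Sp p x c) (n : ℕ) : Sp p (x ^ n) (c ^ n) := by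
  induction n with
  | zero => simpa using sp_one
  | succ n ih => simpa only [pow_succ] using ih.mul h

lemma sp_nat (n : ℕ) : Sp p n n := by
  induction n with
  | zero => simpa using sp_zero
  | succ n ih => simpa using ih.add sp_one

lemma sp_ofNat (n : ℕ) [n.AtLeastTwo] : Sp p (OfNat.ofNat n) (OfNat.ofNat n) := sp_nat n

lemma Sp.ne_zero {x : L} {c : k} (h : Sp p x c) (hc : c ≠ 0) : x ≠ 0 := by
  rintro rfl
  exact hc (h.unique sp_zero)

lemma Sp.congr {x y : L} {c d : k} (h : Sp p x c) (e : x = y) (e' : c = d) : Sp p y d :=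
  e ▸ e' ▸ h

lemma Sp.eq {x y : L} {c d : k} (h : Sp p x c) (h' : Sp p y d) (e : x = y) : c = d :=
  (e ▸ h).unique h'

lemma Sp.inv {x : L} {c : k} (h : Sp p x c) (hc : c ≠ 0) : Sp p x⁻¹ c⁻¹ := by
  obtain ⟨u, hu⟩ := (p.loc ⟨x, h.1⟩ (by rw [h.2]; exact hc)).exists_right_inv
  have e : x⁻¹ = (u : L) := inv_eq_of_mul_eq_one_right (congrArg Subtype.val hu)
  have h2 : Sp p x⁻¹ (p.ρ u) := e ▸ ⟨u.2, rfl⟩
  have := (h.mul h2).eq sp_one (mul_inv_cancel₀ (h.ne_zero hc))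
  rwa [← eq_inv_of_mul_eq_one_right this]

lemma Sp.div {x y : L} {c d : k} (h : Sp p x c) (h' : Sp p y d) (hd : d ≠ 0) :
    Sp p (x / y) (c / d) := by
  simpa only [div_eq_mul_inv] using h.mul (h'.inv hd)

lemma sp_inv_of_notMem {x : L} (h : x ∉ p.A) : Sp p x⁻¹ 0 := by
  have h1 := sp_of_mem ((p.A.mem_or_inv_mem x).resolve_left h)
  by_contra h2
  have := (h1.inv fun e => h2 (e ▸ h1)).mem
  rw [inv_inv] at this
  exact h this

lemma Sp.div_notMem {x y : L} {c : k} (h : Sp p x c) (hc : c ≠ 0) (h' : Sp p y 0) (hy : y ≠ 0) :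
    x / y ∉ p.A := fun hm =>
  hc (by simpa using h.eq ((sp_of_mem hm).mul h') (div_mul_cancel₀ _ hy).symm)

lemma mem_of_quad {y b c : L} (hb : b ∈ p.A) (hc : c ∈ p.A) (e : y ^ 2 + b * y = c) :
    y ∈ p.A := by
  by_contra h
  have h0 : y ≠ 0 := fun e => h (e ▸ zero_mem _)
  have h1 := sp_inv_of_notMem h
  have := (sp_one.add ((sp_of_mem hb).mul h1)).eq ((sp_of_mem hc).mul (h1.pow 2))
    (by rw [← e]; field_simp)
  simp at this

/-- Specialisation of polynomials. -/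
def SpP (p : Place L k) (f : L[X]) (g : k[X]) : Prop :=
  ∃ r : p.A[X], r.map p.A.subtype = f ∧ r.map p.ρ = g

lemma SpP.eval {f : L[X]} {g : k[X]} (h : SpP p f g) {x : L} {c : k} (hx : Sp p x c) :
    Sp p (f.eval x) (g.eval c) := by
  obtain ⟨r, rfl, rfl⟩ := h
  obtain ⟨hx, rfl⟩ := hx
  have e1 : (r.map p.A.subtype).eval x = (r.eval ⟨x, hx⟩ : p.A) := by
    rw [eval_map]; exact eval₂_at_apply p.A.subtype (⟨x, hx⟩ : p.A)
  rw [e1, eval_map, eval₂_at_apply]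
  exact ⟨Subtype.prop _, rfl⟩

lemma SpP.coeff {f : L[X]} {g : k[X]} (h : SpP p f g) (n : ℕ) : Sp p (f.coeff n) (g.coeff n) := by
  obtain ⟨r, rfl, rfl⟩ := h
  rw [coeff_map, coeff_map]
  exact ⟨Subtype.prop _, rfl⟩

lemma exists_spP {f : L[X]} (h : ∀ n, f.coeff n ∈ p.A) : ∃ g, SpP p f g := by
  obtain ⟨r, hr⟩ := (mem_lifts f).1 ((lifts_iff_coeff_lifts (f := p.A.subtype) f).2
    fun n => ⟨⟨_, h n⟩, rfl⟩)
  exact ⟨_, r, hr, rfl⟩

lemma spP_of_coeff {f : L[X]} {g : k[X]} (h : ∀ n, Sp p (f.coeff n) (g.coeff n)) : SpP p f g := by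
  obtain ⟨g', h'⟩ := exists_spP fun n => (h n).mem
  obtain rfl : g' = g := by
    ext n
    exact (h'.coeff n).unique (h n)
  exact h'

lemma exists_norm {ι : Type*} [Fintype ι] (v : ι → L[X]) (h : ∃ i, v i ≠ 0) :
    ∃ γ : L, γ ≠ 0 ∧ ∃ w : ι → k[X], (∀ i, SpP p (C γ * v i) (w i)) ∧ ∃ i, w i ≠ 0 := by
  classical
  obtain ⟨i₀, h0⟩ := h
  obtain ⟨⟨i, n⟩, -, hm⟩ := Finset.exists_max_image
    (Finset.univ.sigma fun i => (v i).support) (fun a => p.A.valuation ((v a.1).coeff a.2))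
    ⟨⟨i₀, (v i₀).natDegree⟩, by simpa using h0⟩
  simp only [Finset.mem_sigma, Finset.mem_univ, true_and, mem_support_iff] at hm
  have hc : (v i).coeff n ≠ 0 := fun e => by
    have := hm ⟨i₀, (v i₀).natDegree⟩ (leadingCoeff_ne_zero.2 h0)
    rw [e, map_zero, le_zero_iff, map_eq_zero] at this
    exact leadingCoeff_ne_zero.2 h0 this
  have key : ∀ i', ∃ g, SpP p (C ((v i).coeff n)⁻¹ * v i') g := fun i' => exists_spP fun m => by
    rw [coeff_C_mul]
    by_cases e : (v i').coeff m = 0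
    · rw [e, mul_zero]; exact zero_mem _
    · rw [← p.A.valuation_le_one_iff, map_mul, map_inv₀, 
        inv_mul_le_one₀ (zero_lt_iff.2 ((_root_.map_ne_zero _).2 hc))]
      exact hm ⟨i', m⟩ e
  choose w hw using key
  refine ⟨_, inv_ne_zero hc, w, hw, i, fun e => ?_⟩
  have := (hw i).coeff n
  rw [e, coeff_C_mul, inv_mul_cancel₀ hc] at this
  simpa using this.unique sp_one

/-- Specialisation of curves. -/
structure SpW (p : Place L k) (V : Affine L) (U : Affine k) : Prop where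
  h1 : Sp p V.a₁ U.a₁
  h2 : Sp p V.a₂ U.a₂
  h3 : Sp p V.a₃ U.a₃
  h4 : Sp p V.a₄ U.a₄
  h6 : Sp p V.a₆ U.a₆

variable {V : Affine L} {U : Affine k}

lemma SpW.b₂ (h : SpW p V U) : Sp p V.b₂ U.b₂ := (h.h1.pow 2).add ((sp_ofNat 4).mul h.h2)

lemma SpW.b₄ (h : SpW p V U) : Sp p V.b₄ U.b₄ := ((sp_ofNat 2).mul h.h4).add (h.h1.mul h.h3)

lemma SpW.b₆ (h : SpW p V U) : Sp p V.b₆ U.b₆ := (h.h3.pow 2).add ((sp_ofNat 4).mul h.h6)

lemma SpW.y_mem (h : SpW p V U) {P : V.Point} (hP : P ≠ 0) (hx : xc P ∈ p.A) : yc P ∈ p.A :=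
  mem_of_quad (b := V.a₁ * xc P + V.a₃) (add_mem (mul_mem h.h1.mem hx) h.h3.mem)
    (add_mem (add_mem (add_mem (pow_mem hx 3) (mul_mem h.h2.mem (pow_mem hx 2)))
      (mul_mem h.h4.mem hx)) h.h6.mem) (by linear_combination eqn hP)

lemma SpW.equation (h : SpW p V U) {P : V.Point} (hP : P ≠ 0) {x y : k} (hx : Sp p (xc P) x)
    (hy : Sp p (yc P) y) : U.Equation x y :=
  (Affine.equation_iff _ _).2 ((((hy.pow 2).add ((h.h1.mul hx).mul hy)).add (h.h3.mul hy)).eq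
    ((((hx.pow 3).add (h.h2.mul (hx.pow 2))).add (h.h4.mul hx)).add h.h6) (eqn hP))

/-- Reduction of points. -/
def Red (p : Place L k) (P : V.Point) (q : U.Point) : Prop :=
  (q = 0 ∧ (P = 0 ∨ xc P ∉ p.A)) ∨ (P ≠ 0 ∧ q ≠ 0 ∧ Sp p (xc P) (xc q) ∧ Sp p (yc P) (yc q))

lemma red_zero : Red p (0 : V.Point) (0 : U.Point) := Or.inl ⟨rfl, Or.inl rfl⟩

lemma Red.of_ne {P : V.Point} {q : U.Point} (h : Red p P q) (hq : q ≠ 0) :
    P ≠ 0 ∧ Sp p (xc P) (xc q) ∧ Sp p (yc P) (yc q) := by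
  rcases h with h | h
  · exact absurd h.1 hq
  · exact ⟨h.1, h.2.2⟩

lemma Red.of_zero {P : V.Point} (h : Red p P (0 : U.Point)) : P = 0 ∨ xc P ∉ p.A := by
  rcases h with h | h
  · exact h.2
  · exact absurd rfl h.2.1

lemma Red.unique {P : V.Point} {q q' : U.Point} (h : Red p P q) (h' : Red p P q') : q = q' := by
  rcases h with ⟨rfl, h⟩ | h <;> rcases h' with ⟨rfl, h'⟩ | h'
  · rfl
  · exact absurd h (not_or.2 ⟨h'.1, not_not.2 h'.2.2.1.mem⟩)
  · exact absurd h' (not_or.2 ⟨h.1, not_not.2 h.2.2.1.mem⟩)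
  · exact pt_ext h.2.1 h'.2.1 (h.2.2.1.unique h'.2.2.1) (h.2.2.2.unique h'.2.2.2)

lemma ev_red {q : V.Point → Prop} (h : ∀ᶠ P in cofinite, q P) :
    ∀ᶠ a : U.Point in cofinite, ∀ P, Red p P a → q P := by
  rw [eventually_cofinite] at h ⊢
  refine (h.biUnion (t := fun P => {a : U.Point | Red p P a}) fun P _ =>
    Set.Subsingleton.finite fun a ha b hb => Red.unique ha hb).subset fun a ha => ?_
  simp only [Set.mem_ofPred_eq, not_forall] at ha
  obtain ⟨P, h1, h2⟩ := ha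
  exact Set.mem_biUnion (x := P) h2 h1

variable [DecidableEq L] [DecidableEq k]

lemma Red.neg (h : SpW p V U) {P : V.Point} {q : U.Point} (r : Red p P q) : Red p (-P) (-q) := by
  rcases r with ⟨rfl, r⟩ | r
  · exact Or.inl ⟨neg_zero, by simpa [xc_neg] using r⟩
  · refine Or.inr ⟨neg_ne_zero.2 r.1, neg_ne_zero.2 r.2.1, by simpa [xc_neg] using r.2.2.1, ?_⟩
    rw [yc_neg r.1, yc_neg r.2.1]
    exact (r.2.2.2.neg.sub (h.h1.mul r.2.2.1)).sub h.h3

omit [DecidableEq L] in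
lemma red_of_x (h : SpW p V U) {P : V.Point} {q : U.Point} (hP : P ≠ 0) (hq : q ≠ 0)
    (hx : Sp p (xc P) (xc q)) : Red p P q ∨ Red p P (-q) := by
  have hy := sp_of_mem (h.y_mem hP hx.mem)
  have e1 := (Affine.equation_iff _ _).1 (h.equation hP hx hy)
  have e2 := eqn hq
  generalize p.ρ _ = c at hy e1
  rcases mul_eq_zero.1 (show (c - yc q) * (c - (-yc q - U.a₁ * xc q - U.a₃)) = 0 by
    linear_combination e1 - e2) with e | e
  · exact Or.inl (Or.inr ⟨hP, hq, hx, sub_eq_zero.1 e ▸ hy⟩)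
  · refine Or.inr (Or.inr ⟨hP, neg_ne_zero.2 hq, by rwa [xc_neg], ?_⟩)
    rw [yc_neg hq]
    exact sub_eq_zero.1 e ▸ hy

lemma exists_lift [IsAlgClosed L] (hs : Function.Surjective p.ρ) (hΔ : V.Δ ≠ 0) (h : SpW p V U)
    (q : U.Point) : ∃ P : V.Point, Red p P q := by
  by_cases hq : q = 0
  · exact ⟨0, hq ▸ red_zero⟩
  obtain ⟨x, hx⟩ := hs (xc q)
  obtain ⟨y, hy⟩ := exists_eqn V (x : L)
  have hn := (V.equation_iff_nonsingular_of_Δ_ne_zero hΔ).1 hy
  rcases red_of_x h (P := .some _ _ hn) (Affine.Point.some_ne_zero _) hq ⟨x.2, hx⟩ with r | r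
  · exact ⟨_, r⟩
  · exact ⟨_, by simpa using r.neg h⟩

lemma red_add_gen (h : SpW p V U) {P Q : V.Point} {a b : U.Point} (r : Red p P a) (r' : Red p Q b)
    (ha : a ≠ 0) (hb : b ≠ 0) (hx : xc a ≠ xc b) : Red p (P + Q) (a + b) := by
  obtain ⟨p0, p1, p2⟩ := r.of_ne ha
  obtain ⟨q0, q1, q2⟩ := r'.of_ne hb
  have hx' : xc P ≠ xc Q := fun e => hx (p1.eq q1 e)
  obtain ⟨a0, a1, a2⟩ := add_coords p0 q0 fun e => hx' e.1
  obtain ⟨b0, b1, b2⟩ := add_coords ha hb fun e => hx e.1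
  have hs := (p2.sub q2).div (p1.sub q1) (sub_ne_zero.2 hx)
  rw [← Affine.slope_of_X_ne (W := V) hx', ← Affine.slope_of_X_ne (W := U) hx] at hs
  have hX := ((((hs.pow 2).add (h.h1.mul hs)).sub h.h2).sub p1).sub q1
  refine Or.inr ⟨a0, b0, by rw [a1, b1]; exact hX, ?_⟩
  rw [a2, b2]
  exact ((((hs.mul (hX.sub p1)).add p2).neg).sub (h.h1.mul hX)).sub h.h3

lemma red_add_neg (h : SpW p V U) {P Q : V.Point} {a : U.Point} (r : Red p P a) (r' : Red p Q (-a))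
    (ha : a ≠ 0) (hY : 2 * yc a + U.a₁ * xc a + U.a₃ ≠ 0) : Red p (P + Q) (0 : U.Point) := by
  obtain ⟨p0, p1, p2⟩ := r.of_ne ha
  obtain ⟨q0, q1, q2⟩ := r'.of_ne (neg_ne_zero.2 ha)
  rw [xc_neg] at q1
  rw [yc_neg ha] at q2
  refine Or.inl ⟨rfl, ?_⟩
  by_cases hx : xc P = xc Q
  · rcases eq_or_neg_of_xc p0 q0 hx with e | e
    · exact absurd (by linear_combination p2.eq q2 (congrArg yc e)) hY
    · exact Or.inl (by rw [e, neg_add_cancel])
  · refine Or.inr fun hm => ?_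
    obtain ⟨-, a1, -⟩ := add_coords p0 q0 fun e => hx e.1
    rw [Affine.slope_of_X_ne hx, Affine.addX] at a1
    refine (p2.sub q2).div_notMem (fun e => hY (by linear_combination e))
      ((p1.sub q1).congr rfl (sub_self _)) (sub_ne_zero.2 hx) ?_
    exact mem_of_quad h.h1.mem (add_mem (add_mem (add_mem hm h.h2.mem) p1.mem) q1.mem)
      (by linear_combination -a1)

lemma red_add_inf (h : SpW p V U) {P Q : V.Point} {b : U.Point} (r : Red p P (0 : U.Point))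
    (r' : Red p Q b) (hb : b ≠ 0) : Red p (P + Q) b ∨ Red p (P + Q) (-b) := by
  rcases r.of_zero with rfl | hP
  · exact Or.inl (by rwa [zero_add])
  obtain ⟨q0, q1, q2⟩ := r'.of_ne hb
  have p0 : P ≠ 0 := by rintro rfl; exact hP (zero_mem _)
  have hx : xc P ≠ xc Q := fun e => hP (e ▸ q1.mem)
  obtain ⟨a0, a1⟩ := xc_add_mul p0 q0 hx
  refine red_of_x h a0 hb ?_
  have ht := sp_inv_of_notMem hP
  have x0 : xc P ≠ 0 := fun e => hP (e ▸ zero_mem _)
  have e1 := eqn p0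
  have ez : (yc P * (xc P)⁻¹ ^ 2) ^ 2 + (V.a₁ * (xc P)⁻¹ + V.a₃ * (xc P)⁻¹ ^ 2) *
      (yc P * (xc P)⁻¹ ^ 2) = (xc P)⁻¹ + V.a₂ * (xc P)⁻¹ ^ 2 + V.a₄ * (xc P)⁻¹ ^ 3 +
        V.a₆ * (xc P)⁻¹ ^ 4 := by
    field_simp
    linear_combination e1
  have s1 := (h.h1.mul ht).add (h.h3.mul (ht.pow 2))
  have s2 := ((ht.add (h.h2.mul (ht.pow 2))).add (h.h4.mul (ht.pow 3))).add (h.h6.mul (ht.pow 4))
  have hz := sp_of_mem (mem_of_quad s1.mem s2.mem ez)
  have hz0 := ((hz.pow 2).add (s1.mul hz)).eq s2 ez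
  generalize p.ρ _ = c at hz hz0
  obtain rfl : c = 0 := by simpa using hz0
  have s3 := (((q1.add (ht.mul (((h.h4.sub (h.h1.mul q2)).add (((sp_ofNat 2).mul h.h2).mul q1)).add
    (q1.pow 2)))).sub (hz.mul ((h.h3.add ((sp_ofNat 2).mul q2)).add (h.h1.mul q1)))).add
    ((ht.pow 2).mul ((((h.h6.add (q2.pow 2)).add ((h.h1.mul q2).mul q1)).sub
      (h.h2.mul (q1.pow 2))).sub (q1.pow 3)))).div ((sp_one.sub (ht.mul q1)).pow 2) (by simp)
  refine s3.congr ?_ (by simp)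
  have hd : (1 - (xc P)⁻¹ * xc Q) ^ 2 ≠ 0 := ((sp_one.sub (ht.mul q1)).pow 2).ne_zero (by simp)
  rw [div_eq_iff hd]
  field_simp
  linear_combination -a1 - e1

variable [IsAlgClosed L] [IsAlgClosed k]

omit [IsAlgClosed L] [DecidableEq L] in
lemma ev_xc_add_ne (hU : Sep U) {s : U.Point} (hs : s ≠ 0) :
    ∀ᶠ t in cofinite, xc (s + t) ≠ xc t := by
  filter_upwards [ev_ne_zero U, ev_add_left (ev_ne_zero U) s,
    (isAlg_two hU).tendsto.eventually (eventually_cofinite_ne (-s))] with t e1 e2 e3 e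
  rcases eq_or_neg_of_xc e2 e1 e with h | h
  · exact hs (add_eq_right.1 h)
  · refine e3 ?_
    rw [AddMonoidHom.add_apply, AddMonoidHom.id_apply, eq_neg_iff_add_eq_zero, add_comm,
      ← add_assoc, h, neg_add_cancel]

lemma red_add_inf' (hs : Function.Surjective p.ρ) (hΔ : V.Δ ≠ 0) (hU : Sep U) (h : SpW p V U)
    {P Q : V.Point} {b : U.Point} (r : Red p P (0 : U.Point)) (r' : Red p Q b) (hb : b ≠ 0) :
    Red p (P + Q) b := by
  have := infinite_pt hU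
  rcases red_add_inf h r r' hb with r1 | r1
  · exact r1
  obtain ⟨t, t0, t1, t2, t3⟩ := ((ev_ne_zero U).and ((ev_Y_ne hU).and (((tendsto_xc U).eventually
    (eventually_cofinite_ne (xc b))).and (ev_add_left (ev_ne_zero U) b)))).exists
  obtain ⟨T, hT⟩ := exists_lift hs hΔ h t
  have r2 := red_add_gen h r1 hT (neg_ne_zero.2 hb) t0 (by rw [xc_neg]; exact t2.symm)
  rw [add_assoc] at r2
  rcases red_add_inf h r (red_add_gen h r' hT hb t0 t2.symm) t3 with r3 | r3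
  · rwa [add_right_cancel (r2.unique r3)] at r1
  · have := r2.unique r3
    rw [neg_add, add_right_inj, eq_neg_iff_add_eq_zero] at this
    exact absurd this (xc_two t0 t1).1

lemma Red.add (hs : Function.Surjective p.ρ) (hΔ : V.Δ ≠ 0) (hU : Sep U) (h : SpW p V U)
    {P Q : V.Point} {a b : U.Point} (r : Red p P a) (r' : Red p Q b) : Red p (P + Q) (a + b) := by
  have := infinite_pt hU
  have key : ∀ {P Q : V.Point} {a b : U.Point}, Red p P a → Red p Q b → b ≠ 0 → xc a ≠ xc b →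
      Red p (P + Q) (a + b) := fun {P Q a b} r r' hb hx => by
    by_cases ha : a = 0
    · subst ha
      rw [zero_add]
      exact red_add_inf' hs hΔ hU h r r' hb
    · exact red_add_gen h r r' ha hb hx
  have e : ∀ᶠ t in cofinite, a + b ≠ 0 → xc (a + b + t) ≠ xc t := by
    by_cases hab : a + b = 0
    · exact Eventually.of_forall fun t h => absurd hab h
    · exact (ev_xc_add_ne hU hab).mono fun t e _ => e
  obtain ⟨t, t0, t1, t2, t3, t4, t5⟩ := ((ev_ne_zero U).and ((ev_Y_ne hU).and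
    (((tendsto_xc U).eventually (eventually_cofinite_ne (xc b))).and
    ((ev_add_left (ev_ne_zero U) b).and ((ev_add_left ((tendsto_xc U).eventually
      (eventually_cofinite_ne (xc a))) b).and e))))).exists
  obtain ⟨T, hT⟩ := exists_lift hs hΔ h t
  have r1 := key r (key r' hT t0 t2.symm) t3 t4.symm
  rw [← add_assoc, ← add_assoc] at r1
  by_cases hab : a + b = 0
  · rw [hab, zero_add] at r1
    have := red_add_neg h r1 (hT.neg h) t0 t1
    rwa [add_neg_cancel_right, ← hab] at this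
  · have := key r1 (hT.neg h) (neg_ne_zero.2 t0) (by rw [xc_neg]; exact t5 hab)
    rwa [add_neg_cancel_right, add_neg_cancel_right] at this

end Pool.Agent.Lib.MP_02f36d_nt
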