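import Pool.Agent.Lib.MP_02f36d_nt.Red

/-!
Nodal cubics: the multiplicative parameter, and algebraic additive maps between nodal cubics.
-/

namespace Pool.Agent.Lib.MP_02f36d_nt

open Polynomial WeierstrassCurve Filter

variable {k : Type*} [Field k]

/-- `U` has a node at `(x₀, y₀)` with tangent slopes `α, β`. -/
structure Node (U : Affine k) (x₀ y₀ α β : k) : Prop where
  ne : α ≠ β
  h1 : U.a₁ = -(α + β)
  h2 : U.a₂ = -(α * β) - 3 * x₀
  h3 : U.a₃ = -2 * y₀ + (α + β) * x₀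
  h4 : U.a₄ = -(α + β) * y₀ + 2 * α * β * x₀ + 3 * x₀ ^ 2
  h6 : U.a₆ = -y₀ ^ 2 + (α + β) * x₀ * y₀ - α * β * x₀ ^ 2 - x₀ ^ 3

variable {U U' : Affine k} {x₀ y₀ α β x₁ y₁ γ δ : k}

lemma exists_node [IsAlgClosed k] (hΔ : U.Δ = 0) (hc : U.c₄ ≠ 0)
    (hx : x₀ * U.c₄ = 18 * U.b₆ - U.b₂ * U.b₄) (h1 : α + β = -U.a₁)
    (h2 : α * β = -(U.a₂ + 3 * x₀)) : ∃ y₀, Node U x₀ y₀ α β := by
  have rel := U.b_relation
  have e1 : U.b₄ + x₀ * U.b₂ + 6 * x₀ ^ 2 = 0 := by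
    refine mul_left_cancel₀ (pow_ne_zero 2 hc) ?_
    have : U.c₄ ^ 2 * (U.b₄ + x₀ * U.b₂ + 6 * x₀ ^ 2) = U.c₄ ^ 2 * U.b₄ +
      U.c₄ * U.b₂ * (x₀ * U.c₄) + 6 * (x₀ * U.c₄) ^ 2 := by ring
    rw [this, hx]
    rw [Δ] at hΔ
    rw [c₄]
    linear_combination (-72) * hΔ - 18 * U.b₂ ^ 2 * rel
  have e2 : U.b₆ + 2 * x₀ * U.b₄ + x₀ ^ 2 * U.b₂ + 4 * x₀ ^ 3 = 0 := by
    refine mul_left_cancel₀ (pow_ne_zero 3 hc) ?_
    have : U.c₄ ^ 3 * (U.b₆ + 2 * x₀ * U.b₄ + x₀ ^ 2 * U.b₂ + 4 * x₀ ^ 3) = U.c₄ ^ 3 * U.b₆ +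
      2 * U.c₄ ^ 2 * (x₀ * U.c₄) * U.b₄ + U.c₄ * (x₀ * U.c₄) ^ 2 * U.b₂ + 4 * (x₀ * U.c₄) ^ 3 := by
      ring
    rw [this, hx]
    rw [Δ] at hΔ
    rw [c₄]
    linear_combination (-U.b₂ ^ 3 + 36 * U.b₂ * U.b₄ - 216 * U.b₆) * (4 * hΔ + U.b₂ ^ 2 * rel)
  obtain ⟨y, hy⟩ := exists_eqn U x₀
  rw [Affine.equation_iff] at hy
  have e3 : 2 * y + U.a₁ * x₀ + U.a₃ = 0 := pow_eq_zero_iff (two_ne_zero) |>.1 (by
    simp only [b₂, b₄, b₆] at e2
    linear_combination e2 + 4 * hy)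
  have e4 : (U.b₂ + 12 * x₀) ^ 2 = U.c₄ := by rw [c₄]; linear_combination 24 * e1
  have e5 : 3 * x₀ ^ 2 + 2 * U.a₂ * x₀ + U.a₄ - U.a₁ * y = 0 := by
    obtain ⟨G, hG⟩ : ∃ G, G = 3 * x₀ ^ 2 + 2 * U.a₂ * x₀ + U.a₄ - U.a₁ * y := ⟨_, rfl⟩
    have g2 : 2 * G = 0 := by
      simp only [b₂, b₄] at e1
      linear_combination e1 + 2 * hG - U.a₁ * e3
    have g3 : U.Δ = (U.b₂ + 12 * x₀) ^ 2 * G ^ 2 - 64 * G ^ 3 := by
      have a3 : U.a₃ = -2 * y - U.a₁ * x₀ := by linear_combination e3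
      have a4 : U.a₄ = G - 3 * x₀ ^ 2 - 2 * U.a₂ * x₀ + U.a₁ * y := by linear_combination -hG
      have a6 : U.a₆ = y ^ 2 + U.a₁ * x₀ * y + U.a₃ * y - (x₀ ^ 3 + U.a₂ * x₀ ^ 2 + U.a₄ * x₀) := by
        linear_combination -hy
      simp only [Δ, b₂, b₄, b₆, b₈]
      rw [a6, a4, a3]
      ring
    rw [← hG]
    refine pow_eq_zero_iff (two_ne_zero) |>.1 (mul_left_cancel₀ hc ?_)
    rw [← e4]
    linear_combination hΔ - g3 + 32 * G ^ 2 * g2
  refine ⟨y, fun e => hc ?_, by linear_combination h1, by linear_combination h2,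
    by linear_combination e3 - x₀ * h1, by linear_combination e5 + y * h1 - 2 * x₀ * h2,
    by linear_combination -hy + y * e3 - x₀ * e5 - x₀ * y * h1 + x₀ ^ 2 * h2⟩
  rw [← e4, b₂]
  rw [e] at h1 h2
  have : U.a₁ ^ 2 + 4 * U.a₂ + 12 * x₀ = 0 := by
    linear_combination (U.a₁ - 2 * β) * h1 + 4 * h2
  rw [this]
  ring

lemma Node.c₄ (h : Node U x₀ y₀ α β) : U.c₄ = (α - β) ^ 4 := by
  simp only [WeierstrassCurve.c₄, b₂, b₄, h.h1, h.h2, h.h3, h.h4]
  ring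

lemma Node.sep (h : Node U x₀ y₀ α β) : Sep U :=
  sep_of_c4 (Or.inl (by rw [h.c₄]; exact pow_ne_zero _ (sub_ne_zero.2 h.ne)))

lemma Node.eqn (h : Node U x₀ y₀ α β) {P : U.Point} (hP : P ≠ 0) :
    (yc P - y₀ - α * (xc P - x₀)) * (yc P - y₀ - β * (xc P - x₀)) = (xc P - x₀) ^ 3 := by
  have e := MP_02f36d_nt.eqn hP
  rw [h.h1, h.h2, h.h3, h.h4, h.h6] at e
  linear_combination e

lemma Node.x_ne (h : Node U x₀ y₀ α β) {P : U.Point} (hP : P ≠ 0) : xc P - x₀ ≠ 0 := fun e => by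
  have e1 := h.eqn hP
  rw [e] at e1
  have e2 : yc P - y₀ = 0 := pow_eq_zero_iff (two_ne_zero) |>.1 (by linear_combination e1)
  rcases ((Affine.nonsingular_iff' _ _).1 (nonsing hP)).2 with e3 | e3 <;> refine e3 ?_ <;>
    simp only [h.h1, h.h2, h.h3, h.h4, sub_eq_zero.1 e, sub_eq_zero.1 e2] <;> ring

lemma Node.u_ne (h : Node U x₀ y₀ α β) {P : U.Point} (hP : P ≠ 0) :
    yc P - y₀ - α * (xc P - x₀) ≠ 0 ∧ yc P - y₀ - β * (xc P - x₀) ≠ 0 :=
  mul_ne_zero_iff.1 (by rw [h.eqn hP]; exact pow_ne_zero _ (h.x_ne hP))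

lemma Node.y_mem (h : Node U x₀ y₀ α β) {S : Subring k} (hS : ∀ x ∈ S, x⁻¹ ∈ S) (o : Over S U)
    (hx : x₀ ∈ S) : y₀ ∈ S := by
  have h2 : (2 : k) ∈ S := by exact_mod_cast natCast_mem S 2
  have h3 : (3 : k) ∈ S := by exact_mod_cast natCast_mem S 3
  by_cases e : (2 : k) = 0
  · have a1 : U.a₁ ≠ 0 := fun e1 => h.ne (by rw [h.h1] at e1; linear_combination -e1 - β * e)
    have : y₀ = (3 * x₀ ^ 2 + 2 * U.a₂ * x₀ + U.a₄) * U.a₁⁻¹ := by
      rw [eq_mul_inv_iff_mul_eq₀ a1, h.h1, h.h2, h.h4]; ring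
    rw [this]
    exact mul_mem (add_mem (add_mem (mul_mem h3 (pow_mem hx 2)) (mul_mem (mul_mem h2 o.h2) hx))
      o.h4) (hS _ o.h1)
  · have : y₀ = -(U.a₃ + U.a₁ * x₀) * 2⁻¹ := by
      rw [eq_mul_inv_iff_mul_eq₀ e, h.h1, h.h3]; ring
    rw [this]
    exact mul_mem (neg_mem (add_mem o.h3 (mul_mem o.h1 hx))) (hS _ h2)

open Classical in
/-- The multiplicative parameter. -/
noncomputable def tt (x₀ y₀ α β : k) (P : U.Point) : k :=
  if P = 0 then 1 else (yc P - y₀ - α * (xc P - x₀)) / (yc P - y₀ - β * (xc P - x₀))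

lemma tt_zero : tt x₀ y₀ α β (0 : U.Point) = 1 := if_pos rfl

lemma tt_of_ne {P : U.Point} (hP : P ≠ 0) : tt x₀ y₀ α β P =
    (yc P - y₀ - α * (xc P - x₀)) / (yc P - y₀ - β * (xc P - x₀)) := if_neg hP

lemma Node.tt_ne (h : Node U x₀ y₀ α β) (P : U.Point) : tt x₀ y₀ α β P ≠ 0 := by
  by_cases hP : P = 0
  · rw [hP, tt_zero]; exact one_ne_zero
  · rw [tt_of_ne hP]; exact div_ne_zero (h.u_ne hP).1 (h.u_ne hP).2

lemma Node.tt_ne_one (h : Node U x₀ y₀ α β) {P : U.Point} (hP : P ≠ 0) : tt x₀ y₀ α β P ≠ 1 := by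
  rw [tt_of_ne hP, Ne, div_eq_one_iff_eq (h.u_ne hP).2]
  exact fun e => mul_ne_zero (sub_ne_zero.2 h.ne) (h.x_ne hP) (by linear_combination -e)

lemma Node.exists_slope (h : Node U x₀ y₀ α β) {P : U.Point} (hP : P ≠ 0) :
    ∃ s, s - α ≠ 0 ∧ s - β ≠ 0 ∧ xc P = x₀ + (s - α) * (s - β) ∧
      yc P = y₀ + s * ((s - α) * (s - β)) ∧ tt x₀ y₀ α β P = (s - α) / (s - β) := by
  have e := h.eqn hP
  have hx := h.x_ne hP
  obtain ⟨s, hs⟩ : ∃ s, yc P - y₀ = s * (xc P - x₀) := ⟨_, (div_mul_cancel₀ _ hx).symm⟩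
  have e1 : xc P - x₀ = (s - α) * (s - β) :=
    mul_left_cancel₀ (pow_ne_zero 2 hx) (by rw [hs] at e; linear_combination -e)
  have e2 := mul_ne_zero_iff.1 (e1 ▸ hx)
  refine ⟨s, e2.1, e2.2, by linear_combination e1, by rw [← e1]; linear_combination hs, ?_⟩
  rw [tt_of_ne hP, hs, ← sub_mul, ← sub_mul, mul_div_mul_right _ _ hx]

variable [DecidableEq k]

lemma Node.tt_add_gen (h : Node U x₀ y₀ α β) {P Q : U.Point} (hP : P ≠ 0) (hQ : Q ≠ 0)
    (hx : xc P ≠ xc Q) : tt x₀ y₀ α β (P + Q) = tt x₀ y₀ α β P * tt x₀ y₀ α β Q := by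
  obtain ⟨a0, a1, a2⟩ := add_coords hP hQ fun e => hx e.1
  obtain ⟨s, s1, s2, s3, s4, s5⟩ := h.exists_slope hP
  obtain ⟨r, r1, r2, r3, r4, r5⟩ := h.exists_slope hQ
  rw [tt_of_ne a0, s5, r5, div_mul_div_comm, div_eq_div_iff (h.u_ne a0).2 (mul_ne_zero s2 r2),
    a2, a1]
  obtain ⟨l, hl⟩ : ∃ l, l = U.slope (xc P) (xc Q) (yc P) (yc Q) := ⟨_, rfl⟩
  rw [← hl]
  rw [Affine.slope_of_X_ne hx, eq_div_iff (sub_ne_zero.2 hx), s3, s4, r3, r4] at hl
  have d : (s - r) * (s + r - α - β) ≠ 0 := fun e => hx (by rw [s3, r3]; linear_combination e)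
  have hl' : l * (s + r - α - β) = s ^ 2 + s * r + r ^ 2 - (α + β) * (s + r) + α * β :=
    mul_left_cancel₀ (left_ne_zero_of_mul d) (by linear_combination hl)
  have d2 := right_ne_zero_of_mul d
  obtain rfl : l = (s ^ 2 + s * r + r ^ 2 - (α + β) * (s + r) + α * β) / (s + r - α - β) :=
    eq_div_of_mul_eq d2 hl'
  simp only [Affine.addY, Affine.negAddY, Affine.negY, Affine.addX, s3, s4, r3, h.h1, h.h2, h.h3]
  field_simp
  ring

variable [IsAlgClosed k]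

lemma Node.tt_add (h : Node U x₀ y₀ α β) (P Q : U.Point) :
    tt x₀ y₀ α β (P + Q) = tt x₀ y₀ α β P * tt x₀ y₀ α β Q := by
  have := infinite_pt h.sep
  have := add_of_generic (fun P => Additive.ofMul (Units.mk0 _ (h.tt_ne P))) (fun P => ?_) P Q
  · exact congrArg (fun u => ((Additive.toMul u : kˣ) : k)) this
  by_cases hP : P = 0
  · refine Eventually.of_forall fun Q => ?_
    rw [← ofMul_mul]
    congr 1
    ext
    simp [hP, tt_zero]
  · filter_upwards [ev_ne_zero U, (tendsto_xc U).eventually (eventually_cofinite_ne (xc P))]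
      with Q h1 h2
    rw [← ofMul_mul]
    congr 1
    ext
    simp [h.tt_add_gen hP h1 h2.symm]

lemma Node.tt_neg (h : Node U x₀ y₀ α β) (P : U.Point) :
    tt x₀ y₀ α β (-P) = (tt x₀ y₀ α β P)⁻¹ :=
  eq_inv_of_mul_eq_one_left (by rw [← h.tt_add, neg_add_cancel, tt_zero])

lemma Node.tt_zsmul (h : Node U x₀ y₀ α β) (n : ℤ) (P : U.Point) :
    tt x₀ y₀ α β (n • P) = tt x₀ y₀ α β P ^ n := by
  induction n using Int.induction_on with
  | zero => simp [tt_zero]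
  | succ n ih => rw [add_zsmul, one_zsmul, h.tt_add, ih, zpow_add_one₀ (h.tt_ne P)]
  | pred n ih => rw [sub_zsmul, one_zsmul, h.tt_add, ih, h.tt_neg, zpow_sub_one₀ (h.tt_ne P)]

lemma Node.tt_injective (h : Node U x₀ y₀ α β) : Function.Injective (tt x₀ y₀ α β : U.Point → k) :=
  fun P Q e => by
    by_contra hne
    refine h.tt_ne_one (sub_ne_zero.2 hne) ?_
    rw [sub_eq_add_neg, h.tt_add, h.tt_neg, e, mul_inv_cancel₀ (h.tt_ne Q)]

lemma Node.ev_eval (h : Node U x₀ y₀ α β) {p : k[X]} (hp : p ≠ 0) :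
    ∀ᶠ P : U.Point in cofinite, p.eval (tt x₀ y₀ α β P) ≠ 0 :=
  h.tt_injective.tendsto_cofinite.eventually (ev_eval_ne hp)

lemma Node.zpow_inj (h : Node U x₀ y₀ α β) {m n : ℤ}
    (e : ∀ P : U.Point, tt x₀ y₀ α β P ^ m = tt x₀ y₀ α β P ^ n) : m = n := by
  have := infinite_pt h.sep
  by_contra hne
  obtain ⟨P, hP⟩ := (h.ev_eval (X_pow_sub_C_ne_zero (n := (m - n).natAbs)
    (Int.natAbs_pos.2 (sub_ne_zero.2 hne)) 1)).exists
  refine hP ?_
  have e1 : tt x₀ y₀ α β P ^ (m - n) = 1 := by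
    rw [zpow_sub₀ (h.tt_ne P), e, div_self (zpow_ne_zero _ (h.tt_ne P))]
  rw [eval_sub, eval_pow, eval_X, eval_C, sub_eq_zero, ← zpow_natCast]
  rcases Int.natAbs_eq (m - n) with e2 | e2
  · rw [← e2, e1]
  · rw [← inv_inj, ← zpow_neg, ← e2, e1, inv_one]

lemma Node.zsmul_ne (h : Node U x₀ y₀ α β) {n : ℤ} (hn : n ≠ 0) :
    n • AddMonoidHom.id U.Point ≠ 0 := fun e =>
  hn (h.zpow_inj fun P => by
    have := DFunLike.congr_fun e P
    simp only [AddMonoidHom.smul_apply, AddMonoidHom.id_apply, AddMonoidHom.zero_apply] at this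
    rw [← h.tt_zsmul, this, tt_zero, zpow_zero])

/-- A rational function of the parameter `t`. -/
def LR (t f : U.Point → k) : Prop :=
  ∃ p q : k[X], q ≠ 0 ∧ ∀ᶠ P in cofinite, f P = p.eval (t P) / q.eval (t P)

section LR

omit [DecidableEq k] [IsAlgClosed k]

variable {t f g : U.Point → k}

lemma LR.congr (h : LR t f) (e : ∀ᶠ P in cofinite, f P = g P) : LR t g := by
  obtain ⟨p, q, h0, h⟩ := h
  exact ⟨p, q, h0, by filter_upwards [h, e] with P e1 e2; rw [← e2, e1]⟩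

lemma lr_div (p : k[X]) {q : k[X]} (hq : q ≠ 0) : LR t fun P => p.eval (t P) / q.eval (t P) :=
  ⟨p, q, hq, Eventually.of_forall fun _ => rfl⟩

lemma lr_const (a : k) : LR t fun _ => a :=
  ⟨C a, 1, one_ne_zero, Eventually.of_forall fun _ => by simp⟩

lemma LR.add (ht : Tendsto t cofinite cofinite) (h : LR t f) (h' : LR t g) :
    LR t fun P => f P + g P := by
  obtain ⟨p, q, h0, h⟩ := h
  obtain ⟨p', q', h0', h'⟩ := h'
  refine ⟨p * q' + q * p', q * q', mul_ne_zero h0 h0', ?_⟩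
  filter_upwards [h, h', ht.eventually (ev_eval_ne h0), ht.eventually (ev_eval_ne h0')]
    with P e1 e2 e3 e4
  rw [e1, e2, div_add_div _ _ e3 e4, eval_add, eval_mul, eval_mul, eval_mul]

lemma LR.mul (h : LR t f) (h' : LR t g) : LR t fun P => f P * g P := by
  obtain ⟨p, q, h0, h⟩ := h
  obtain ⟨p', q', h0', h'⟩ := h'
  refine ⟨p * p', q * q', mul_ne_zero h0 h0', ?_⟩
  filter_upwards [h, h'] with P e1 e2
  rw [e1, e2, div_mul_div_comm, eval_mul, eval_mul]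

lemma LR.inv (h : LR t f) : LR t fun P => (f P)⁻¹ := by
  obtain ⟨p, q, h0, h⟩ := h
  by_cases hp : p = 0
  · exact (lr_const 0).congr (h.mono fun P e => by simp [e, hp])
  · exact ⟨q, p, hp, h.mono fun P e => by simp only [e, inv_div]⟩

lemma LR.eval (ht : Tendsto t cofinite cofinite) (h : LR t f) (p : k[X]) :
    LR t fun P => p.eval (f P) := by
  induction p using Polynomial.induction_on with
  | C a => simpa using lr_const a
  | add p q hp hq => simpa using hp.add ht hq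
  | monomial n a ih => simpa [pow_succ, mul_assoc] using ih.mul h

end LR

lemma Node.lr (h : Node U x₀ y₀ α β) {S : Subring k} {u : U.Point → k} (hu : IsRat S u) :
    LR (tt x₀ y₀ α β) u := by
  have ht := h.tt_injective.tendsto_cofinite
  have n1 : (1 - X : k[X]) ≠ 0 := fun e => by simpa using congrArg (eval 0) e
  have key : ∀ᶠ P : U.Point in cofinite, ∃ s, xc P = x₀ + (s - α) * (s - β) ∧
      yc P = y₀ + s * ((s - α) * (s - β)) ∧
      s = (C α - C β * X).eval (tt x₀ y₀ α β P) / (1 - X : k[X]).eval (tt x₀ y₀ α β P) := by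
    filter_upwards [ev_ne_zero U] with P hP
    obtain ⟨s, s1, s2, s3, s4, s5⟩ := h.exists_slope hP
    refine ⟨s, s3, s4, ?_⟩
    have := sub_ne_zero.2 (h.tt_ne_one hP).symm
    simp only [eval_sub, eval_mul, eval_C, eval_X, eval_one]
    rw [eq_div_iff this, s5]
    field_simp
    ring
  have ls := lr_div (t := (tt x₀ y₀ α β : U.Point → k)) (C α - C β * X) n1
  have lq := (ls.add ht (lr_const (-α))).mul (ls.add ht (lr_const (-β)))
  have lx : LR (tt x₀ y₀ α β) (xc : U.Point → k) := ((lr_const x₀).add ht lq).congr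
    (key.mono fun P ⟨s, e1, _, e3⟩ => by rw [← e3, e1]; ring)
  have ly : LR (tt x₀ y₀ α β) (yc : U.Point → k) := ((lr_const y₀).add ht (ls.mul lq)).congr
    (key.mono fun P ⟨s, _, e2, e3⟩ => by rw [← e3, e2]; ring)
  obtain ⟨a, -, b, -, c, -, -, e⟩ := hu
  exact (((lx.eval ht a).add ht ((lx.eval ht b).mul ly)).mul (lx.eval ht c).inv).congr
    (e.mono fun P e => by rw [e, div_eq_mul_inv])

omit [DecidableEq k] in
lemma eq_monomial_of_roots {p : k[X]} (hp : p ≠ 0) (h : ∀ r, r ≠ 0 → p.eval r ≠ 0) :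
    ∃ a n, p = X ^ n * C a := by
  obtain ⟨q, e, hq⟩ := exists_eq_pow_rootMultiplicity_mul_and_not_dvd p hp 0
  rw [map_zero, sub_zero] at e hq
  refine ⟨q.coeff 0, rootMultiplicity 0 p, e.trans ?_⟩
  congr 1
  refine eq_C_of_degree_eq_zero (by_contra fun hd => ?_)
  obtain ⟨r, hr⟩ := IsAlgClosed.exists_root q hd
  by_cases r0 : r = 0
  · exact hq (X_dvd_iff.2 (by rw [coeff_zero_eq_eval_zero]; subst r0; exact hr))
  · exact h r r0 (by rw [e, eval_mul, hr.eq_zero, mul_zero])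

omit [IsAlgClosed k] [DecidableEq k] in
lemma isRat_tt {S : Subring k} (o : Over S U) (hx : x₀ ∈ S) (hy : y₀ ∈ S) (ha : α ∈ S)
    (hb : β ∈ S) : IsRat S (tt x₀ y₀ α β : U.Point → k) :=
  (((isRat_yc.sub (isRat_const hy)).sub ((isRat_const ha).mul o (isRat_xc.sub
    (isRat_const hx)))).div o ((isRat_yc.sub (isRat_const hy)).sub ((isRat_const hb).mul o
      (isRat_xc.sub (isRat_const hx))))).congr
    ((ev_ne_zero U).mono fun _ hP => (tt_of_ne hP).symm)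

/-- An algebraic additive map between nodal cubics is a power map. -/
theorem Node.exists_zpow (h : Node U x₀ y₀ α β) (h' : Node U' x₁ y₁ γ δ) {ψ : U.Point →+ U'.Point}
    (hψ : IsAlg ⊤ ψ) : ∃ n : ℤ, ∀ P, tt x₁ y₁ γ δ (ψ P) = tt x₀ y₀ α β P ^ n := by
  have := infinite_pt h.sep
  obtain ⟨p₀, q₀, q0, e0⟩ := h.lr ((isRat_tt (over_top U') (x₀ := x₁) (y₀ := y₁) (α := γ) (β := δ)
    trivial trivial trivial trivial).comp (over_top _) hψ)
  obtain ⟨p, q, n, hpq, hq, e1⟩ := exists_prim p₀ q0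
  have e : ∀ᶠ P in cofinite, tt x₁ y₁ γ δ (ψ P) * q.eval (tt x₀ y₀ α β P) =
      p.eval (tt x₀ y₀ α β P) := by
    filter_upwards [e0, h.ev_eval q0] with P e2 e3
    rw [e2, div_mul_eq_mul_div, div_eq_iff e3, ← eval_mul, e1, eval_mul]
  have hp : p ≠ 0 := fun e2 => by
    obtain ⟨P, e3, e4⟩ := (e.and (h.ev_eval hq)).exists
    rw [e2, eval_zero] at e3
    exact mul_ne_zero (h'.tt_ne _) e4 e3
  have key : ∀ (T : U.Point) (r : k), p.eval (r * tt x₀ y₀ α β T) * q.eval r =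
      tt x₁ y₁ γ δ (ψ T) * p.eval r * q.eval (r * tt x₀ y₀ α β T) := fun T r => by
    have : p.comp (X * C (tt x₀ y₀ α β T)) * q -
        C (tt x₁ y₁ γ δ (ψ T)) * p * q.comp (X * C (tt x₀ y₀ α β T)) = 0 := by
      by_contra hne
      obtain ⟨P, e2, e3, e4⟩ := (e.and ((ev_add_left e T).and (h.ev_eval hne))).exists
      refine e4 ?_
      rw [map_add, h.tt_add, h'.tt_add, mul_comm (tt x₀ y₀ α β T)] at e3
      simp only [eval_sub, eval_mul, eval_comp, eval_C, eval_X]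
      rw [← e2, ← e3]
      ring
    have := congrArg (eval r) this
    simpa only [eval_sub, eval_mul, eval_comp, eval_C, eval_X, eval_zero, sub_eq_zero] using this
  have gen : ∀ {f : k[X]}, f ≠ 0 → ∀ {r : k}, r ≠ 0 → ∃ T : U.Point,
      f.eval (r * tt x₀ y₀ α β T) ≠ 0 := fun {f} hf {r} hr =>
    (((mul_right_injective₀ hr).comp h.tt_injective).tendsto_cofinite.eventually
      (ev_eval_ne hf)).exists
  obtain ⟨a, i, rfl⟩ := eq_monomial_of_roots hp fun r hr e2 => by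
    obtain ⟨T, hT⟩ := gen hp hr
    have := key T r
    rw [e2, mul_zero, zero_mul] at this
    exact mul_ne_zero hT ((hpq.fin2 r).resolve_left (not_not.2 e2)) this
  obtain ⟨b, j, rfl⟩ := eq_monomial_of_roots hq fun r hr e2 => by
    obtain ⟨T, hT⟩ := gen hq hr
    have := key T r
    rw [e2, mul_zero] at this
    exact mul_ne_zero (mul_ne_zero (h'.tt_ne _) ((hpq.fin2 r).resolve_right (not_not.2 e2))) hT
      this.symm
  refine ⟨i - j, fun P => ?_⟩
  have := key P 1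
  simp only [eval_mul, eval_pow, eval_X, eval_C, one_mul, one_pow] at this
  have a0 : a ≠ 0 := fun e => hp (by simp [e])
  have b0 : b ≠ 0 := fun e => hq (by simp [e])
  rw [zpow_sub₀ (h.tt_ne P), zpow_natCast, zpow_natCast, eq_div_iff (pow_ne_zero _ (h.tt_ne P))]
  exact mul_right_cancel₀ (mul_ne_zero a0 b0) (by linear_combination -this)

/-- Rationality of the tangent slopes is preserved by algebraic additive maps. -/
theorem Node.slope_mem (h : Node U x₀ y₀ α β) (h' : Node U' x₁ y₁ γ δ) {S : Subring k}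
    (hS : ∀ x ∈ S, x⁻¹ ∈ S) (o : Over S U) (o' : Over S U') (hx : x₀ ∈ S) (ha : α ∈ S)
    (hb : β ∈ S) (hx' : x₁ ∈ S) {ψ : U.Point →+ U'.Point} (hψ : IsAlg S ψ) : γ ∈ S := by
  have := infinite_pt h.sep
  obtain ⟨n, hn⟩ := h.exists_zpow h' hψ.top
  have r1 := isRat_tt o hx (h.y_mem hS o hx) ha hb
  have r2 : IsRat S fun P => tt x₁ y₁ γ δ (ψ P) := by
    simp only [hn]
    obtain ⟨m, rfl | rfl⟩ := n.eq_nat_or_neg
    · simpa using r1.pow o m
    · simpa using (r1.pow o m).inv o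
  have r3 := (hψ.hy.sub (isRat_const (h'.y_mem hS o' hx'))).div o (hψ.hx.sub (isRat_const hx'))
  refine ((r3.sub (r2.mul o (r3.add (isRat_const o'.h1)))).div o
    (r2.add (isRat_const (one_mem S)))).const_mem hS ?_
  filter_upwards [hψ.ne, (h'.tt_injective.tendsto_cofinite.comp hψ.tendsto).eventually
    (eventually_cofinite_ne (-1))] with P e1 e2
  obtain ⟨s, s1, s2, s3, s4, s5⟩ := h'.exists_slope e1
  have e3 : tt x₁ y₁ γ δ (ψ P) + 1 ≠ 0 := fun e => e2 (eq_neg_of_add_eq_zero_left e)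
  rw [div_eq_iff e3, s3, s4, s5, h'.h1, add_sub_cancel_left, add_sub_cancel_left,
    mul_div_cancel_right₀ _ (mul_ne_zero s1 s2)]
  field_simp
  ring

lemma Node.deg_two (h : Node U x₀ y₀ α β) :
    deg (AddMonoidHom.id U.Point + AddMonoidHom.id U.Point) = 2 := by
  have d := sub_ne_zero.2 h.ne
  refine deg_eq h.sep ⟨X ^ 2 + C (2 * x₀) * X + C (x₀ * (α - β) ^ 2 - 3 * x₀ ^ 2),
    C 4 * X + C ((α - β) ^ 2 - 4 * x₀), prim_two (fun x => ?_) (by compute_degree)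
      (by compute_degree!) (Or.inl (by
        simp only [coeff_add, coeff_X_pow, coeff_C_mul, coeff_X, coeff_C]; simp)), fun e => ?_, ?_⟩
  · by_contra hc
    push Not at hc
    simp only [eval_add, eval_mul, eval_pow, eval_C, eval_X] at hc
    have : x - x₀ = 0 := pow_eq_zero_iff (two_ne_zero) |>.1 (by linear_combination hc.1 - x₀ * hc.2)
    exact pow_ne_zero 2 d (by linear_combination hc.2 - 4 * this)
  · have := congrArg (eval x₀) e
    simp only [eval_add, eval_mul, eval_C, eval_X, eval_zero] at this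
    exact pow_ne_zero 2 d (by linear_combination this)
  · filter_upwards [ev_ne_zero U, ev_Y_ne h.sep] with P e1 e2
    have e4 := (xc_two e1 e2).2
    have e5 := eval_Psi U (nonsing e1).1
    simp only [Ψ₂Sq, eval_add, eval_mul, eval_C, eval_pow, eval_X] at e5
    have e6 : 4 * xc P ^ 3 + U.b₂ * xc P ^ 2 + 2 * U.b₄ * xc P + U.b₆ =
        (xc P - x₀) ^ 2 * (4 * xc P + ((α - β) ^ 2 - 4 * x₀)) := by
      simp only [b₂, b₄, b₆, h.h1, h.h2, h.h3, h.h4, h.h6]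
      ring
    have e7 : 4 * xc P + ((α - β) ^ 2 - 4 * x₀) ≠ 0 := fun e =>
      pow_ne_zero 2 e2 (by rw [← e5, e6, e, mul_zero])
    simp only [eval_add, eval_mul, eval_C, eval_pow, eval_X, AddMonoidHom.add_apply,
      AddMonoidHom.id_apply]
    rw [eq_div_iff e7]
    refine mul_left_cancel₀ (pow_ne_zero 2 (h.x_ne e1)) ?_
    rw [e6] at e4
    simp only [b₄, b₆, b₈, h.h1, h.h2, h.h3, h.h4, h.h6] at e4
    linear_combination e4

/-- There is no algebraic additive map from a nodal cubic to an elliptic curve. -/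
theorem Node.not_isAlg (h : Node U x₀ y₀ α β) (hΔ : U'.Δ ≠ 0) {ψ : U.Point →+ U'.Point}
    (hψ : IsAlg ⊤ ψ) : False := by
  have hU : Sep U' := sep_of_c4 (Or.inr hΔ)
  have d1 := deg_comp h.sep h.sep (Or.inr hψ) (Or.inr (isAlg_two h.sep))
  have d2 := deg_comp hU h.sep (Or.inr (isAlg_two hU)) (Or.inr hψ)
  rw [h.deg_two] at d1
  rw [MP_02f36d_nt.deg_two hΔ, show (AddMonoidHom.id U'.Point + AddMonoidHom.id U'.Point).comp ψ =
    ψ.comp (AddMonoidHom.id U.Point + AddMonoidHom.id U.Point) by ext; simp, d1] at d2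
  have := hψ.deg_pos h.sep
  omega

end Pool.Agent.Lib.MP_02f36d_nt
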