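import Mathlib

/-!
Rational functions on the points of a Weierstrass curve over an algebraically closed field,
as functions defined outside finite sets; algebraic additive maps between groups of points.
-/

namespace Pool.Agent.Lib.MP_02f36d_nt

open Polynomial WeierstrassCurve Filter

section Group

variable {A B : Type*} [AddCommGroup A] [AddCommGroup B]

lemma ev_add_left {p : A → Prop} (h : ∀ᶠ P in cofinite, p P) (T : A) :
    ∀ᶠ P in cofinite, p (T + P) :=
  (add_right_injective T).tendsto_cofinite.eventually h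

lemma ev_neg {p : A → Prop} (h : ∀ᶠ P in cofinite, p P) : ∀ᶠ P in cofinite, p (-P) :=
  neg_injective.tendsto_cofinite.eventually h

/-- A map that is additive for generic second argument is additive. -/
lemma add_of_generic [Infinite A] (f : A → B)
    (h : ∀ P, ∀ᶠ Q in cofinite, f (P + Q) = f P + f Q) (P Q : A) : f (P + Q) = f P + f Q := by
  obtain ⟨T, h1, h2, h3⟩ := ((h (P + Q)).and ((ev_add_left (h P) Q).and (h Q))).exists
  rw [add_assoc, h2, h3, ← add_assoc] at h1
  exact (add_right_cancel h1).symm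

lemma hom_eq_zero_of_ev [Infinite A] (f : A →+ B) (h : ∀ᶠ P in cofinite, f P = 0) : f = 0 := by
  ext P
  obtain ⟨T, h1, h2⟩ := (h.and (ev_add_left h P)).exists
  rw [map_add, h1, add_zero] at h2
  simpa using h2

lemma hom_eq_of_ev [Infinite A] (f g : A →+ B) (h : ∀ᶠ P in cofinite, f P = g P) : f = g := by
  rw [← sub_eq_zero]
  exact hom_eq_zero_of_ev _ (h.mono fun P hP => by simp [hP])

lemma tendsto_of_ev_ne (f : A →+ B) (h : ∀ᶠ P in cofinite, f P ≠ 0) :
    Tendsto f cofinite cofinite := by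
  refine Tendsto.cofinite_of_finite_preimage_singleton fun b => ?_
  by_cases hb : ∃ P, f P = b
  · obtain ⟨P, rfl⟩ := hb
    have h1 := ev_add_left h (-P)
    rw [eventually_cofinite] at h1
    refine Set.Finite.subset h1 fun Q hQ => ?_
    simp only [Set.mem_preimage, Set.mem_singleton_iff] at hQ
    simp [hQ]
  · have : f ⁻¹' {b} = ∅ := by
      ext P
      simp only [Set.mem_preimage, Set.mem_singleton_iff, Set.mem_empty_iff_false, iff_false]
      exact fun h => hb ⟨P, h⟩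
    rw [this]
    infer_instance

end Group

variable {F : Type*} [Field F]

/-- The x-coordinate (zero at infinity). -/
def xc {V : Affine F} : V.Point → F
  | .zero => 0
  | .some x _ _ => x

/-- The y-coordinate (zero at infinity). -/
def yc {V : Affine F} : V.Point → F
  | .zero => 0
  | .some _ y _ => y

@[simp] lemma xc_some {V : Affine F} {x y : F} (h : V.Nonsingular x y) :
    xc (.some x y h) = x := rfl
@[simp] lemma yc_some {V : Affine F} {x y : F} (h : V.Nonsingular x y) :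
    yc (.some x y h) = y := rfl

lemma exists_some {V : Affine F} {P : V.Point} (h : P ≠ 0) :
    ∃ x y, ∃ h : V.Nonsingular x y, P = .some x y h := by
  rcases P with _ | ⟨x, y, hxy⟩
  · exact absurd rfl h
  · exact ⟨x, y, hxy, rfl⟩

lemma nonsing {V : Affine F} {P : V.Point} (h : P ≠ 0) : V.Nonsingular (xc P) (yc P) := by
  obtain ⟨x, y, hxy, rfl⟩ := exists_some h
  exact hxy

lemma eqn {V : Affine F} {P : V.Point} (h : P ≠ 0) :
    yc P ^ 2 + V.a₁ * xc P * yc P + V.a₃ * yc P =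
      xc P ^ 3 + V.a₂ * xc P ^ 2 + V.a₄ * xc P + V.a₆ :=
  (Affine.equation_iff _ _).1 (nonsing h).1

lemma pt_ext {V : Affine F} {P Q : V.Point} (hP : P ≠ 0) (hQ : Q ≠ 0) (hx : xc P = xc Q)
    (hy : yc P = yc Q) : P = Q := by
  obtain ⟨x, y, hxy, rfl⟩ := exists_some hP
  obtain ⟨x', y', hxy', rfl⟩ := exists_some hQ
  simp only [xc_some, yc_some] at hx hy
  subst hx hy
  rfl

lemma xc_neg {V : Affine F} (P : V.Point) : xc (-P) = xc P := by
  rcases P with _ | ⟨x, y, hxy⟩ <;> rfl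

lemma yc_neg {V : Affine F} {P : V.Point} (h : P ≠ 0) :
    yc (-P) = -yc P - V.a₁ * xc P - V.a₃ := by
  obtain ⟨x, y, hxy, rfl⟩ := exists_some h
  rfl

lemma eq_or_neg_of_xc {V : Affine F} {P Q : V.Point} (hP : P ≠ 0) (hQ : Q ≠ 0)
    (hx : xc P = xc Q) : P = Q ∨ P = -Q := by
  obtain ⟨x, y, hxy, rfl⟩ := exists_some hP
  obtain ⟨x', y', hxy', rfl⟩ := exists_some hQ
  exact Affine.Point.X_eq_iff.1 hx

lemma tendsto_xc (V : Affine F) : Tendsto (xc : V.Point → F) cofinite cofinite := by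
  refine Tendsto.cofinite_of_finite_preimage_singleton fun b => ?_
  by_cases hb : ∃ P : V.Point, P ≠ 0 ∧ xc P = b
  · obtain ⟨P, hP, rfl⟩ := hb
    refine Set.Finite.subset (Set.toFinite {0, P, -P}) fun Q hQ => ?_
    simp only [Set.mem_preimage, Set.mem_singleton_iff] at hQ
    by_cases hQ0 : Q = 0
    · simp [hQ0]
    · rcases eq_or_neg_of_xc hQ0 hP hQ with h | h <;> simp [h]
  · refine Set.Finite.subset (Set.toFinite {0}) fun Q hQ => ?_
    simp only [Set.mem_preimage, Set.mem_singleton_iff] at hQ ⊢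
    by_contra h
    exact hb ⟨Q, h, hQ⟩

lemma ev_ne_zero (V : Affine F) : ∀ᶠ P : V.Point in cofinite, P ≠ 0 :=
  eventually_cofinite_ne 0

lemma ev_eval_ne {p : F[X]} (hp : p ≠ 0) : ∀ᶠ x in cofinite, p.eval x ≠ 0 := by
  classical
  rw [eventually_cofinite]
  refine Set.Finite.subset (p.roots.toFinset.finite_toSet) fun x hx => ?_
  simp only [ne_eq, not_not, Set.mem_setOf_eq] at hx
  simp [hp, hx]

lemma ev_eval_xc_ne (V : Affine F) {p : F[X]} (hp : p ≠ 0) :
    ∀ᶠ P : V.Point in cofinite, p.eval (xc P) ≠ 0 :=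
  (tendsto_xc V).eventually (ev_eval_ne hp)

/-- The 2-division polynomial is nonzero. -/
def Sep (V : Affine F) : Prop := V.Ψ₂Sq ≠ 0

lemma eval_Psi (V : Affine F) {x y : F} (h : V.Equation x y) :
    V.Ψ₂Sq.eval x = (2 * y + V.a₁ * x + V.a₃) ^ 2 := by
  rw [Affine.equation_iff] at h
  simp only [Ψ₂Sq, eval_add, eval_mul, eval_C, eval_pow, eval_X, b₂, b₄, b₆]
  linear_combination (-4) * h

lemma sep_of_c4 {V : Affine F} (h : V.c₄ ≠ 0 ∨ V.Δ ≠ 0) : Sep V := by
  intro h0
  have h3 := congrArg (coeff · 3) h0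
  have h2 := congrArg (coeff · 2) h0
  have h1 := congrArg (coeff · 0) h0
  simp only [Ψ₂Sq, coeff_add, coeff_C_mul, coeff_X_pow, coeff_X, coeff_C] at h3 h2 h1
  norm_num at h3 h2 h1
  have h22 : (2 : F) = 0 := by
    have : (2 : F) * 2 = 0 := by linear_combination h3
    exact (mul_self_eq_zero).1 this
  rcases h with h | h
  · apply h
    rw [c₄, h2]
    linear_combination (-12 * V.b₄) * h22
  · apply h
    rw [Δ, h2, h1]
    linear_combination (-4 * V.b₄ ^ 3) * h22

lemma exists_eqn [IsAlgClosed F] (V : Affine F) (x : F) : ∃ y, V.Equation x y := by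
  obtain ⟨y, hy⟩ := IsAlgClosed.exists_root
    (X ^ 2 + C (V.a₁ * x + V.a₃) * X - C (x ^ 3 + V.a₂ * x ^ 2 + V.a₄ * x + V.a₆) : F[X]) (by
      have : (X ^ 2 + C (V.a₁ * x + V.a₃) * X -
          C (x ^ 3 + V.a₂ * x ^ 2 + V.a₄ * x + V.a₆) : F[X]).degree = 2 := by
        compute_degree!
      rw [this]; decide)
  refine ⟨y, (Affine.equation_iff _ _).2 ?_⟩
  simp only [IsRoot.def, eval_sub, eval_add, eval_pow, eval_X, eval_mul, eval_C] at hy
  linear_combination hy

lemma ev_exists_pt [IsAlgClosed F] {V : Affine F} (hV : Sep V) :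
    ∀ᶠ x in cofinite, ∃ P : V.Point, P ≠ 0 ∧ xc P = x := by
  refine (ev_eval_ne hV).mono fun x hx => ?_
  obtain ⟨y, hy⟩ := exists_eqn V x
  rw [eval_Psi V hy] at hx
  have h : V.Nonsingular x y :=
    (Affine.nonsingular_iff' _ _).2 ⟨hy, Or.inr fun h => hx (by rw [h]; ring)⟩
  exact ⟨.some x y h, Affine.Point.some_ne_zero h, rfl⟩

/-- A statement about x-coordinates of almost all points holds for almost all elements. -/
lemma ev_of_ev_xc [IsAlgClosed F] {V : Affine F} (hV : Sep V) {p : F → Prop}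
    (h : ∀ᶠ P : V.Point in cofinite, p (xc P)) : ∀ᶠ x in cofinite, p x := by
  have h2 := ev_exists_pt hV
  rw [eventually_cofinite] at h h2 ⊢
  refine Set.Finite.subset ((h.image xc).union h2) fun x hx => ?_
  by_cases hx2 : ∃ P : V.Point, P ≠ 0 ∧ xc P = x
  · obtain ⟨P, -, rfl⟩ := hx2
    exact Or.inl ⟨P, hx, rfl⟩
  · exact Or.inr hx2

lemma infinite_pt [IsAlgClosed F] {V : Affine F} (hV : Sep V) : Infinite V.Point := by
  by_contra h
  rw [not_infinite_iff_finite] at h
  have h1 : ∀ᶠ P : V.Point in cofinite, (fun _ : F => False) (xc P) := by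
    rw [eventually_cofinite]; exact Set.toFinite _
  exact (ev_of_ev_xc hV h1).exists.elim fun _ h => h

lemma poly_eq_zero_of_ev [Infinite F] {p : F[X]} (h : ∀ᶠ x in cofinite, p.eval x = 0) : p = 0 := by
  by_contra hp
  exact (h.and (ev_eval_ne hp)).exists.elim fun _ h => h.2 h.1

lemma poly_eq_zero_of_ev_xc [IsAlgClosed F] {V : Affine F} (hV : Sep V) {p : F[X]}
    (h : ∀ᶠ P : V.Point in cofinite, p.eval (xc P) = 0) : p = 0 :=
  poly_eq_zero_of_ev (ev_of_ev_xc hV (p := fun x => p.eval x = 0) h)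

lemma ev_Y_ne {V : Affine F} (hV : Sep V) :
    ∀ᶠ P : V.Point in cofinite, 2 * yc P + V.a₁ * xc P + V.a₃ ≠ 0 := by
  filter_upwards [ev_eval_xc_ne V hV, ev_ne_zero V] with P h1 h2
  rw [eval_Psi V (nonsing h2).1] at h1
  exact fun h => h1 (by rw [h]; ring)

/-- The norm of `a + b y`. -/
noncomputable def nrm (V : Affine F) (a b : F[X]) : F[X] :=
  a ^ 2 - a * b * (C V.a₁ * X + C V.a₃) - b ^ 2 * (X ^ 3 + C V.a₂ * X ^ 2 + C V.a₄ * X + C V.a₆)

lemma nrm_ne_zero (V : Affine F) {a b : F[X]} (h : a ≠ 0 ∨ b ≠ 0) : nrm V a b ≠ 0 := by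
  intro h0
  have h1 := Affine.CoordinateRing.degree_norm_smul_basis (W' := V) a b
  rw [Affine.CoordinateRing.norm_smul_basis] at h1
  change (nrm V a b).degree = _ at h1
  rw [h0, degree_zero, eq_comm, max_eq_bot] at h1
  rcases h with h | h
  · have := h1.1
    rw [degree_eq_natDegree h, two_nsmul, WithBot.add_eq_bot, or_self] at this
    exact WithBot.natCast_ne_bot _ this
  · have := h1.2
    rw [degree_eq_natDegree h, two_nsmul, WithBot.add_eq_bot, WithBot.add_eq_bot, or_self] at this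
    rcases this with h | h
    · exact WithBot.natCast_ne_bot _ h
    · exact WithBot.natCast_ne_bot 3 h

lemma eval_nrm {V : Affine F} (a b : F[X]) {P : V.Point} (h : P ≠ 0) :
    (nrm V a b).eval (xc P) = (a.eval (xc P) + b.eval (xc P) * yc P) *
      (a.eval (xc P) + b.eval (xc P) * (-yc P - V.a₁ * xc P - V.a₃)) := by
  simp only [nrm, eval_sub, eval_add, eval_mul, eval_pow, eval_C, eval_X]
  linear_combination (b.eval (xc P)) ^ 2 * eqn h

lemma ev_lin_ne (V : Affine F) {a b : F[X]} (h : a ≠ 0 ∨ b ≠ 0) :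
    ∀ᶠ P : V.Point in cofinite, a.eval (xc P) + b.eval (xc P) * yc P ≠ 0 := by
  filter_upwards [ev_eval_xc_ne V (nrm_ne_zero V h), ev_ne_zero V] with P h1 h2
  rw [eval_nrm a b h2] at h1
  exact left_ne_zero_of_mul h1

/-- Polynomials with coefficients in a subring. -/
noncomputable def PS (S : Subring F) : Subring F[X] := (mapRingHom S.subtype).range

lemma C_mem_PS {S : Subring F} {a : F} (h : a ∈ S) : C a ∈ PS S :=
  ⟨C ⟨a, h⟩, by simp⟩

lemma X_mem_PS (S : Subring F) : X ∈ PS S := ⟨X, by simp⟩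

lemma mem_PS_top (p : F[X]) : p ∈ PS (⊤ : Subring F) :=
  map_surjective _ (fun a => ⟨⟨a, trivial⟩, rfl⟩) p

/-- The coefficients of the curve lie in the subring. -/
structure Over (S : Subring F) (V : Affine F) : Prop where
  h1 : V.a₁ ∈ S
  h2 : V.a₂ ∈ S
  h3 : V.a₃ ∈ S
  h4 : V.a₄ ∈ S
  h6 : V.a₆ ∈ S

lemma over_top (V : Affine F) : Over ⊤ V := ⟨trivial, trivial, trivial, trivial, trivial⟩

/-- `u` agrees outside a finite set with `(a + b y) / c`. -/
def Rep3 {V : Affine F} (u : V.Point → F) (a b c : F[X]) : Prop :=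
  c ≠ 0 ∧ ∀ᶠ P in cofinite, u P = (a.eval (xc P) + b.eval (xc P) * yc P) / c.eval (xc P)

/-- `u` agrees outside a finite set with a rational function with coefficients in `S`. -/
def IsRat (S : Subring F) {V : Affine F} (u : V.Point → F) : Prop :=
  ∃ a ∈ PS S, ∃ b ∈ PS S, ∃ c ∈ PS S, Rep3 u a b c

variable {S : Subring F} {V V' V'' : Affine F}

lemma IsRat.congr {u w : V.Point → F} (h : IsRat S u) (e : ∀ᶠ P in cofinite, u P = w P) :
    IsRat S w := by
  obtain ⟨a, ha, b, hb, c, hc, h0, h⟩ := h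
  exact ⟨a, ha, b, hb, c, hc, h0, by filter_upwards [h, e] with P h1 h2; rw [← h2, h1]⟩

lemma IsRat.top {u : V.Point → F} (h : IsRat S u) : IsRat ⊤ u := by
  obtain ⟨a, -, b, -, c, -, h⟩ := h
  exact ⟨a, mem_PS_top _, b, mem_PS_top _, c, mem_PS_top _, h⟩

lemma isRat_const {a : F} (h : a ∈ S) : IsRat S (fun _ : V.Point => a) :=
  ⟨C a, C_mem_PS h, 0, zero_mem _, 1, one_mem _, one_ne_zero, Eventually.of_forall fun P => by simp⟩

lemma isRat_xc : IsRat S (xc : V.Point → F) :=
  ⟨X, X_mem_PS S, 0, zero_mem _, 1, one_mem _, one_ne_zero, Eventually.of_forall fun P => by simp⟩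

lemma isRat_yc : IsRat S (yc : V.Point → F) :=
  ⟨0, zero_mem _, 1, one_mem _, 1, one_mem _, one_ne_zero, Eventually.of_forall fun P => by simp⟩

lemma IsRat.add {u w : V.Point → F} (h : IsRat S u) (h' : IsRat S w) :
    IsRat S (fun P => u P + w P) := by
  obtain ⟨a, ha, b, hb, c, hc, h0, h⟩ := h
  obtain ⟨a', ha', b', hb', c', hc', h0', h'⟩ := h'
  refine ⟨a * c' + a' * c, add_mem (mul_mem ha hc') (mul_mem ha' hc), b * c' + b' * c,
    add_mem (mul_mem hb hc') (mul_mem hb' hc), c * c', mul_mem hc hc', mul_ne_zero h0 h0', ?_⟩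
  filter_upwards [h, h', ev_eval_xc_ne V h0, ev_eval_xc_ne V h0'] with P e1 e2 e3 e4
  simp only [e1, e2, eval_add, eval_mul]
  field_simp
  ring

lemma IsRat.neg {u : V.Point → F} (h : IsRat S u) : IsRat S (fun P => -u P) := by
  obtain ⟨a, ha, b, hb, c, hc, h0, h⟩ := h
  refine ⟨-a, neg_mem ha, -b, neg_mem hb, c, hc, h0, ?_⟩
  filter_upwards [h] with P e1
  simp only [e1, eval_neg]
  ring

lemma IsRat.sub {u w : V.Point → F} (h : IsRat S u) (h' : IsRat S w) :
    IsRat S (fun P => u P - w P) := by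
  simpa only [sub_eq_add_neg] using h.add h'.neg

lemma lin_mem (hV : Over S V) : C V.a₁ * X + C V.a₃ ∈ PS S :=
  add_mem (mul_mem (C_mem_PS hV.h1) (X_mem_PS S)) (C_mem_PS hV.h3)

lemma cub_mem (hV : Over S V) : X ^ 3 + C V.a₂ * X ^ 2 + C V.a₄ * X + C V.a₆ ∈ PS S :=
  add_mem (add_mem (add_mem (pow_mem (X_mem_PS S) _) (mul_mem (C_mem_PS hV.h2)
    (pow_mem (X_mem_PS S) _))) (mul_mem (C_mem_PS hV.h4) (X_mem_PS S))) (C_mem_PS hV.h6)

lemma IsRat.mul (hV : Over S V) {u w : V.Point → F} (h : IsRat S u) (h' : IsRat S w) :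
    IsRat S (fun P => u P * w P) := by
  obtain ⟨a, ha, b, hb, c, hc, h0, h⟩ := h
  obtain ⟨a', ha', b', hb', c', hc', h0', h'⟩ := h'
  refine ⟨a * a' + b * b' * (X ^ 3 + C V.a₂ * X ^ 2 + C V.a₄ * X + C V.a₆),
    add_mem (mul_mem ha ha') (mul_mem (mul_mem hb hb') (cub_mem hV)),
    a * b' + a' * b - b * b' * (C V.a₁ * X + C V.a₃),
    sub_mem (add_mem (mul_mem ha hb') (mul_mem ha' hb)) (mul_mem (mul_mem hb hb') (lin_mem hV)),
    c * c', mul_mem hc hc', mul_ne_zero h0 h0', ?_⟩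
  filter_upwards [h, h', ev_eval_xc_ne V h0, ev_eval_xc_ne V h0', ev_ne_zero V] with P e1 e2 e3 e4 e5
  simp only [e1, e2, eval_add, eval_mul, eval_sub, eval_pow, eval_C, eval_X]
  field_simp
  linear_combination (b.eval (xc P) * b'.eval (xc P)) * eqn e5

lemma IsRat.dich {u : V.Point → F} (h : IsRat S u) :
    (∀ᶠ P in cofinite, u P = 0) ∨ (∀ᶠ P in cofinite, u P ≠ 0) := by
  obtain ⟨a, -, b, -, c, -, h0, h⟩ := h
  by_cases hab : a ≠ 0 ∨ b ≠ 0
  · right
    filter_upwards [h, ev_lin_ne V hab, ev_eval_xc_ne V h0] with P e1 e2 e3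
    rw [e1]
    exact div_ne_zero e2 e3
  · left
    push Not at hab
    filter_upwards [h] with P e1
    simp [e1, hab.1, hab.2]

lemma IsRat.inv (hV : Over S V) {u : V.Point → F} (h : IsRat S u) :
    IsRat S (fun P => (u P)⁻¹) := by
  obtain ⟨a, ha, b, hb, c, hc, h0, h⟩ := h
  by_cases hab : a ≠ 0 ∨ b ≠ 0
  · refine ⟨c * (a - b * (C V.a₁ * X + C V.a₃)), mul_mem hc (sub_mem ha (mul_mem hb (lin_mem hV))),
      -(c * b), neg_mem (mul_mem hc hb), nrm V a b, sub_mem (sub_mem (pow_mem ha _)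
        (mul_mem (mul_mem ha hb) (lin_mem hV))) (mul_mem (pow_mem hb _) (cub_mem hV)),
      nrm_ne_zero V hab, ?_⟩
    filter_upwards [h, ev_eval_xc_ne V (nrm_ne_zero V hab), ev_eval_xc_ne V h0, ev_ne_zero V]
      with P e1 e2 e3 e4
    rw [eval_nrm a b e4] at e2 ⊢
    have e5 := left_ne_zero_of_mul e2
    have e6 := right_ne_zero_of_mul e2
    simp only [e1, eval_add, eval_mul, eval_sub, eval_C, eval_X, eval_neg]
    field_simp
    ring
  · push Not at hab
    refine (isRat_const (zero_mem S)).congr ?_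
    filter_upwards [h] with P e1
    simp [e1, hab.1, hab.2]

lemma IsRat.div (hV : Over S V) {u w : V.Point → F} (h : IsRat S u) (h' : IsRat S w) :
    IsRat S (fun P => u P / w P) := by
  simpa only [div_eq_mul_inv] using h.mul hV (h'.inv hV)

lemma IsRat.pow (hV : Over S V) {u : V.Point → F} (h : IsRat S u) (n : ℕ) :
    IsRat S (fun P => u P ^ n) := by
  induction n with
  | zero => simpa using isRat_const (one_mem S)
  | succ n ih => simpa only [pow_succ] using ih.mul hV h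

lemma IsRat.eval (hV : Over S V) {u : V.Point → F} (h : IsRat S u) {p : F[X]} (hp : p ∈ PS S) :
    IsRat S (fun P => p.eval (u P)) := by
  obtain ⟨q, rfl⟩ := hp
  induction q using Polynomial.induction_on' with
  | add p q hp hq => simpa only [map_add, eval_add] using hp.add hq
  | monomial n a =>
    simpa [eval_monomial] using (isRat_const a.2).mul hV (h.pow hV n)

variable [DecidableEq F]

/-- A nonzero additive map given by rational functions with coefficients in `S`. -/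
structure IsAlg (S : Subring F) (f : V'.Point →+ V.Point) : Prop where
  ne : ∀ᶠ P in cofinite, f P ≠ 0
  hx : IsRat S fun P => xc (f P)
  hy : IsRat S fun P => yc (f P)

lemma IsAlg.top {f : V'.Point →+ V.Point} (h : IsAlg S f) : IsAlg ⊤ f :=
  ⟨h.ne, h.hx.top, h.hy.top⟩

lemma IsAlg.tendsto {f : V'.Point →+ V.Point} (h : IsAlg S f) : Tendsto f cofinite cofinite :=
  tendsto_of_ev_ne f h.ne

lemma IsAlg.ne_zero [Infinite V'.Point] {f : V'.Point →+ V.Point} (h : IsAlg S f) : f ≠ 0 := by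
  rintro rfl
  exact h.ne.exists.elim fun _ h => h rfl

lemma IsRat.comp (hV : Over S V') {u : V.Point → F} (h : IsRat S u) {f : V'.Point →+ V.Point}
    (hf : IsAlg S f) : IsRat S (fun P => u (f P)) := by
  obtain ⟨a, ha, b, hb, c, hc, -, h⟩ := h
  refine (((hf.hx.eval hV ha).add ((hf.hx.eval hV hb).mul hV hf.hy)).div hV
    (hf.hx.eval hV hc)).congr ?_
  filter_upwards [hf.tendsto.eventually h] with P e1
  rw [e1]

lemma isAlg_id : IsAlg S (AddMonoidHom.id V.Point) := ⟨ev_ne_zero V, isRat_xc, isRat_yc⟩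

lemma IsAlg.comp (hV : Over S V'') {f : V'.Point →+ V.Point} {g : V''.Point →+ V'.Point}
    (hf : IsAlg S f) (hg : IsAlg S g) : IsAlg S (f.comp g) :=
  ⟨hg.tendsto.eventually hf.ne, hf.hx.comp hV hg, hf.hy.comp hV hg⟩

lemma IsAlg.neg (hV' : Over S V') (hV : Over S V) {f : V'.Point →+ V.Point} (hf : IsAlg S f) :
    IsAlg S (-f) := by
  refine ⟨hf.ne.mono fun P h => by simpa using h, hf.hx.congr (Eventually.of_forall fun P => ?_),
    ((hf.hy.neg.sub ((isRat_const hV.h1).mul hV' hf.hx)).sub (isRat_const hV.h3)).congr ?_⟩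
  · simp [xc_neg]
  · filter_upwards [hf.ne] with P h
    simp [yc_neg h]

lemma add_coords {P Q : V.Point} (hP : P ≠ 0) (hQ : Q ≠ 0)
    (h : ¬(xc P = xc Q ∧ yc P = V.negY (xc Q) (yc Q))) :
    P + Q ≠ 0 ∧ xc (P + Q) = V.addX (xc P) (xc Q) (V.slope (xc P) (xc Q) (yc P) (yc Q)) ∧
      yc (P + Q) = V.addY (xc P) (xc Q) (yc P) (V.slope (xc P) (xc Q) (yc P) (yc Q)) := by
  obtain ⟨x, y, hxy, rfl⟩ := exists_some hP
  obtain ⟨x', y', hxy', rfl⟩ := exists_some hQ
  simp only [xc_some, yc_some] at h ⊢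
  rw [Affine.Point.add_some h]
  exact ⟨Affine.Point.some_ne_zero _, rfl, rfl⟩

lemma add_eq_zero_of_coords {P Q : V.Point} (hP : P ≠ 0) (hQ : Q ≠ 0)
    (h1 : xc P = xc Q) (h2 : yc P = V.negY (xc Q) (yc Q)) : P + Q = 0 := by
  obtain ⟨x, y, hxy, rfl⟩ := exists_some hP
  obtain ⟨x', y', hxy', rfl⟩ := exists_some hQ
  exact Affine.Point.add_of_Y_eq h1 h2

lemma isAlg_add_of_slope (hV' : Over S V') (hV : Over S V) {f g : V'.Point →+ V.Point}
    (hf : IsAlg S f) (hg : IsAlg S g)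
    (h : ∀ᶠ P in cofinite, ¬(xc (f P) = xc (g P) ∧ yc (f P) = V.negY (xc (g P)) (yc (g P))))
    (hs : IsRat S fun P => V.slope (xc (f P)) (xc (g P)) (yc (f P)) (yc (g P))) :
    IsAlg S (f + g) := by
  have e : ∀ᶠ P in cofinite, _ := (hf.ne.and (hg.ne.and h)).mono fun P hP =>
    add_coords hP.1 hP.2.1 hP.2.2
  have hX := ((((hs.pow hV' 2).add ((isRat_const hV.h1).mul hV' hs)).sub
    (isRat_const hV.h2)).sub hf.hx).sub hg.hx
  refine ⟨e.mono fun P h => h.1, hX.congr (e.mono fun P h => ?_),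
    (((((hs.mul hV' (hX.sub hf.hx)).add hf.hy).neg).sub ((isRat_const hV.h1).mul hV' hX)).sub
      (isRat_const hV.h3)).congr (e.mono fun P h => ?_)⟩
  · rw [AddMonoidHom.add_apply, h.2.1]; rfl
  · rw [AddMonoidHom.add_apply, h.2.2]; rfl

lemma IsAlg.add [Infinite V'.Point] (hV' : Over S V') (hV : Over S V) {f g : V'.Point →+ V.Point}
    (hf : IsAlg S f) (hg : IsAlg S g) : f + g = 0 ∨ IsAlg S (f + g) := by
  have hN : IsRat S fun P => V.negY (xc (g P)) (yc (g P)) :=
    (hg.hy.neg.sub ((isRat_const hV.h1).mul hV' hg.hx)).sub (isRat_const hV.h3)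
  rcases (hf.hx.sub hg.hx).dich with h1 | h1
  · rcases (hf.hy.sub hN).dich with h2 | h2
    · left
      refine hom_eq_zero_of_ev _ ?_
      filter_upwards [h1, h2, hf.ne, hg.ne] with P e1 e2 e3 e4
      exact add_eq_zero_of_coords e3 e4 (sub_eq_zero.1 e1) (sub_eq_zero.1 e2)
    · right
      refine isAlg_add_of_slope hV' hV hf hg (h2.mono fun P e h => e (sub_eq_zero.2 h.2)) ?_
      have h3 : (3 : F) ∈ S := by exact_mod_cast natCast_mem S 3
      have h2' : (2 : F) ∈ S := by exact_mod_cast natCast_mem S 2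
      refine (((((((isRat_const h3).mul hV' (hf.hx.pow hV' 2)).add (((isRat_const h2').mul hV'
        (isRat_const hV.h2)).mul hV' hf.hx)).add (isRat_const hV.h4)).sub
          ((isRat_const hV.h1).mul hV' hf.hy))).div hV' (hf.hy.sub ((hf.hy.neg.sub
            ((isRat_const hV.h1).mul hV' hf.hx)).sub (isRat_const hV.h3)))).congr ?_
      filter_upwards [h1, h2] with P e1 e2
      rw [Affine.slope_of_Y_ne (sub_eq_zero.1 e1) (sub_ne_zero.1 e2)]
      rfl
  · right
    refine isAlg_add_of_slope hV' hV hf hg (h1.mono fun P e h => e (sub_eq_zero.2 h.1)) ?_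
    refine ((hf.hy.sub hg.hy).div hV' (hf.hx.sub hg.hx)).congr ?_
    filter_upwards [h1] with P e1
    rw [Affine.slope_of_X_ne (sub_ne_zero.1 e1)]

/-- Zero or algebraic. -/
def Alg0 (f : V'.Point →+ V.Point) : Prop := f = 0 ∨ IsAlg ⊤ f

lemma Alg0.add [Infinite V'.Point] {f g : V'.Point →+ V.Point} (hf : Alg0 f) (hg : Alg0 g) :
    Alg0 (f + g) := by
  rcases hf with rfl | hf
  · simpa using hg
  rcases hg with rfl | hg
  · rw [add_zero]; exact Or.inr hf
  exact hf.add (over_top _) (over_top _) hg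

lemma Alg0.neg {f : V'.Point →+ V.Point} (hf : Alg0 f) : Alg0 (-f) := by
  rcases hf with rfl | hf
  · exact Or.inl neg_zero
  · exact Or.inr (hf.neg (over_top _) (over_top _))

lemma Alg0.sub [Infinite V'.Point] {f g : V'.Point →+ V.Point} (hf : Alg0 f) (hg : Alg0 g) :
    Alg0 (f - g) := by
  rw [sub_eq_add_neg]; exact hf.add hg.neg

lemma Alg0.comp {f : V'.Point →+ V.Point} {g : V''.Point →+ V'.Point} (hf : Alg0 f)
    (hg : Alg0 g) : Alg0 (f.comp g) := by
  rcases hf with rfl | hf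
  · exact Or.inl (by ext; simp)
  rcases hg with rfl | hg
  · exact Or.inl (by ext; simp)
  exact Or.inr (hf.comp (over_top _) hg)

lemma Alg0.nsmul [Infinite V'.Point] {f : V'.Point →+ V.Point} (hf : Alg0 f) (n : ℕ) :
    Alg0 (n • f) := by
  induction n with
  | zero => exact Or.inl (zero_nsmul _)
  | succ n ih => rw [succ_nsmul]; exact ih.add hf

lemma Alg0.zsmul [Infinite V'.Point] {f : V'.Point →+ V.Point} (hf : Alg0 f) (n : ℤ) :
    Alg0 (n • f) := by
  obtain ⟨m, rfl | rfl⟩ := n.eq_nat_or_neg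
  · rw [natCast_zsmul]; exact hf.nsmul m
  · rw [neg_zsmul, natCast_zsmul]; exact (hf.nsmul m).neg

lemma alg0_id : Alg0 (AddMonoidHom.id V.Point) := Or.inr isAlg_id

/-- No zero divisors. -/
lemma Alg0.eq_zero_of_comp [Infinite V''.Point] {f : V'.Point →+ V.Point}
    {g : V''.Point →+ V'.Point} (hf : IsAlg ⊤ f) (hg : Alg0 g) (h : f.comp g = 0) : g = 0 := by
  rcases hg with rfl | hg
  · rfl
  · exact absurd h (hf.comp (over_top _) hg).ne_zero

end Pool.Agent.Lib.MP_02f36d_nt
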