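import Pool.Agent.Lib.MP_02f36d_nt.Place

/-!
Reduction of algebraic additive maps between semistable models.
-/

namespace Pool.Agent.Lib.MP_02f36d_nt

open Polynomial WeierstrassCurve Filter

variable {L k : Type*} [Field L] [Field k] {p : Place L k}

/-- Specialisation of rational maps, normalised so that neither triple vanishes. -/
structure SpR (p : Place L k) (R : RatMap L) (T : RatMap k) : Prop where
  ha : SpP p R.a T.a
  hb : SpP p R.b T.b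
  hc : SpP p R.c T.c
  hd : SpP p R.d T.d
  he : SpP p R.e T.e
  hf : SpP p R.f T.f
  n1 : T.a ≠ 0 ∨ T.b ≠ 0 ∨ T.c ≠ 0
  n2 : T.d ≠ 0 ∨ T.e ≠ 0 ∨ T.f ≠ 0

lemma sing_b {U : Affine k} {x y : k} (h : U.Equation x y) (hn : ¬U.Nonsingular x y) :
    U.b₄ + x * U.b₂ + 6 * x ^ 2 = 0 ∧ x * U.c₄ = 18 * U.b₆ - U.b₂ * U.b₄ := by
  rw [Affine.nonsingular_iff', not_and] at hn
  have := hn h
  push Not at this
  rw [Affine.equation_iff] at h
  have e1 : U.b₄ + x * U.b₂ + 6 * x ^ 2 = 0 := by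
    simp only [b₂, b₄]
    linear_combination (-2) * this.1 + U.a₁ * this.2
  have e2 : U.b₆ + 2 * x * U.b₄ + x ^ 2 * U.b₂ + 4 * x ^ 3 = 0 := by
    simp only [b₂, b₄, b₆]
    linear_combination (2 * y + U.a₁ * x + U.a₃) * this.2 - 4 * h
  refine ⟨e1, ?_⟩
  rw [c₄]
  linear_combination (U.b₂ + 12 * x) * e1 - 18 * e2

lemma exists_shift [IsAlgClosed L] (hs : Function.Surjective p.ρ) {B D : L} {B' D' x : k}
    (hB : Sp p B B') (hD : Sp p D D') (e : D' + x * B' + 6 * x ^ 2 = 0) (hx : B' + 12 * x ≠ 0) :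
    ∃ r, Sp p r x ∧ D + r * B + 6 * r ^ 2 = 0 := by
  obtain ⟨z, hz⟩ := hs x
  have hz : Sp p (z : L) x := ⟨z.2, hz⟩
  have h1 := hB.add ((sp_ofNat 12).mul hz)
  have h2 := ((hD.add (hz.mul hB)).add ((sp_ofNat 6).mul (hz.pow 2))).congr rfl e
  obtain ⟨w, hw⟩ := IsAlgClosed.exists_root (X ^ 2 + C (B + 12 * z) * X +
      C (6 * (D + z * B + 6 * z ^ 2)) : L[X]) (by
    have : (X ^ 2 + C (B + 12 * z) * X + C (6 * (D + z * B + 6 * z ^ 2)) : L[X]).degree = 2 := by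
      compute_degree!
    rw [this]; decide)
  simp only [IsRoot.def, eval_add, eval_pow, eval_X, eval_mul, eval_C] at hw
  have h3 := ((sp_ofNat 6).mul h2).neg
  have key : ∃ w : L, Sp p w (-(B' + 12 * x)) ∧
      w ^ 2 + (B + 12 * z) * w + 6 * (D + z * B + 6 * z ^ 2) = 0 := by
    have e1 : w ^ 2 + (B + 12 * z) * w = -(6 * (D + z * B + 6 * z ^ 2)) := by linear_combination hw
    have hw1 := sp_of_mem (mem_of_quad h1.mem h3.mem e1)
    have hw2 := ((hw1.pow 2).add (h1.mul hw1)).eq h3 e1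
    generalize p.ρ _ = c at hw1 hw2
    rcases mul_eq_zero.1 (show c * (c + (B' + 12 * x)) = 0 by linear_combination hw2) with h | h
    · exact ⟨-(B + 12 * z) - w, (h1.neg.sub hw1).congr rfl (by rw [h, sub_zero]),
        by linear_combination hw⟩
    · exact ⟨w, hw1.congr rfl (by linear_combination h), hw⟩
  obtain ⟨w, hw1, hw2⟩ := key
  have w0 := hw1.ne_zero (neg_ne_zero.2 hx)
  refine ⟨z + (D + z * B + 6 * z ^ 2) / w, (hz.add (h2.div hw1 (neg_ne_zero.2 hx))).congr rfl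
    (by simp), ?_⟩
  field_simp
  linear_combination (D + z * B + 6 * z ^ 2) * hw2

variable [DecidableEq L] [DecidableEq k] [IsAlgClosed L] [IsAlgClosed k]
variable {V₁ V₂ : Affine L} {U₁ U₂ : Affine k}

lemma not_ev_node (hs : Function.Surjective p.ρ) (hΔ : V₁.Δ ≠ 0) (hU : Sep U₁) (h₁ : SpW p V₁ U₁)
    (h₂ : SpW p V₂ U₂) {φ : V₁.Point →+ V₂.Point} {R : RatMap L} (hR : Rep R φ) {c : k[X]}
    (hc : SpP p R.c c) (c0 : c ≠ 0) {x : k} (e : U₂.b₄ + x * U₂.b₂ + 6 * x ^ 2 = 0)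
    (hx : U₂.b₂ + 12 * x ≠ 0) (h : ∀ᶠ a : U₁.Point in cofinite, ∀ P, Red p P a → Sp p (xc (φ P)) x) :
    False := by
  have hV : Sep V₁ := sep_of_c4 (Or.inr hΔ)
  have := infinite_pt hV
  have := infinite_pt hU
  obtain ⟨r, hr, er⟩ := exists_shift hs h₂.b₂ h₂.b₄ e hx
  have hb := hR.hx.odd_eq_zero hV (Eventually.of_forall fun P => by rw [map_neg, xc_neg])
  have t := (tendsto_xc V₂).comp hR.isAlg_top.tendsto
  have hrep : ∀ᶠ P in cofinite, xc (φ P) - r = (R.a - C r * R.c).eval (xc P) / R.c.eval (xc P) := by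
    filter_upwards [hR.hx.2, ev_eval_xc_ne V₁ hR.hx.1] with P e1 e2
    rw [e1, hb, eval_sub, eval_mul, eval_C]
    field_simp
    simp
  have n0 : R.a - C r * R.c ≠ 0 := fun e0 => by
    obtain ⟨P, e1, e2⟩ := (hrep.and (t.eventually (eventually_cofinite_ne r))).exists
    rw [e0, eval_zero, zero_div, sub_eq_zero] at e1
    exact e2 e1
  obtain ⟨γ, γ0, w, hw, i, w0⟩ := exists_norm (p := p) (fun _ : Unit => R.a - C r * R.c) ⟨(), n0⟩
  have key : ∀ᶠ a : U₁.Point in cofinite, ∀ P, Red p P a → φ P ≠ 0 ∧ Sp p γ⁻¹ 0 ∧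
      ∃ u u', xc (φ P) = γ⁻¹ * u + r ∧ Sp p u u' ∧ u' ≠ 0 := by
    filter_upwards [h, ev_red (p := p) hrep, ev_red (p := p) hR.ne, ev_ne_zero U₁,
      ev_eval_xc_ne U₁ w0, ev_eval_xc_ne U₁ c0] with a e1 e2 e3 e4 e5 e6 P hP
    have s1 := ((hw i).eval (hP.of_ne e4).2.1).div (hc.eval (hP.of_ne e4).2.1) e6
    have e7 : xc (φ P) = γ⁻¹ * ((C γ * (R.a - C r * R.c)).eval (xc P) / R.c.eval (xc P)) + r := by
      rw [eval_mul, eval_C, mul_div_assoc, ← e2 P hP]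
      field_simp
      ring
    refine ⟨e3 P hP, ?_, _, _, e7, s1, div_ne_zero e5 e6⟩
    refine (((e1 P hP).sub hr).div s1 (div_ne_zero e5 e6)).congr ?_ (by simp)
    rw [div_eq_iff (s1.ne_zero (div_ne_zero e5 e6))]
    linear_combination e7
  obtain ⟨a, ha⟩ := key.exists
  obtain ⟨P, hP⟩ := exists_lift hs hΔ h₁ a
  obtain ⟨b, hb1, hb2, hb3, hb4⟩ := (key.and ((ev_add_left key a).and
    ((ev_neg (ev_add_left key a)).and
      (ev_red (p := p) (t.eventually (eventually_cofinite_ne (xc (φ P)))))))).exists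
  obtain ⟨Q, hQ⟩ := exists_lift hs hΔ h₁ b
  obtain ⟨p0, g0, u1, v1, x1, s1, z1⟩ := ha P hP
  obtain ⟨q0, -, u2, v2, x2, s2, z2⟩ := hb1 Q hQ
  obtain ⟨-, -, u3, v3, x3, s3, -⟩ := hb2 _ (hP.add hs hΔ hU h₁ hQ)
  obtain ⟨-, -, u4, v4, x4, s4, -⟩ := hb3 _ (hP.add hs hΔ hU h₁ (hQ.neg h₁))
  obtain ⟨-, -, k1, k2⟩ := sum_prod p0 q0 (hb4 Q hQ).symm
  rw [map_add] at x3
  rw [map_add, map_neg, ← sub_eq_add_neg] at x4
  rw [x1, x2, x3, x4] at k1 k2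
  have rel := V₂.b_relation
  have d0 := inv_ne_zero γ0
  generalize γ⁻¹ = δ at *
  have sB := h₂.b₂.add ((sp_ofNat 12).mul hr)
  have sβ := (g0.mul (((s3.add s4).mul ((s1.sub s2).pow 2)).sub
    (((sp_ofNat 2).mul (s1.add s2)).mul (s1.mul s2)))).sub (sB.mul (s1.mul s2))
  have s8 := ((g0.pow 2).mul (((s1.mul s2).pow 2).sub ((s3.mul s4).mul ((s1.sub s2).pow 2)))).sub
    ((g0.mul sβ).mul (s1.add s2))
  have := ((sp_ofNat 4).mul s8).eq (sB.mul sβ) (mul_left_cancel₀ (pow_ne_zero 2 d0) (by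
    obtain b4 : V₂.b₄ = -r * V₂.b₂ - 6 * r ^ 2 := by linear_combination er
    rw [b4] at k1 k2 rel
    linear_combination rel - 4 * k1 + 4 * r * k2 - (V₂.b₂ + 12 * r + 4 * δ * (u1 + u2)) * k2))
  exact mul_ne_zero hx (mul_ne_zero hx (mul_ne_zero z1 z2)) (by linear_combination this)

lemma descend (hs : Function.Surjective p.ρ) (hΔ₁ : V₁.Δ ≠ 0) (hΔ₂ : V₂.Δ ≠ 0) (hU₁ : Sep U₁)
    (hU₂ : Sep U₂) (h₁ : SpW p V₁ U₁) (h₂ : SpW p V₂ U₂) {φ : V₁.Point →+ V₂.Point}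
    (h : ∀ᶠ a : U₁.Point in cofinite, ∃ b : U₂.Point, ∀ P, Red p P a → Red p (φ P) b) :
    ∃ ψ : U₁.Point →+ U₂.Point, ∀ P a, Red p P a → Red p (φ P) (ψ a) := by
  have := infinite_pt hU₁
  have key : ∀ a : U₁.Point, ∃ b : U₂.Point, ∀ P, Red p P a → Red p (φ P) b := fun a => by
    obtain ⟨t, ⟨b, hb⟩, b', hb'⟩ := (h.and (ev_add_left h a)).exists
    obtain ⟨T, hT⟩ := exists_lift hs hΔ₁ h₁ t
    refine ⟨b' + -b, fun P hP => ?_⟩
    have := (hb' _ (hP.add hs hΔ₁ hU₁ h₁ hT)).add hs hΔ₂ hU₂ h₂ ((hb T hT).neg h₂)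
    rwa [map_add, add_neg_cancel_right] at this
  choose f hf using key
  refine ⟨AddMonoidHom.mk' f fun a b => ?_, fun P a => hf a P⟩
  obtain ⟨P, hP⟩ := exists_lift hs hΔ₁ h₁ a
  obtain ⟨Q, hQ⟩ := exists_lift hs hΔ₁ h₁ b
  have := hf _ _ (hP.add hs hΔ₁ hU₁ h₁ hQ)
  rw [map_add] at this
  exact this.unique ((hf _ _ hP).add hs hΔ₂ hU₂ h₂ (hf _ _ hQ))

/-- Reduction of an algebraic additive map. -/
theorem exists_red (hs : Function.Surjective p.ρ) (hΔ₁ : V₁.Δ ≠ 0) (hΔ₂ : V₂.Δ ≠ 0) (hU₁ : Sep U₁)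
    (hU₂ : U₂.c₄ ≠ 0 ∨ U₂.Δ ≠ 0) (h₁ : SpW p V₁ U₁) (h₂ : SpW p V₂ U₂) {φ : V₁.Point →+ V₂.Point}
    {R : RatMap L} (hR : Rep R φ) {T : RatMap k} (hT : SpR p R T) :
    ∃ ψ : U₁.Point →+ U₂.Point, (∀ P a, Red p P a → Red p (φ P) (ψ a)) ∧ (ψ = 0 ∨ Rep T ψ) := by
  have := infinite_pt hU₁
  have hS := sep_of_c4 hU₂
  have zero : (∀ᶠ a : U₁.Point in cofinite, ∀ P, Red p P a → Red p (φ P) (0 : U₂.Point)) →
      ∃ ψ : U₁.Point →+ U₂.Point, (∀ P a, Red p P a → Red p (φ P) (ψ a)) ∧ (ψ = 0 ∨ Rep T ψ) :=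
    fun h => by
      obtain ⟨ψ, hψ⟩ := descend hs hΔ₁ hΔ₂ hU₁ hS h₁ h₂ (h.mono fun a e => ⟨0, e⟩)
      refine ⟨ψ, hψ, Or.inl (hom_eq_zero_of_ev _ (h.mono fun a e => ?_))⟩
      obtain ⟨P, hP⟩ := exists_lift hs hΔ₁ h₁ a
      exact (hψ P a hP).unique (e P hP)
  by_cases c0 : T.c = 0
  · refine zero ?_
    filter_upwards [ev_ne_zero U₁, ev_lin_ne U₁ (a := T.a) (b := T.b) (by simpa [c0] using hT.n1),
      ev_red (p := p) hR.hx.2, ev_red (p := p) (ev_eval_xc_ne V₁ hR.hx.1)] with a e1 e2 e3 e4 P hP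
    obtain ⟨-, s1, s2⟩ := hP.of_ne e1
    refine Or.inl ⟨rfl, Or.inr ?_⟩
    rw [e3 P hP]
    exact ((hT.ha.eval s1).add ((hT.hb.eval s1).mul s2)).div_notMem e2
      ((hT.hc.eval s1).congr rfl (by simp [c0])) (e4 P hP)
  by_cases f0 : T.f = 0
  · refine zero ?_
    filter_upwards [ev_ne_zero U₁, ev_lin_ne U₁ (a := T.d) (b := T.e) (by simpa [f0] using hT.n2),
      ev_red (p := p) hR.hy.2, ev_red (p := p) (ev_eval_xc_ne V₁ hR.hy.1), ev_red (p := p) hR.ne]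
      with a e1 e2 e3 e4 e5 P hP
    obtain ⟨-, s1, s2⟩ := hP.of_ne e1
    refine Or.inl ⟨rfl, Or.inr fun hm => ?_⟩
    have := h₂.y_mem (e5 P hP) hm
    rw [e3 P hP] at this
    exact ((hT.hd.eval s1).add ((hT.he.eval s1).mul s2)).div_notMem e2
      ((hT.hf.eval s1).congr rfl (by simp [f0])) (e4 P hP) this
  set X' : U₁.Point → k := fun a => (T.a.eval (xc a) + T.b.eval (xc a) * yc a) / T.c.eval (xc a)
  set Y' : U₁.Point → k := fun a => (T.d.eval (xc a) + T.e.eval (xc a) * yc a) / T.f.eval (xc a)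
  have key : ∀ᶠ a : U₁.Point in cofinite, ∀ P, Red p P a →
      φ P ≠ 0 ∧ Sp p (xc (φ P)) (X' a) ∧ Sp p (yc (φ P)) (Y' a) := by
    filter_upwards [ev_ne_zero U₁, ev_eval_xc_ne U₁ c0, ev_eval_xc_ne U₁ f0,
      ev_red (p := p) hR.hx.2, ev_red (p := p) hR.hy.2, ev_red (p := p) hR.ne]
      with a e1 e2 e3 e4 e5 e6 P hP
    obtain ⟨-, s1, s2⟩ := hP.of_ne e1
    refine ⟨e6 P hP, ?_, ?_⟩
    · rw [e4 P hP]
      exact ((hT.ha.eval s1).add ((hT.hb.eval s1).mul s2)).div (hT.hc.eval s1) e2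
    · rw [e5 P hP]
      exact ((hT.hd.eval s1).add ((hT.he.eval s1).mul s2)).div (hT.hf.eval s1) e3
  have hE : ∀ᶠ a : U₁.Point in cofinite, U₂.Equation (X' a) (Y' a) := key.mono fun a e => by
    obtain ⟨P, hP⟩ := exists_lift hs hΔ₁ h₁ a
    exact h₂.equation (e P hP).1 (e P hP).2.1 (e P hP).2.2
  have rX : IsRat ⊤ X' := ⟨_, mem_PS_top _, _, mem_PS_top _, _, mem_PS_top _, c0,
    Eventually.of_forall fun _ => rfl⟩
  have rY : IsRat ⊤ Y' := ⟨_, mem_PS_top _, _, mem_PS_top _, _, mem_PS_top _, f0,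
    Eventually.of_forall fun _ => rfl⟩
  have o := over_top U₁
  have cst : ∀ c : k, IsRat ⊤ fun _ : U₁.Point => c := fun c => isRat_const trivial
  have hN : ∀ᶠ a : U₁.Point in cofinite, U₂.Nonsingular (X' a) (Y' a) := by
    rcases (((cst U₂.a₁).mul o rY).sub ((((cst 3).mul o (rX.pow o 2)).add
      ((cst (2 * U₂.a₂)).mul o rX)).add (cst U₂.a₄))).dich with d1 | d1
    swap
    · filter_upwards [hE, d1] with a e1 e2
      exact (Affine.nonsingular_iff' _ _).2 ⟨e1, Or.inl e2⟩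
    rcases ((((cst 2).mul o rY).add ((cst U₂.a₁).mul o rX)).add (cst U₂.a₃)).dich with d2 | d2
    swap
    · filter_upwards [hE, d2] with a e1 e2
      exact (Affine.nonsingular_iff' _ _).2 ⟨e1, Or.inr e2⟩
    exfalso
    have hs' : ∀ᶠ a : U₁.Point in cofinite, ¬U₂.Nonsingular (X' a) (Y' a) := by
      filter_upwards [d1, d2] with a e1 e2 e
      exact ((Affine.nonsingular_iff' _ _).1 e).2.elim (fun h => h e1) fun h => h e2
    obtain ⟨a, a1, a2⟩ := (hE.and hs').exists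
    have c4 : U₂.c₄ ≠ 0 := hU₂.resolve_right fun h =>
      a2 ((U₂.equation_iff_nonsingular_of_Δ_ne_zero h).1 a1)
    obtain ⟨b1, b2⟩ := sing_b a1 a2
    refine not_ev_node hs hΔ₁ hU₁ h₁ h₂ hR hT.hc c0 b1 (fun e => c4 ?_) ?_
    · rw [c₄]
      linear_combination (U₂.b₂ + 12 * X' a) * e - 24 * b1
    · filter_upwards [key, hE, hs'] with a' e1 e2 e3 P hP
      rw [← mul_right_cancel₀ c4 ((sing_b e2 e3).2.trans b2.symm)]
      exact (e1 P hP).2.1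
  have k2 : ∀ᶠ a : U₁.Point in cofinite, ∃ b : U₂.Point, b ≠ 0 ∧ xc b = X' a ∧ yc b = Y' a ∧
      ∀ P, Red p P a → Red p (φ P) b := by
    filter_upwards [key, hN] with a e1 e2
    exact ⟨.some _ _ e2, Affine.Point.some_ne_zero _, rfl, rfl, fun P hP =>
      Or.inr ⟨(e1 P hP).1, Affine.Point.some_ne_zero _, (e1 P hP).2⟩⟩
  obtain ⟨ψ, hψ⟩ := descend hs hΔ₁ hΔ₂ hU₁ hS h₁ h₂ (k2.mono fun a ⟨b, e⟩ => ⟨b, e.2.2.2⟩)
  have k3 : ∀ᶠ a : U₁.Point in cofinite, ψ a ≠ 0 ∧ xc (ψ a) = X' a ∧ yc (ψ a) = Y' a :=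
    k2.mono fun a ⟨b, e⟩ => by
      obtain ⟨P, hP⟩ := exists_lift hs hΔ₁ h₁ a
      rw [(hψ P a hP).unique (e.2.2.2 P hP)]
      exact ⟨e.1, e.2.1, e.2.2.1⟩
  exact ⟨ψ, hψ, Or.inr ⟨k3.mono fun a e => e.1, ⟨c0, k3.mono fun a e => e.2.1⟩,
    ⟨f0, k3.mono fun a e => e.2.2⟩⟩⟩

end Pool.Agent.Lib.MP_02f36d_nt
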