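import Pool.Agent.Lib.MP_02f36d_nt.Maps
import Pool.Agent.Lib.MP_02f36d_nt.Defs

/-!
Additive maps represented by explicit rational maps, and their conjugates.
-/

namespace Pool.Agent.Lib.MP_02f36d_nt

open Polynomial WeierstrassCurve Filter

variable {F F' : Type*} [Field F] [Field F'] [DecidableEq F] [DecidableEq F']

/-- `φ` is represented by `R`. -/
structure Rep (R : RatMap F) {V₁ V₂ : Affine F} (φ : V₁.Point →+ V₂.Point) : Prop where
  ne : ∀ᶠ P in cofinite, φ P ≠ 0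
  hx : Rep3 (fun P => xc (φ P)) R.a R.b R.c
  hy : Rep3 (fun P => yc (φ P)) R.d R.e R.f

variable {V₁ V₂ : Affine F} {V₁' V₂' : Affine F'} {j : F →+* F'}

omit [DecidableEq F] [DecidableEq F'] in
lemma map_mem_PS {K : Type*} [Field K] (i : K →+* F) (p : K[X]) : p.map i ∈ PS i.range :=
  ⟨p.map i.rangeRestrict, by rw [coe_mapRingHom, Polynomial.map_map]; rfl⟩

omit [DecidableEq F] [DecidableEq F'] in
lemma exists_of_mem_PS {K : Type*} [CommRing K] (i : K →+* F) {p : F[X]} (h : p ∈ PS i.range) :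
    ∃ q : K[X], q.map i = p := by
  obtain ⟨q, rfl⟩ := h
  obtain ⟨r, rfl⟩ := map_surjective _ i.rangeRestrict_surjective q
  exact ⟨r, by rw [coe_mapRingHom, Polynomial.map_map]; rfl⟩

lemma Rep.isAlg_top {R : RatMap F} {φ : V₁.Point →+ V₂.Point} (h : Rep R φ) : IsAlg ⊤ φ :=
  ⟨h.ne, ⟨_, mem_PS_top _, _, mem_PS_top _, _, mem_PS_top _, h.hx⟩,
    ⟨_, mem_PS_top _, _, mem_PS_top _, _, mem_PS_top _, h.hy⟩⟩

lemma Rep.isAlg {K : Type*} [Field K] {i : K →+* F} {R : RatMap K} {φ : V₁.Point →+ V₂.Point}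
    (h : Rep (R.map i) φ) : IsAlg i.range φ :=
  ⟨h.ne, ⟨_, map_mem_PS _ _, _, map_mem_PS _ _, _, map_mem_PS _ _, h.hx⟩,
    ⟨_, map_mem_PS _ _, _, map_mem_PS _ _, _, map_mem_PS _ _, h.hy⟩⟩

lemma IsAlg.exists_rep {K : Type*} [Field K] {i : K →+* F} {φ : V₁.Point →+ V₂.Point}
    (h : IsAlg i.range φ) : ∃ R : RatMap K, Rep (R.map i) φ := by
  obtain ⟨a, ha, b, hb, c, hc, h1⟩ := h.hx
  obtain ⟨d, hd, e, he, f, hf, h2⟩ := h.hy
  obtain ⟨a, rfl⟩ := exists_of_mem_PS i ha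
  obtain ⟨b, rfl⟩ := exists_of_mem_PS i hb
  obtain ⟨c, rfl⟩ := exists_of_mem_PS i hc
  obtain ⟨d, rfl⟩ := exists_of_mem_PS i hd
  obtain ⟨e, rfl⟩ := exists_of_mem_PS i he
  obtain ⟨f, rfl⟩ := exists_of_mem_PS i hf
  exact ⟨⟨a, b, c, d, e, f⟩, h.ne, h1, h2⟩

lemma Rep.unique [Infinite V₁.Point] {R : RatMap F} {φ ψ : V₁.Point →+ V₂.Point} (h : Rep R φ)
    (h' : Rep R ψ) : φ = ψ := by
  refine hom_eq_of_ev _ _ ?_
  filter_upwards [h.ne, h'.ne, h.hx.2, h'.hx.2, h.hy.2, h'.hy.2] with P e1 e2 e3 e4 e5 e6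
  exact pt_ext e1 e2 (e3.trans e4.symm) (e5.trans e6.symm)

omit [DecidableEq F] [DecidableEq F'] in
lemma eval_map_apply (j : F →+* F') (p : F[X]) (x : F) : (p.map j).eval (j x) = j (p.eval x) := by
  rw [eval_map, eval₂_at_apply]

lemma Rep.conj [Infinite V₁.Point] (e₁ : V₁.map j = V₁') (e₂ : V₂.map j = V₂') {R : RatMap F}
    {φ : V₁.Point →+ V₂.Point} {ψ : V₁'.Point →+ V₂'.Point} (h : Rep R φ) (h' : Rep (R.map j) ψ)
    (P : V₁.Point) : ψ (ptMap j e₁ P) = ptMap j e₂ (φ P) := by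
  have t := ptMap_tendsto e₁
  refine DFunLike.congr_fun (hom_eq_of_ev (ψ.comp (ptMap j e₁)) ((ptMap j e₂).comp φ) ?_) P
  filter_upwards [h.ne, t.eventually h'.ne, h.hx.2, t.eventually h'.hx.2, h.hy.2,
    t.eventually h'.hy.2] with P e1 e2 e3 e4 e5 e6
  refine pt_ext e2 (ptMap_ne e₂ e1) ?_ ?_
  · rw [AddMonoidHom.comp_apply, AddMonoidHom.comp_apply, e4, xc_ptMap, xc_ptMap, yc_ptMap, e3]
    simp only [RatMap.map, eval_map_apply, map_div₀, map_add, map_mul]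
  · rw [AddMonoidHom.comp_apply, AddMonoidHom.comp_apply, e6, xc_ptMap, yc_ptMap, yc_ptMap, e5]
    simp only [RatMap.map, eval_map_apply, map_div₀, map_add, map_mul]

lemma Rep.of_conj (hj : Function.Surjective j) (e₁ : V₁.map j = V₁') (e₂ : V₂.map j = V₂')
    {R : RatMap F} {φ : V₁.Point →+ V₂.Point} {ψ : V₁'.Point →+ V₂'.Point} (h : Rep R φ)
    (h' : ∀ P, ψ (ptMap j e₁ P) = ptMap j e₂ (φ P)) : Rep (R.map j) ψ := by
  have s := ptMap_surjective e₁ hj
  refine ⟨ev_of_ev_surj s (h.ne.mono fun P e => ?_),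
    ⟨(Polynomial.map_ne_zero_iff j.injective).2 h.hx.1, ev_of_ev_surj s (h.hx.2.mono fun P e => ?_)⟩,
    ⟨(Polynomial.map_ne_zero_iff j.injective).2 h.hy.1,
      ev_of_ev_surj s (h.hy.2.mono fun P e => ?_)⟩⟩
  · rw [h']
    exact ptMap_ne e₂ e
  · beta_reduce at e ⊢
    rw [h', xc_ptMap, xc_ptMap, yc_ptMap, e]
    simp only [RatMap.map, eval_map_apply, map_div₀, map_add, map_mul]
  · beta_reduce at e ⊢
    rw [h', xc_ptMap, yc_ptMap, yc_ptMap, e]
    simp only [RatMap.map, eval_map_apply, map_div₀, map_add, map_mul]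

lemma Rep.mem_range [Infinite V₁.Point] (e₁ : V₁.map j = V₁') (e₂ : V₂.map j = V₂') {R : RatMap F}
    {ψ : V₁'.Point →+ V₂'.Point} (h : Rep (R.map j) ψ) (P : V₁.Point) :
    ψ (ptMap j e₁ P) ∈ (ptMap j e₂).range := by
  have t := ptMap_tendsto e₁
  have key : ∀ᶠ T in cofinite, ψ (ptMap j e₁ T) ∈ (ptMap j e₂).range := by
    filter_upwards [t.eventually h.hx.2, t.eventually h.hy.2] with T e1 e2
    rw [xc_ptMap, yc_ptMap] at e1 e2
    simp only [RatMap.map, eval_map_apply, ← map_div₀, ← map_add, ← map_mul] at e1 e2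
    exact mem_range_ptMap e₂ e1 e2
  obtain ⟨T, h1, h2⟩ := (key.and (ev_add_left key P)).exists
  have := sub_mem h2 h1
  rwa [map_add, map_add, add_sub_cancel_right] at this

omit [DecidableEq F] [DecidableEq F'] in
lemma RatMap.map_map {K : Type*} [Field K] (R : RatMap K) (i : K →+* F) (j : F →+* F') :
    (R.map i).map j = R.map (j.comp i) := by
  simp only [RatMap.map, Polynomial.map_map]

lemma RatMap.Gives.rep {K : Type*} [Field K] [DecidableEq (AlgebraicClosure K)] {R : RatMap K}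
    {W₁ W₂ : WeierstrassCurve K}
    {φ : (W₁.baseChange (AlgebraicClosure K)).toAffine.Point →+
      (W₂.baseChange (AlgebraicClosure K)).toAffine.Point} (h : R.Gives W₁ W₂ φ) :
    Rep (R.map (algebraMap K (AlgebraicClosure K))) φ := by
  obtain ⟨h1, h2, T, hT, h3⟩ := h
  have i := (algebraMap K (AlgebraicClosure K)).injective
  have key : ∀ᶠ P in cofinite, φ P ≠ 0 ∧
      xc (φ P) = (aeval (xc P) R.a + aeval (xc P) R.b * yc P) / aeval (xc P) R.c ∧
      yc (φ P) = (aeval (xc P) R.d + aeval (xc P) R.e * yc P) / aeval (xc P) R.f := by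
    filter_upwards [ev_ne_zero _, (tendsto_xc _).eventually hT.eventually_cofinite_notMem]
      with P e1 e2
    obtain ⟨x, y, hxy, rfl⟩ := exists_some e1
    obtain ⟨h', e⟩ := h3 x y hxy e2
    rw [e]
    exact ⟨Affine.Point.some_ne_zero _, rfl, rfl⟩
  refine ⟨key.mono fun P h => h.1, ⟨(Polynomial.map_ne_zero_iff i).2 h1, key.mono fun P h => ?_⟩,
    ⟨(Polynomial.map_ne_zero_iff i).2 h2, key.mono fun P h => ?_⟩⟩
  · simpa only [RatMap.map, eval_map_algebraMap] using h.2.1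
  · simpa only [RatMap.map, eval_map_algebraMap] using h.2.2

omit [DecidableEq F'] in
/-- A constant rational function over a subfield has its value in the subfield. -/
lemma IsRat.const_mem [Infinite V₁.Point] {S : Subring F} (hS : ∀ x ∈ S, x⁻¹ ∈ S)
    {u : V₁.Point → F} (h : IsRat S u) {A : F} (e : ∀ᶠ P in cofinite, u P = A) : A ∈ S := by
  obtain ⟨a, ⟨a, rfl⟩, b, -, c, ⟨c, rfl⟩, h0, h⟩ := h
  have : ¬(mapRingHom S.subtype a - C A * mapRingHom S.subtype c ≠ 0 ∨ b ≠ 0) := fun hh => by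
    obtain ⟨P, e1, e2, e3, e4⟩ := (e.and (h.and ((ev_lin_ne V₁ hh).and (ev_eval_xc_ne V₁ h0)))).exists
    rw [e1, eq_div_iff e4] at e2
    refine e3 ?_
    rw [eval_sub, eval_mul, eval_C]
    linear_combination -e2
  push Not at this
  have h1 := congrArg (coeff · (mapRingHom S.subtype c).natDegree) (sub_eq_zero.1 this.1)
  simp only [coeff_C_mul] at h1
  have h2 : (mapRingHom S.subtype c).coeff (mapRingHom S.subtype c).natDegree ≠ 0 :=
    leadingCoeff_ne_zero.2 h0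
  rw [← div_eq_iff h2] at h1
  rw [← h1, div_eq_mul_inv]
  refine mul_mem ?_ (hS _ ?_) <;> rw [coe_mapRingHom, coeff_map] <;> exact Subtype.prop _

end Pool.Agent.Lib.MP_02f36d_nt
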